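import Mathlib

set_option autoImplicit false

/-!
# Gaussian elimination modulo seven on packed rows, for evaluation in the kernel
-/

namespace Pool.Agent.N108.SG

/-- Reduction of all slots of nine bits modulo seven, to numbers below `64`. -/
def red (M r : ℕ) : ℕ := r - 7 * ((r >>> 3) &&& M)

/-- Elimination of the lowest slot of `r` with the row `p`. -/
def upd (M inv p r : ℕ) : ℕ := red M (r + (6 * (r % 512) * inv % 7) * p) >>> 9

/-- Elimination of the lowest slot of all rows with the first row in which it is not zero. The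
rows in `acc` have been looked at. -/
def piv (k : List ℕ → Bool) (M : ℕ) : List ℕ → List ℕ → Bool
  | [], _ => false
  | r :: rs, acc =>
    bif Nat.beq (r % 512 % 7) 0 then piv k M rs (r :: acc)
    else bif Nat.beq ((r % 512) ^ 5 % 7 * (r % 512) % 7) 1 then
      k (rs.map (upd M ((r % 512) ^ 5 % 7) r) ++ acc.map (upd M 0 0)) else false

/-- The rows have full rank `n`. -/
def run (M : ℕ) : ℕ → List ℕ → Bool
  | 0, _ => true
  | n + 1, rs => piv (run M n) M rs []

/-- From the values for `i` to those for `i + 1`. -/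
def nextU (x : ℕ) : ℕ → List ℕ → List ℕ
  | _, [] => []
  | acc, u :: us => acc :: nextU x ((x * acc + u) % 7) us

/-- The powers of `x`. -/
def powU (x : ℕ) : ℕ → ℕ → List ℕ
  | _, 0 => []
  | acc, n + 1 => acc :: powU x (x * acc % 7) n

/-- The lists for `i = 0, …, m - 1`. -/
def tab (x : ℕ) : ℕ → List ℕ → List (List ℕ)
  | 0, _ => []
  | m + 1, U => U :: tab x m (nextU x 0 U)

/-- Packing. -/
def pkL : List ℕ → ℕ
  | [] => 0
  | a :: L => a + 512 * pkL L

/-- The slices of a list `V` for `a = a0, a0 + 1, …` (`n` of them): the entries with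
`lo ≤ b ≤ hi`, `lo + a = m`, `hi + a = d`. -/
def slices (V : List ℕ) : ℕ → ℕ → ℕ → List (ℕ × ℕ)
  | 0, _, _ => []
  | n + 1, lo, hi => (hi + 1 - lo, pkL ((V.take (hi + 1)).drop lo)) :: slices V n (lo - 1) (hi - 1)

/-- The packed row. -/
def rowPk : List ℕ → List (ℕ × ℕ) → ℕ
  | u :: us, v :: vs => u * v.2 + 512 ^ v.1 * rowPk us vs
  | _, _ => 0

/-- The rows for a point: all `i + j < m`. -/
def ptRows (d m0 : ℕ) (m x y : ℕ) : List ℕ :=
  let U := tab x m (powU x 1 (d + 1))
  let V := (tab y m (powU y 1 (d + 1))).map fun V => slices V (d + 1) m0 d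
  go m U V
where
  go : ℕ → List (List ℕ) → List (List (ℕ × ℕ)) → List ℕ
  | 0, _, _ => []
  | _ + 1, [], _ => []
  | m + 1, U :: Us, V => (V.take (m + 1)).map (rowPk U) ++ go m Us V

/-- All rows. -/
def allRows (d m0 : ℕ) : List ℕ → List (ℕ × ℕ) → List ℕ
  | m :: ms, q :: qs => ptRows d m0 m q.1 q.2 ++ allRows d m0 ms qs
  | _, _ => []

/-- The check for the class `(d; m0, ms)`, the first point being the origin. -/
def chk (d m0 : ℕ) (ms : List ℕ) (qs : List (ℕ × ℕ)) : Bool :=
  let N := (d + 1) * (d + 2) / 2 - m0 * (m0 + 1) / 2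
  run (63 * ((512 ^ N - 1) / 511)) N (allRows d m0 ms qs)

end Pool.Agent.N108.SG
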