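import Pool.Agent.N108.SG.Dom

set_option autoImplicit false

/-!
# Splitting of a long elimination
-/

namespace Pool.Agent.N108.SG

/-- The first `n` steps, followed by `K`. -/
noncomputable def rnC (M6 M3 : ℕ) (K : ℕ → List ℕ → Bool) (n : ℕ) : ℕ → List ℕ → Bool :=
  Nat.rec K (fun _ ih t rs =>
    Nat.rec (pv (ih 7) M6 M3 (rdAll M6 M3 rs) []) (fun t _ => pv (ih t) M6 M3 rs []) t) n

/-- The list starts with the block. -/
noncomputable def pre (b : List ℕ) : List ℕ → Bool :=
  List.rec (fun _ => true)
    (fun a _ ih l => List.rec false (fun x xs _ => Bool.rec false (ih xs) (Nat.beq x a)) l) b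

/-- Removal of as many elements as there are in the block. -/
noncomputable def drb (b : List ℕ) : List ℕ → List ℕ :=
  List.rec (fun l => l) (fun _ _ ih l => List.rec [] (fun _ xs _ => ih xs) l) b

/-- The concatenation. -/
noncomputable def flat (bs : List (List ℕ)) : List ℕ := List.rec [] (fun b _ ih => b ++ ih) bs

/-- Comparison with a list of blocks. -/
noncomputable def eqL (l : List ℕ) (bs : List (List ℕ)) : Bool :=
  (List.rec (fun l => List.rec true (fun _ _ _ => false) l)
    (fun b _ ih l => Bool.rec false (ih (drb b l)) (pre b l)) bs : List ℕ → Bool) l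

theorem pre_sound : ∀ (b l : List ℕ), pre b l = true → l = b ++ drb b l := by
  intro b
  induction b with
  | nil => intro l _; rfl
  | cons a b ih =>
    intro l h
    cases l with
    | nil => exact absurd h (by simp [pre])
    | cons x xs =>
      have h1 : pre (a :: b) (x :: xs) = Bool.rec false (pre b xs) (Nat.beq x a) := rfl
      rw [h1] at h
      cases h2 : Nat.beq x a with
      | false =>
        rw [h2] at h
        exact absurd h (by simp)
      | true =>
        rw [h2] at h
        have h3 : drb (a :: b) (x :: xs) = drb b xs := rfl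
        rw [h3, Nat.eq_of_beq_eq_true h2, List.cons_append, ← ih xs h]

theorem eqL_sound : ∀ (bs : List (List ℕ)) (l : List ℕ), eqL l bs = true → l = flat bs := by
  intro bs
  induction bs with
  | nil =>
    intro l h
    cases l with
    | nil => rfl
    | cons b bs => exact absurd h (by simp [eqL])
  | cons b bs ih =>
    intro l h
    have h1 : eqL l (b :: bs) = Bool.rec false (eqL (drb b l) bs) (pre b l) := rfl
    rw [h1] at h
    cases h2 : pre b l with
    | false =>
      rw [h2] at h
      exact absurd h (by simp)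
    | true =>
      rw [h2] at h
      have h3 : flat (b :: bs) = b ++ flat bs := rfl
      rw [h3, ← ih _ h]
      exact pre_sound b l h2

theorem pv_mono {k k' : List ℕ → Bool} {M6 M3 : ℕ} (h : ∀ l, k l = true → k' l = true) :
    ∀ (l acc : List ℕ), pv k M6 M3 l acc = true → pv k' M6 M3 l acc = true := by
  intro l
  induction l with
  | nil => intro acc h1; exact h1
  | cons r rs ih =>
    intro acc h1
    have e1 : ∀ k : List ℕ → Bool, pv k M6 M3 (r :: rs) acc =
        Bool.rec (Bool.rec false
          (k (sh acc (up (rd3 M3 (rd3 M3 (Nat.mul (Nat.mod (Nat.mul 6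
            (Nat.pow (Nat.mod (Nat.mod r 512) 7) 5)) 7) (rd M6 M3 r)))) rs)))
          (Nat.beq (Nat.mod (Nat.mul (Nat.mod (Nat.pow (Nat.mod (Nat.mod r 512) 7) 5) 7)
            (Nat.mod (Nat.mod r 512) 7)) 7) 1))
          (pv k M6 M3 rs (r :: acc)) (Nat.beq (Nat.mod (Nat.mod r 512) 7) 0) := fun _ => rfl
    rw [e1] at h1 ⊢
    cases h2 : Nat.beq (Nat.mod (Nat.mod r 512) 7) 0 with
    | true =>
      rw [h2] at h1
      exact ih _ h1
    | false =>
      rw [h2] at h1
      cases h3 : Nat.beq (Nat.mod (Nat.mul (Nat.mod (Nat.pow (Nat.mod (Nat.mod r 512) 7) 5) 7)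
            (Nat.mod (Nat.mod r 512) 7)) 7) 1 with
      | false =>
        rw [h3] at h1
        exact absurd h1 (by simp)
      | true =>
        rw [h3] at h1
        exact h _ h1

theorem rnC_mono {M6 M3 : ℕ} {K K' : ℕ → List ℕ → Bool}
    (h : ∀ t l, K t l = true → K' t l = true) :
    ∀ (n t : ℕ) (rs : List ℕ), rnC M6 M3 K n t rs = true → rnC M6 M3 K' n t rs = true := by
  intro n
  induction n with
  | zero => intro t rs h1; exact h t rs h1
  | succ n ih =>
    intro t rs h1
    cases t with
    | zero => exact pv_mono (fun l hl => ih 7 l hl) _ _ h1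
    | succ t => exact pv_mono (fun l hl => ih t l hl) _ _ h1

theorem rnC_rn (M6 M3 m : ℕ) : ∀ n, rnC M6 M3 (rn M6 M3 m) n = rn M6 M3 (m + n) := by
  intro n
  induction n with
  | zero => rfl
  | succ n ih =>
    have e1 : rnC M6 M3 (rn M6 M3 m) (n + 1) = fun t rs =>
      Nat.rec (pv (rnC M6 M3 (rn M6 M3 m) n 7) M6 M3 (rdAll M6 M3 rs) [])
        (fun t _ => pv (rnC M6 M3 (rn M6 M3 m) n t) M6 M3 rs []) t := rfl
    rw [e1, ih]
    rfl

/-- A part of the elimination. -/
noncomputable def chS (N k : ℕ) (S : List ℕ) (S' : List (List ℕ)) : Bool :=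
  rnC (7 * ((512 ^ N - 1) / 511)) (63 * ((512 ^ N - 1) / 511))
    (fun t rs => Bool.rec false (eqL rs S') (Nat.beq t 0)) k 0 S

/-- The last part of an elimination. -/
noncomputable def chE (N m : ℕ) (S : List ℕ) : Bool :=
  rn (7 * ((512 ^ N - 1) / 511)) (63 * ((512 ^ N - 1) / 511)) m 0 S

theorem chS_sound {N k m : ℕ} {S : List ℕ} {S' : List (List ℕ)} (h : chS N k S S' = true)
    (h' : chE N m (flat S') = true) : chE N (m + k) S = true := by
  unfold chE
  rw [← rnC_rn]
  refine rnC_mono ?_ k 0 S h
  intro t l h1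
  cases h2 : Nat.beq t 0 with
  | false =>
    rw [h2] at h1
    exact absurd h1 (by simp)
  | true =>
    rw [h2] at h1
    have h3 := eqL_sound S' l h1
    have h4 : t = 0 := Nat.eq_of_beq_eq_true h2
    rw [h3, h4]
    exact h'

theorem cK_of_chunks {d m0 : ℕ} {ms : List ℕ} {qs : List (ℕ × ℕ)} {S S' : List (List ℕ)}
    (N k1 k2 k3 : ℕ)
    (hN : (d + 1) * (d + 2) / 2 - m0 * (m0 + 1) / 2 = N) (hk : N = k3 + k2 + k1)
    (h1 : chS N k1 (allK d m0 ms qs) S = true) (h2 : chS N k2 (flat S) S' = true)
    (h3 : chE N k3 (flat S') = true) :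
    cK d m0 ms qs = true := by
  have h4 := chS_sound h1 (chS_sound h2 h3)
  rw [← hk] at h4
  unfold chE at h4
  unfold cK
  rw [hN]
  exact h4

end Pool.Agent.N108.SG
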