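import Mathlib

set_option autoImplicit false

/-!
# Enumeration of sorted multiplicities
-/

namespace Pool.Agent.N108.SG

/-- Trying all values down from the given one. -/
def loop (k : ℕ → Bool) (cnt S Q : ℕ) : ℕ → Bool
  | 0 => bif Nat.ble 1 S || Nat.ble 1 Q then true else k 0
  | m + 1 => bif Nat.ble ((m + 1) * cnt + 1) S || Nat.ble ((m + 1) * S + 1) Q then true
      else k (m + 1) && loop k cnt S Q m

/-- Some list is empty. -/
def hasNil : List (List ℕ) → Bool
  | [] => false
  | [] :: _ => true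
  | (_ :: _) :: cs => hasNil cs

/-- The certificates left when the next entry is `m`. -/
def adv (m : ℕ) : List (List ℕ) → List (List ℕ)
  | [] => []
  | [] :: cs => [] :: adv m cs
  | (a :: t) :: cs => bif Nat.ble a m then t :: adv m cs else adv m cs

/-- The enumeration. -/
def go : ℕ → List (List ℕ) → ℕ → ℕ → ℕ → Bool
  | 0, certs, S, Q, _ => hasNil certs || Nat.ble 1 S || Nat.ble 1 Q
  | cnt + 1, certs, S, Q, last => hasNil certs ||
      loop (fun m => bif Nat.ble m S then go cnt (adv m certs) (S - m) (Q - m * m) m else true)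
        (cnt + 1) S Q last

theorem hasNil_mem : ∀ {cs : List (List ℕ)}, hasNil cs = true → [] ∈ cs := by
  intro cs
  induction cs with
  | nil => intro h; simp [hasNil] at h
  | cons t cs ih =>
    intro h
    cases t with
    | nil => simp
    | cons a t =>
      rw [hasNil] at h
      exact List.mem_cons_of_mem _ (ih h)

theorem adv_mem {m : ℕ} : ∀ {cs : List (List ℕ)} {t : List ℕ}, t ∈ adv m cs →
    (t = [] ∧ [] ∈ cs) ∨ ∃ a, a ≤ m ∧ a :: t ∈ cs := by
  intro cs
  induction cs with
  | nil => intro t h; simp [adv] at h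
  | cons t' cs ih =>
    intro t h
    cases t' with
    | nil =>
      rw [adv, List.mem_cons] at h
      rcases h with h | h
      · exact Or.inl ⟨h, by simp⟩
      · rcases ih h with ⟨h1, h2⟩ | ⟨a, h1, h2⟩
        · exact Or.inl ⟨h1, by simp⟩
        · exact Or.inr ⟨a, h1, List.mem_cons_of_mem _ h2⟩
    | cons a t' =>
      rw [adv] at h
      cases hb : Nat.ble a m with
      | true =>
        rw [hb, cond_true, List.mem_cons] at h
        rcases h with rfl | h
        · exact Or.inr ⟨a, Nat.le_of_ble_eq_true hb, by simp⟩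
        · rcases ih h with ⟨h1, h2⟩ | ⟨a', h1, h2⟩
          · exact Or.inl ⟨h1, List.mem_cons_of_mem _ h2⟩
          · exact Or.inr ⟨a', h1, List.mem_cons_of_mem _ h2⟩
      | false =>
        rw [hb, cond_false] at h
        rcases ih h with ⟨h1, h2⟩ | ⟨a', h1, h2⟩
        · exact Or.inl ⟨h1, List.mem_cons_of_mem _ h2⟩
        · exact Or.inr ⟨a', h1, List.mem_cons_of_mem _ h2⟩

theorem ble_false {a b : ℕ} (h : b < a) : Nat.ble a b = false := by
  rw [Bool.eq_false_iff]
  intro h1
  have := Nat.le_of_ble_eq_true h1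
  omega

theorem loop_sound {k : ℕ → Bool} {cnt S Q m : ℕ} (h1 : S ≤ m * cnt) (h2 : Q ≤ m * S) :
    ∀ n, loop k cnt S Q n = true → m ≤ n → k m = true := by
  intro n
  induction n with
  | zero =>
    intro h hm
    have hm0 : m = 0 := by omega
    subst hm0
    rw [zero_mul] at h1 h2
    rw [loop, ble_false (by omega), ble_false (by omega)] at h
    simpa using h
  | succ n ih =>
    intro h hm
    have h3 : m * cnt ≤ (n + 1) * cnt := Nat.mul_le_mul_right _ hm
    have h4 : m * S ≤ (n + 1) * S := Nat.mul_le_mul_right _ hm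
    rw [loop, ble_false (by omega), ble_false (by omega)] at h
    simp only [Bool.or_self, cond_false, Bool.and_eq_true] at h
    rcases Nat.eq_or_lt_of_le hm with rfl | h5
    · exact h.1
    · exact ih h.2 (by omega)

/-- `v` has entries at least those of `t`. -/
def Dm (t : List ℕ) (v : ℕ → ℕ) : Prop := ∀ j (h : j < t.length), t[j] ≤ v j

theorem dm_nil (v : ℕ → ℕ) : Dm [] v := by
  intro j h
  simp at h

theorem dm_cons {a : ℕ} {t : List ℕ} {v : ℕ → ℕ} (ha : a ≤ v 0) (h : Dm t fun k => v (k + 1)) :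
    Dm (a :: t) v := by
  intro j hj
  cases j with
  | zero => simpa using ha
  | succ j =>
    have := h j (by simpa using hj)
    simpa using this

theorem sum_le {v : ℕ → ℕ} (hv : Antitone v) (n : ℕ) : ∑ k ∈ Finset.range n, v k ≤ v 0 * n := by
  calc ∑ k ∈ Finset.range n, v k ≤ ∑ _k ∈ Finset.range n, v 0 :=
        Finset.sum_le_sum fun k _ => hv (Nat.zero_le k)
    _ = v 0 * n := by simp [mul_comm]

theorem sq_le {v : ℕ → ℕ} (hv : Antitone v) (n : ℕ) :
    ∑ k ∈ Finset.range n, v k * v k ≤ v 0 * ∑ k ∈ Finset.range n, v k := by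
  rw [Finset.mul_sum]
  exact Finset.sum_le_sum fun k _ => Nat.mul_le_mul_right _ (hv (Nat.zero_le k))

theorem step_sound {certs : List (List ℕ)} {v : ℕ → ℕ} {m : ℕ} (hm : v 0 = m)
    (h : ∃ t ∈ adv m certs, Dm t fun k => v (k + 1)) : ∃ t ∈ certs, Dm t v := by
  obtain ⟨t, h1, h2⟩ := h
  rcases adv_mem h1 with ⟨rfl, h3⟩ | ⟨a, h3, h4⟩
  · exact ⟨[], h3, dm_nil v⟩
  · exact ⟨a :: t, h4, dm_cons (by omega) h2⟩

theorem go_sound : ∀ (cnt : ℕ) (certs : List (List ℕ)) (S Q last : ℕ),
    go cnt certs S Q last = true → ∀ v : ℕ → ℕ, Antitone v → v 0 ≤ last →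
    ∑ k ∈ Finset.range cnt, v k = S → Q ≤ ∑ k ∈ Finset.range cnt, v k * v k →
    ∃ t ∈ certs, Dm t v := by
  intro cnt
  induction cnt with
  | zero =>
    intro certs S Q last h v _ _ h1 h2
    rw [Finset.range_zero, Finset.sum_empty] at h1 h2
    rw [go, ble_false (by omega), ble_false (by omega)] at h
    simp only [Bool.or_false] at h
    exact ⟨[], hasNil_mem h, dm_nil v⟩
  | succ cnt ih =>
    intro certs S Q last h v hv hl h1 h2
    rw [go, Bool.or_eq_true] at h
    rcases h with h | h
    · exact ⟨[], hasNil_mem h, dm_nil v⟩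
    · have h3 := loop_sound (m := v 0) (by rw [← h1]; exact sum_le hv _)
        (by rw [← h1]; exact h2.trans (sq_le hv _)) last h hl
      have h4 : v 0 ≤ S := by
        rw [← h1]
        exact Finset.single_le_sum (f := v) (fun k _ => Nat.zero_le _)
          (Finset.mem_range.2 (Nat.succ_pos cnt))
      rw [show Nat.ble (v 0) S = true from Nat.ble_eq_true_of_le h4, cond_true] at h3
      refine step_sound rfl (ih _ _ _ _ h3 (fun k => v (k + 1))
        (fun i j hij => hv (by omega)) (hv (by omega)) ?_ ?_)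
      · rw [Finset.sum_range_succ'] at h1
        omega
      · rw [Finset.sum_range_succ'] at h2
        omega

/-- The full enumeration for the degree `d`. -/
def top (c d cnt : ℕ) (certs : List (List ℕ)) : Bool :=
  loop (fun m1 => bif Nat.ble m1 (3 * d + c) then
    loop (fun m2 => bif Nat.ble m2 (3 * d + c - m1) && Nat.ble (m1 + m2) d then
      go cnt (adv m2 (adv m1 certs)) (3 * d + c - m1 - m2) (d * d + 2 - c - m1 * m1 - m2 * m2)
        (min m2 (d - m1 - m2)) else true) (cnt + 1) (3 * d + c - m1) (d * d + 2 - c - m1 * m1) m1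
    else true) (cnt + 2) (3 * d + c) (d * d + 2 - c) d

theorem top_sound {c d cnt : ℕ} {certs : List (List ℕ)} (h : top c d cnt certs = true)
    {v : ℕ → ℕ} (hv : Antitone v) (h3 : v 0 + v 1 + v 2 ≤ d)
    (hS : ∑ k ∈ Finset.range (cnt + 2), v k = 3 * d + c)
    (hQ : d * d + 2 - c ≤ ∑ k ∈ Finset.range (cnt + 2), v k * v k) :
    ∃ t ∈ certs, Dm t v := by
  unfold top at h
  have h1 := loop_sound (m := v 0) (by rw [← hS]; exact sum_le hv _)
    (by rw [← hS]; exact hQ.trans (sq_le hv _)) d h (by omega)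
  have h4 : v 0 ≤ 3 * d + c := by
    rw [← hS]
    exact Finset.single_le_sum (f := v) (fun k _ => Nat.zero_le _)
      (Finset.mem_range.2 (Nat.succ_pos _))
  rw [show Nat.ble (v 0) (3 * d + c) = true from Nat.ble_eq_true_of_le h4, cond_true] at h1
  obtain ⟨v', hv'⟩ : ∃ v' : ℕ → ℕ, v' = fun k => v (k + 1) := ⟨_, rfl⟩
  have hv'a : Antitone v' := by
    rw [hv']
    exact fun i j hij => hv (by omega)
  rw [Finset.sum_range_succ'] at hS hQ
  have hS' : ∑ k ∈ Finset.range (cnt + 1), v' k = 3 * d + c - v 0 := by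
    rw [hv']
    simp only
    omega
  have hQ' : d * d + 2 - c - v 0 * v 0 ≤ ∑ k ∈ Finset.range (cnt + 1), v' k * v' k := by
    rw [hv']
    simp only
    omega
  have e1 : v' 0 = v 1 := by rw [hv']
  have h2 := loop_sound (m := v' 0) (by rw [← hS']; exact sum_le hv'a _)
    (by rw [← hS']; exact hQ'.trans (sq_le hv'a _)) (v 0) h1 (by
      rw [e1]
      exact hv (by omega))
  have h5 : v' 0 ≤ 3 * d + c - v 0 := by
    rw [← hS']
    exact Finset.single_le_sum (f := v') (fun k _ => Nat.zero_le _)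
      (Finset.mem_range.2 (Nat.succ_pos _))
  rw [show Nat.ble (v' 0) (3 * d + c - v 0) = true from Nat.ble_eq_true_of_le h5,
    show Nat.ble (v 0 + v' 0) d = true from Nat.ble_eq_true_of_le (by rw [e1]; omega), Bool.and_self,
    cond_true] at h2
  rw [Finset.sum_range_succ'] at hS' hQ'
  refine step_sound rfl ?_
  rw [← hv']
  refine step_sound rfl (go_sound _ _ _ _ _ h2 (fun k => v' (k + 1))
    (fun i j hij => hv'a (by omega)) ?_ (by omega) (by omega))
  rw [le_min_iff]
  refine ⟨hv'a (by omega), ?_⟩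
  rw [hv']
  show v 2 ≤ d - v 0 - v 1
  omega

end Pool.Agent.N108.SG
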