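import Pool.Agent.N108.SG.Sound

set_option autoImplicit false

/-!
# Semantics of the rows
-/

namespace Pool.Agent.N108.SG

/-- The entries modulo seven. -/
def en (x i a : ℕ) : ℕ := a.choose i * x ^ (a - i) % 7

theorem en_lt (x i a : ℕ) : en x i a < 7 := Nat.mod_lt _ (by norm_num)

theorem en_cast (x i a : ℕ) : ((en x i a : ℕ) : ZMod 7) = (a.choose i : ZMod 7) * (x : ZMod 7) ^ (a - i) := by
  unfold en
  rw [ZMod.natCast_mod]
  push_cast
  rfl

theorem en_rec (x i a : ℕ) : en x (i + 1) (a + 1) = (x * en x (i + 1) a + en x i a) % 7 := by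
  unfold en
  have h : (a + 1).choose (i + 1) * x ^ (a + 1 - (i + 1)) =
      x * (a.choose (i + 1) * x ^ (a - (i + 1))) + a.choose i * x ^ (a - i) := by
    rw [Nat.choose_succ_succ]
    rcases Nat.lt_or_ge i a with h | h
    · have e1 : a + 1 - (i + 1) = a - i := by omega
      have e2 : a - i = (a - (i + 1)) + 1 := by omega
      rw [e1, e2, pow_succ]
      ring
    · have e1 : a.choose (i + 1) = 0 := Nat.choose_eq_zero_of_lt (by omega)
      have e2 : a + 1 - (i + 1) = a - i := by omega
      rw [e1, e2]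
      ring
  rw [h, Nat.add_mod, Nat.mul_mod]
  conv_rhs => rw [Nat.add_mod, Nat.mul_mod]
  simp

theorem nextU_eq (x i : ℕ) : ∀ n a, nextU x (en x (i + 1) a) ((List.range' a n).map (en x i)) =
    (List.range' a n).map (en x (i + 1)) := by
  intro n
  induction n with
  | zero => intro a; rfl
  | succ n ih =>
    intro a
    rw [List.range'_succ, List.map_cons, List.map_cons, nextU, ← en_rec, ih]

theorem powU_eq (x : ℕ) : ∀ n a, powU x (en x 0 a) n = (List.range' a n).map (en x 0) := by
  intro n
  induction n with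
  | zero => intro a; rfl
  | succ n ih =>
    intro a
    rw [List.range'_succ, List.map_cons, powU]
    have : x * en x 0 a % 7 = en x 0 (a + 1) := by
      unfold en
      simp [pow_succ, mul_comm]
    rw [this, ih]

theorem tab_eq (x n : ℕ) : ∀ m i, tab x m ((List.range' 0 n).map (en x i)) =
    (List.range' i m).map fun i => (List.range' 0 n).map (en x i) := by
  intro m
  induction m with
  | zero => intro i; rfl
  | succ m ih =>
    intro i
    rw [List.range'_succ, List.map_cons, tab]
    have : (0 : ℕ) = en x (i + 1) 0 := by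
      unfold en
      simp
    conv_lhs => rw [this]
    rw [← this, nextU_eq_zero x i n, ih]
where
  nextU_eq_zero (x i n : ℕ) : nextU x 0 ((List.range' 0 n).map (en x i)) =
      (List.range' 0 n).map (en x (i + 1)) := by
    have : (0 : ℕ) = en x (i + 1) 0 := by
      unfold en
      simp
    conv_lhs => rw [show nextU x 0 = nextU x (en x (i + 1) 0) by rw [← this]]
    exact nextU_eq x i n 0

theorem mem_go : ∀ (m : ℕ) (U : List (List ℕ)) (V : List (List (ℕ × ℕ))) (i0 : ℕ)
    (f : ℕ → List ℕ) (g : ℕ → List (ℕ × ℕ)), U = (List.range' i0 m).map f →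
    (∀ l, l < m → V[l]? = some (g l)) → ∀ r ∈ ptRows.go m U V,
    ∃ i l, i0 ≤ i ∧ i + l < m + i0 ∧ r = rowPk (f i) (g l) := by
  intro m
  induction m with
  | zero =>
    intro U V i0 f g hU hV r hr
    simp [ptRows.go] at hr
  | succ m ih =>
    intro U V i0 f g hU hV r hr
    rw [List.range'_succ, List.map_cons] at hU
    rw [hU, ptRows.go, List.mem_append] at hr
    rcases hr with hr | hr
    · obtain ⟨v, hv, rfl⟩ := List.mem_map.1 hr
      obtain ⟨l, hl2⟩ := List.mem_iff_getElem?.1 hv
      by_cases hl : l < m + 1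
      · rw [List.getElem?_take, if_pos hl, hV l hl] at hl2
        have : g l = v := by simpa using hl2
        exact ⟨i0, l, le_rfl, by omega, by rw [this]⟩
      · rw [List.getElem?_take, if_neg hl] at hl2
        simp at hl2
    · obtain ⟨i, l, h1, h2, h3⟩ := ih _ V (i0 + 1) f g rfl (fun l hl => hV l (by omega)) r hr
      exact ⟨i, l, by omega, by omega, h3⟩

/-- The digits of a row and the unknowns. -/
def blk {α : Type} (m0 d : ℕ) (f : ℕ → ℕ → α) : ℕ → ℕ → List α
  | _, 0 => []
  | a, n + 1 => ((List.range' (m0 - a) (d - a + 1 - (m0 - a))).map (f a)) ++ blk m0 d f (a + 1) n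

theorem pk_append (L M : List ℕ) : pkL (L ++ M) = pkL L + 512 ^ L.length * pkL M := by
  induction L with
  | nil => simp [pkL]
  | cons a L ih =>
    rw [List.cons_append, pkL, ih, pkL, List.length_cons, pow_succ]
    ring

theorem pk_mul (c : ℕ) (L : List ℕ) : pkL (L.map (c * ·)) = c * pkL L := by
  induction L with
  | nil => rfl
  | cons a L ih =>
    rw [List.map_cons, pkL, ih, pkL]
    ring

theorem dot_append : ∀ (L M : List ℕ) (X Y : List (ZMod 7)), L.length = X.length →
    dot (L ++ M) (X ++ Y) = dot L X + dot M Y := by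
  intro L
  induction L with
  | nil =>
    intro M X Y h
    have : X = [] := List.length_eq_zero_iff.1 h.symm
    subst this
    simp [dot]
  | cons a L ih =>
    intro M X Y h
    cases X with
    | nil => simp at h
    | cons x X =>
      rw [List.cons_append, List.cons_append, dot, dot, ih M X Y (by simpa using h)]
      ring

theorem blk_len {α β : Type} (m0 d : ℕ) (f : ℕ → ℕ → α) (g : ℕ → ℕ → β) :
    ∀ n a, (blk m0 d f a n).length = (blk m0 d g a n).length := by
  intro n
  induction n with
  | zero => intro a; rfl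
  | succ n ih =>
    intro a
    simp [blk, ih]

theorem drop_take_map {α : Type} (f : ℕ → α) (n lo k : ℕ) (h : lo + k ≤ n) :
    (((List.range' 0 n).map f).take (lo + k)).drop lo = (List.range' lo k).map f := by
  apply List.ext_getElem?
  intro i
  rw [List.getElem?_drop, List.getElem?_take]
  by_cases hi : i < k
  · rw [if_pos (by omega)]
    simp [hi, show lo + i < n by omega]
  · rw [if_neg (by omega)]
    simp [hi]

theorem rowPk_eq {m0 d : ℕ} (hm : m0 ≤ d) (u v : ℕ → ℕ) : ∀ n a, a + n = d + 1 →
    rowPk ((List.range' a n).map u) (slices ((List.range' 0 (d + 1)).map v) n (m0 - a) (d - a)) =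
      pkL (blk m0 d (fun a b => u a * v b) a n) := by
  intro n
  induction n with
  | zero => intro a _; rfl
  | succ n ih =>
    intro a ha
    rw [List.range'_succ, List.map_cons, slices, rowPk, blk, pk_append]
    have e1 : (d - a + 1) = (m0 - a) + (d - a + 1 - (m0 - a)) := by omega
    have e2 : (((List.range' 0 (d + 1)).map v).take (d - a + 1)).drop (m0 - a) =
        (List.range' (m0 - a) (d - a + 1 - (m0 - a))).map v := by
      conv_lhs => rw [e1]
      exact drop_take_map v (d + 1) _ _ (by omega)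
    rw [e2]
    have e3 : m0 - a - 1 = m0 - (a + 1) := by omega
    have e4 : d - a - 1 = d - (a + 1) := by omega
    rw [e3, e4, ih (a + 1) (by omega)]
    have e5 : (List.range' (m0 - a) (d - a + 1 - (m0 - a))).map (fun b => u a * v b) =
        (((List.range' (m0 - a) (d - a + 1 - (m0 - a))).map v).map (u a * ·)) := by
      rw [List.map_map]
      rfl
    rw [e5, pk_mul, List.length_map, List.length_map, List.length_range']

theorem blk_lt (m0 d : ℕ) {f : ℕ → ℕ → ℕ} (hf : ∀ a b, f a b < 64) :
    ∀ n a, ∀ c ∈ blk m0 d f a n, c < 64 := by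
  intro n
  induction n with
  | zero =>
    intro a c hc
    simp [blk] at hc
  | succ n ih =>
    intro a c hc
    rw [blk, List.mem_append] at hc
    rcases hc with hc | hc
    · obtain ⟨b, _, rfl⟩ := List.mem_map.1 hc
      exact hf a b
    · exact ih _ c hc

theorem dot_map (f : ℕ → ℕ) (g : ℕ → ZMod 7) : ∀ n a,
    dot ((List.range' a n).map f) ((List.range' a n).map g) =
      ∑ b ∈ Finset.Ico a (a + n), (f b : ZMod 7) * g b := by
  intro n
  induction n with
  | zero => intro a; simp [dot]
  | succ n ih =>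
    intro a
    rw [List.range'_succ, List.map_cons, List.map_cons, dot, ih]
    have : a + (n + 1) = a + 1 + n := by omega
    rw [this, Finset.sum_eq_sum_Ico_succ_bot (a := a) (b := a + 1 + n) (by omega)]

theorem dot_blk (m0 d : ℕ) (f : ℕ → ℕ → ℕ) (g : ℕ → ℕ → ZMod 7) : ∀ n a,
    dot (blk m0 d f a n) (blk m0 d g a n) = ∑ c ∈ Finset.Ico a (a + n),
      ∑ b ∈ Finset.Ico (m0 - c) (m0 - c + (d - c + 1 - (m0 - c))), (f c b : ZMod 7) * g c b := by
  intro n
  induction n with
  | zero => intro a; simp [blk, dot]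
  | succ n ih =>
    intro a
    rw [blk, blk, dot_append _ _ _ _ (by simp), dot_map, ih]
    have : a + (n + 1) = a + 1 + n := by omega
    rw [this, Finset.sum_eq_sum_Ico_succ_bot (a := a) (b := a + 1 + n) (by omega)]

/-- The conditions of multiplicity `m` at `(p, q)` on the coefficients `c`. -/
def Cond {R : Type} [CommRing R] (d : ℕ) (p q : R) (m : ℕ) (c : ℕ → ℕ → R) : Prop :=
  ∀ i l, i + l < m → ∑ a ∈ Finset.range (d + 1), ∑ b ∈ Finset.range (d + 1 - a),
    c a b * ((a.choose i : R) * p ^ (a - i) * ((b.choose l : R) * q ^ (b - l))) = 0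

theorem cond_zero {R : Type} [CommRing R] {d m : ℕ} {c : ℕ → ℕ → R} (h : Cond d 0 0 m c) {i l : ℕ}
    (hil : i + l < m) (hd : i + l ≤ d) : c i l = 0 := by
  have h1 := h i l hil
  rw [Finset.sum_eq_single_of_mem i (Finset.mem_range.2 (by omega)),
    Finset.sum_eq_single_of_mem l (Finset.mem_range.2 (by omega))] at h1
  · simpa using h1
  · intro b _ hb
    rcases Nat.lt_or_ge b l with h2 | h2
    · rw [Nat.choose_eq_zero_of_lt h2]
      simp
    · rw [zero_pow (show b - l ≠ 0 by omega)]
      simp
  · intro a _ ha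
    refine Finset.sum_eq_zero fun b _ => ?_
    rcases Nat.lt_or_ge a i with h2 | h2
    · rw [Nat.choose_eq_zero_of_lt h2]
      simp
    · rw [zero_pow (show a - i ≠ 0 by omega)]
      simp

theorem good_row {d m0 m x y : ℕ} {c : ℕ → ℕ → ZMod 7} (hm : m0 ≤ d) (h0 : Cond d 0 0 m0 c)
    (h : Cond d (x : ZMod 7) (y : ZMod 7) m c) {i l : ℕ} (hil : i + l < m) :
    Good (blk m0 d c 0 (d + 1)) (rowPk ((List.range' 0 (d + 1)).map (en x i))
      (slices ((List.range' 0 (d + 1)).map (en y l)) (d + 1) m0 d)) := by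
  have h1 := rowPk_eq hm (en x i) (en y l) (d + 1) 0 (by omega)
  rw [Nat.sub_zero, Nat.sub_zero] at h1
  rw [h1]
  refine ⟨_, blk_len _ _ _ _ _ _, blk_lt m0 d (fun a b => ?_) _ _, rfl, ?_⟩
  · have h2 := en_lt x i a
    have h3 := en_lt y l b
    have : en x i a * en y l b ≤ 6 * 6 := Nat.mul_le_mul (by omega) (by omega)
    omega
  · rw [dot_blk]
    rw [← h i l hil, zero_add, Finset.range_eq_Ico]
    refine Finset.sum_congr rfl fun a ha => ?_
    rw [Finset.mem_Ico] at ha
    have e1 : m0 - a + (d - a + 1 - (m0 - a)) = d + 1 - a := by omega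
    rw [e1]
    have hsub : Finset.Ico (m0 - a) (d + 1 - a) ⊆ Finset.range (d + 1 - a) := by
      intro b hb
      rw [Finset.mem_Ico] at hb
      exact Finset.mem_range.2 hb.2
    rw [← Finset.sum_subset hsub]
    · refine Finset.sum_congr rfl fun b _ => ?_
      rw [Nat.cast_mul, en_cast, en_cast]
      ring
    · intro b hb hb2
      rw [Finset.mem_range] at hb
      rw [Finset.mem_Ico] at hb2
      rw [cond_zero h0 (show a + b < m0 by omega) (by omega), zero_mul]

theorem good_pt {d m0 m x y : ℕ} {c : ℕ → ℕ → ZMod 7} (hm : m0 ≤ d) (h0 : Cond d 0 0 m0 c)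
    (h : Cond d (x : ZMod 7) (y : ZMod 7) m c) :
    ∀ r ∈ ptRows d m0 m x y, Good (blk m0 d c 0 (d + 1)) r := by
  intro r hr
  unfold ptRows at hr
  have hx : powU x 1 (d + 1) = (List.range' 0 (d + 1)).map (en x 0) := by
    rw [← powU_eq]
    rfl
  have hy : powU y 1 (d + 1) = (List.range' 0 (d + 1)).map (en y 0) := by
    rw [← powU_eq]
    rfl
  simp only [hx, hy, tab_eq] at hr
  obtain ⟨i, l, h1, h2, rfl⟩ := mem_go m _ _ 0 _
    (fun l => slices ((List.range' 0 (d + 1)).map (en y l)) (d + 1) m0 d) rfl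
    (fun l hl => by simp [hl]) r hr
  exact good_row hm h0 h (by omega)

theorem good_all {d m0 : ℕ} {c : ℕ → ℕ → ZMod 7} (hm : m0 ≤ d) (h0 : Cond d 0 0 m0 c) :
    ∀ (ms : List ℕ) (qs : List (ℕ × ℕ)),
    (∀ mq ∈ ms.zip qs, Cond d (mq.2.1 : ZMod 7) (mq.2.2 : ZMod 7) mq.1 c) →
    ∀ r ∈ allRows d m0 ms qs, Good (blk m0 d c 0 (d + 1)) r := by
  intro ms
  induction ms with
  | nil =>
    intro qs _ r hr
    simp [allRows] at hr
  | cons m ms ih =>
    intro qs h r hr
    cases qs with
    | nil => simp [allRows] at hr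
    | cons q qs =>
      rw [allRows, List.mem_append] at hr
      rcases hr with hr | hr
      · exact good_pt hm h0 (h (m, q) (by simp)) r hr
      · exact ih qs (fun mq hmq => h mq (by simp [hmq])) r hr

theorem blk_length {α : Type} (m0 d : ℕ) (hm : m0 ≤ d) (f : ℕ → ℕ → α) :
    (blk m0 d f 0 (d + 1)).length = (d + 1) * (d + 2) / 2 - m0 * (m0 + 1) / 2 := by
  have h : ∀ n a, a + n = d + 1 → (blk m0 d f a n).length * 2 + (m0 - a) * (m0 - a + 1) =
      n * (n + 1) := by
    intro n
    induction n with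
    | zero =>
      intro a ha
      have : m0 - a = 0 := by omega
      simp [blk, this]
    | succ n ih =>
      intro a ha
      have h1 := ih (a + 1) (by omega)
      rw [blk, List.length_append, List.length_map, List.length_range']
      have e1 : d - a + 1 = n + 1 := by omega
      rw [e1]
      rcases Nat.eq_zero_or_pos (m0 - a) with h2 | h2
      · have e2 : m0 - (a + 1) = 0 := by omega
        rw [e2] at h1
        rw [h2]
        simp only [Nat.sub_zero]
        nlinarith
      · obtain ⟨t, ht⟩ : ∃ t, m0 - a = t + 1 := ⟨m0 - a - 1, by omega⟩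
        have e2 : m0 - (a + 1) = t := by omega
        rw [e2] at h1
        rw [ht]
        have e3 : n + 1 - (t + 1) = n - t := by omega
        rw [e3]
        have e4 : t ≤ n := by omega
        obtain ⟨w, hw⟩ : ∃ w, n = t + w := ⟨n - t, by omega⟩
        have e5 : n - t = w := by omega
        rw [e5]
        subst hw
        nlinarith
  have h1 := h (d + 1) 0 (by omega)
  rw [Nat.sub_zero] at h1
  have h2 : 2 ∣ m0 * (m0 + 1) := (Nat.even_mul_succ_self m0).two_dvd
  have h3 : 2 ∣ (d + 1) * (d + 2) := by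
    have := (Nat.even_mul_succ_self (d + 1)).two_dvd
    exact this
  have h4 : (d + 1) * (d + 1 + 1) = (d + 1) * (d + 2) := by ring
  omega

theorem blk_mem {α : Type} (m0 d : ℕ) (f : ℕ → ℕ → α) : ∀ n a0 a b, a0 ≤ a → a < a0 + n →
    m0 ≤ a + b → a + b ≤ d → f a b ∈ blk m0 d f a0 n := by
  intro n
  induction n with
  | zero => intro a0 a b h1 h2; omega
  | succ n ih =>
    intro a0 a b h1 h2 h3 h4
    rw [blk, List.mem_append]
    rcases Nat.eq_or_lt_of_le h1 with rfl | h5
    · left
      refine List.mem_map.2 ⟨b, ?_, rfl⟩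
      rw [List.mem_range'_1]
      omega
    · right
      exact ih (a0 + 1) a b (by omega) (by omega) h3 h4

/-- Soundness of the check. -/
theorem chk_sound {d m0 : ℕ} (hm : m0 ≤ d) {ms : List ℕ} {qs : List (ℕ × ℕ)}
    (h : chk d m0 ms qs = true) {c : ℕ → ℕ → ZMod 7} (h0 : Cond d 0 0 m0 c)
    (hc : ∀ mq ∈ ms.zip qs, Cond d (mq.2.1 : ZMod 7) (mq.2.2 : ZMod 7) mq.1 c) :
    ∀ a b, a + b ≤ d → c a b = 0 := by
  unfold chk at h
  simp only at h
  rw [mask_eq, ← blk_length m0 d hm c] at h
  have h1 := run_sound (blk m0 d c 0 (d + 1)) _ le_rfl (good_all hm h0 ms qs hc) h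
  intro a b hab
  rcases Nat.lt_or_ge (a + b) m0 with h2 | h2
  · exact cond_zero h0 h2 hab
  · exact h1 _ (blk_mem m0 d c (d + 1) 0 a b (by omega) (by omega) h2 hab)

end Pool.Agent.N108.SG
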