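import Pool.Agent.N108.SG.Fast
import Pool.Agent.N108.SG.Rows

set_option autoImplicit false

/-!
# Soundness of the faster elimination
-/

namespace Pool.Agent.N108.SG

/-- The second mask. -/
def mask6 : ℕ → ℕ
  | 0 => 0
  | n + 1 => 7 + 512 * mask6 n

theorem mask6_eq (N : ℕ) : 7 * ((512 ^ N - 1) / 511) = mask6 N := by
  have h : ∀ N : ℕ, ∃ q, 512 ^ N = 511 * q + 1 ∧ mask6 N = 7 * q := by
    intro N
    induction N with
    | zero => exact ⟨0, by norm_num, rfl⟩
    | succ n ih =>
      obtain ⟨q, h1, h2⟩ := ih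
      refine ⟨512 * q + 1, ?_, ?_⟩
      · rw [pow_succ, h1]
        ring
      · rw [mask6, h2]
        ring
  obtain ⟨q, h1, h2⟩ := h N
  rw [h1, h2]
  simp

theorem and_mask6 : ∀ (L : List ℕ) (N : ℕ), L.length ≤ N → (∀ a ∈ L, a < 512) →
    (pkL L >>> 6) &&& mask6 N = pkL (L.map (· / 64)) := by
  intro L
  induction L with
  | nil =>
    intro N _ _
    simp [pkL]
  | cons a L ih =>
    intro N hN hL
    obtain ⟨n, rfl⟩ : ∃ n, N = n + 1 := ⟨N - 1, by simp at hN; omega⟩
    have ha : a < 512 := hL a (by simp)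
    have h1 := ih n (by simpa using hN) fun b hb => hL b (by simp [hb])
    rw [Nat.shiftRight_eq_div_pow] at h1 ⊢
    rw [pkL, mask6, and_split]
    have e1 : (a + 512 * pkL L) / 2 ^ 6 = a / 64 + 8 * pkL L := by omega
    rw [e1]
    have e2 : (a / 64 + 8 * pkL L) % 512 = a / 64 + 8 * (pkL L % 64) := by omega
    have e3 : (a / 64 + 8 * pkL L) / 512 = pkL L / 2 ^ 6 := by omega
    have e4 : (7 + 512 * mask6 n) % 512 = 7 := by omega
    have e5 : (7 + 512 * mask6 n) / 512 = mask6 n := by omega
    rw [e2, e3, e4, e5, h1]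
    have e6 : (a / 64 + 8 * (pkL L % 64)) &&& 7 = a / 64 := by
      have : (7 : ℕ) = 2 ^ 3 - 1 := by norm_num
      rw [this, Nat.and_two_pow_sub_one_eq_mod]
      omega
    rw [e6]
    rfl

theorem pk_sub6 (L : List ℕ) : pkL L = 63 * pkL (L.map (· / 64)) +
    pkL (L.map fun a => a - 63 * (a / 64)) := by
  induction L with
  | nil => rfl
  | cons a L ih =>
    simp only [List.map_cons, pkL]
    omega

theorem rd3_eq {L : List ℕ} {N : ℕ} (hN : L.length ≤ N) (hL : ∀ a ∈ L, a < 512) :
    rd3 (mask N) (pkL L) = pkL (L.map fun a => a - 7 * (a / 8)) :=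
  red_eq hN hL

theorem rd_eq {L : List ℕ} {N : ℕ} (hN : L.length ≤ N) (hL : ∀ a ∈ L, a < 512) :
    rd (mask6 N) (mask N) (pkL L) =
      pkL ((L.map fun a => a - 63 * (a / 64)).map fun a => a - 7 * (a / 8)) := by
  have h1 : Nat.sub (pkL L) (Nat.mul 63 (Nat.land (Nat.shiftRight (pkL L) 6) (mask6 N))) =
      pkL (L.map fun a => a - 63 * (a / 64)) := by
    show pkL L - 63 * ((pkL L >>> 6) &&& mask6 N) = _
    rw [and_mask6 L N hN hL]
    have := pk_sub6 L
    omega
  unfold rd
  simp only [h1]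
  refine red_eq (by rw [List.length_map]; exact hN) fun a ha => ?_
  obtain ⟨b, hb, rfl⟩ := List.mem_map.1 ha
  have := hL b hb
  omega

/-- The row `r`, with entries below `b`, is an equation satisfied by `X`. -/
def Gd (b : ℕ) (X : List (ZMod 7)) (r : ℕ) : Prop :=
  ∃ L : List ℕ, L.length = X.length ∧ (∀ a ∈ L, a < b) ∧ r = pkL L ∧ dot L X = 0

theorem cast63 (a : ℕ) : ((a - 63 * (a / 64) : ℕ) : ZMod 7) = a := by
  have h : 63 * (a / 64) ≤ a := by omega
  rw [Nat.cast_sub h]
  push_cast
  have : (63 : ZMod 7) = 0 := by decide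
  rw [this]
  ring

theorem dot_red6 : ∀ (L : List ℕ) (X : List (ZMod 7)),
    dot (L.map fun a => a - 63 * (a / 64)) X = dot L X := by
  intro L
  induction L with
  | nil => intro X; rfl
  | cons a L ih =>
    intro X
    cases X with
    | nil => rfl
    | cons x X =>
      have := ih X
      simp only [List.map_cons, dot, this, cast63]

theorem gd_rd3 {N b b' : ℕ} {X : List (ZMod 7)} (hN : X.length ≤ N) {r : ℕ} (hr : Gd b X r)
    (hb : b ≤ 512) (hb' : 7 + b / 8 < b') : Gd b' X (rd3 (mask N) r) := by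
  obtain ⟨L, l1, l2, l3, l4⟩ := hr
  rw [l3, rd3_eq (by rw [l1]; exact hN) fun a ha => lt_of_lt_of_le (l2 a ha) hb]
  refine ⟨_, by rw [List.length_map]; exact l1, ?_, rfl, ?_⟩
  · intro a ha
    obtain ⟨c, hc, rfl⟩ := List.mem_map.1 ha
    have := l2 c hc
    omega
  · rw [dot_red, l4]

theorem gd_rd {N : ℕ} {X : List (ZMod 7)} (hN : X.length ≤ N) {r : ℕ} (hr : Gd 512 X r) :
    Gd 16 X (rd (mask6 N) (mask N) r) := by
  obtain ⟨L, l1, l2, l3, l4⟩ := hr
  rw [l3, rd_eq (by rw [l1]; exact hN) l2]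
  refine ⟨_, by rw [List.length_map, List.length_map]; exact l1, ?_, rfl, ?_⟩
  · intro a ha
    obtain ⟨c, hc, rfl⟩ := List.mem_map.1 ha
    obtain ⟨e, he, rfl⟩ := List.mem_map.1 hc
    have := l2 e he
    omega
  · rw [dot_red, dot_red6, l4]

theorem dot_mul (s : ℕ) : ∀ (L : List ℕ) (X : List (ZMod 7)),
    dot (L.map (s * ·)) X = s * dot L X := by
  intro L
  induction L with
  | nil => intro X; simp [dot]
  | cons a L ih =>
    intro X
    cases X with
    | nil => simp [dot]
    | cons x X =>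
      have := ih X
      simp only [List.map_cons, dot, this]
      push_cast
      ring

theorem gd_mul {b s : ℕ} {X : List (ZMod 7)} {r : ℕ} (hr : Gd b X r) (hs : s < 7) :
    Gd (6 * b + 1) X (s * r) := by
  obtain ⟨L, l1, l2, l3, l4⟩ := hr
  refine ⟨L.map (s * ·), by rw [List.length_map]; exact l1, ?_, ?_, ?_⟩
  · intro a ha
    obtain ⟨c, hc, rfl⟩ := List.mem_map.1 ha
    have := l2 c hc
    have : s * c ≤ 6 * b := Nat.mul_le_mul (by omega) (by omega)
    omega
  · rw [l3, pk_mul]
  · rw [dot_mul, l4, mul_zero]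

/-- The lowest entry modulo seven. -/
theorem gd_head {b : ℕ} {x : ZMod 7} {X : List (ZMod 7)} {r : ℕ} (hb : b ≤ 512)
    (hr : Gd b (x :: X) r) : ∃ (a : ℕ) (L : List ℕ), a < b ∧ L.length = X.length ∧
      (∀ c ∈ L, c < b) ∧ r = pkL (a :: L) ∧ (a : ZMod 7) * x + dot L X = 0 ∧ r % 512 = a := by
  obtain ⟨L, l1, l2, l3, l4⟩ := hr
  cases L with
  | nil => simp at l1
  | cons a L =>
    have ha := l2 a (by simp)
    refine ⟨a, L, ha, by simpa using l1, fun c hc => l2 c (by simp [hc]), l3, l4, ?_⟩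
    rw [l3, pkL]
    omega

theorem ax_lt' {c b : ℕ} (hc : c < 7) : ∀ L M : List ℕ, (∀ a ∈ L, a < b) → (∀ a ∈ M, a < 10) →
    ∀ a ∈ ax c L M, a < b + 54 := by
  intro L
  induction L with
  | nil =>
    intro M _ _ a ha
    cases M <;> simp [ax] at ha
  | cons b' L ih =>
    intro M h1 h2 a ha
    cases M with
    | nil => simp [ax] at ha
    | cons b'' M =>
      simp only [ax, List.mem_cons] at ha
      rcases ha with ha | ha
      · have h3 := h1 b' (by simp)
        have h4 := h2 b'' (by simp)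
        have h5 : c * b'' ≤ 6 * 9 := Nat.mul_le_mul (by omega) (by omega)
        omega
      · exact ih M (fun a ha => h1 a (by simp [ha])) (fun a ha => h2 a (by simp [ha])) a ha

/-- Elimination. -/
theorem gd_up {b : ℕ} {x : ZMod 7} {X : List (ZMod 7)} {r p : ℕ} (hb : b + 54 ≤ 512)
    (hr : Gd b (x :: X) r) (hp : Gd 10 (x :: X) p) (h0 : (p % 512 + 1) % 7 = 0) :
    Gd (b + 54) X (Nat.shiftRight (Nat.add r (Nat.mul (Nat.mod (Nat.mod r 512) 7) p)) 9) := by
  obtain ⟨a, L, a1, a2, a3, a4, a5, a6⟩ := gd_head (by omega) hr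
  obtain ⟨e, M, e1, e2, e3, e4, e5, e6⟩ := gd_head (by omega) hp
  have h7 : Nat.mod (Nat.mod r 512) 7 = a % 7 := by
    show r % 512 % 7 = a % 7
    rw [a6]
  rw [h7]
  show Gd (b + 54) X ((r + (a % 7) * p) >>> 9)
  obtain ⟨c, hc⟩ : ∃ c, c = a % 7 := ⟨_, rfl⟩
  rw [← hc]
  have hc7 : c < 7 := by
    rw [hc]
    exact Nat.mod_lt _ (by norm_num)
  have hlen : (a :: L).length = (e :: M).length := by simp [a2, e2]
  have g1 : r + c * p = pkL (ax c (a :: L) (e :: M)) := by
    rw [ax_pk c _ _ hlen, a4, e4]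
  have hlt := ax_lt' (b := b) hc7 (a :: L) (e :: M)
    (fun z hz => by
      rcases List.mem_cons.1 hz with rfl | hz
      · exact a1
      · exact a3 z hz)
    (fun z hz => by
      rcases List.mem_cons.1 hz with rfl | hz
      · exact e1
      · exact e3 z hz)
  rw [g1, Nat.shiftRight_eq_div_pow]
  rw [ax] at hlt ⊢
  rw [pkL]
  have g2 := hlt _ (List.mem_cons_self)
  have g3 : (a + c * e + 512 * pkL (ax c L M)) / 2 ^ 9 = pkL (ax c L M) := by omega
  rw [g3]
  refine ⟨_, ?_, fun z hz => hlt z (List.mem_cons_of_mem _ hz), rfl, ?_⟩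
  · rw [ax_len c L M (by rw [a2, e2]), a2]
  · rw [ax_dot c L M X a2 e2]
    have h1 : (a : ZMod 7) + c * e = 0 := by
      have h2 : (c : ZMod 7) = a := by
        rw [hc, ZMod.natCast_mod]
      have h3 : ((e + 1 : ℕ) : ZMod 7) = 0 := by
        rw [← e6]
        exact (ZMod.natCast_eq_zero_iff _ _).2 (Nat.dvd_of_mod_eq_zero h0)
      push_cast at h3
      rw [h2]
      linear_combination (a : ZMod 7) * h3
    linear_combination a5 + (c : ZMod 7) * e5 - x * h1

theorem gd_sh {b : ℕ} {x : ZMod 7} {X : List (ZMod 7)} {r : ℕ} (hb : b ≤ 512)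
    (hr : Gd b (x :: X) r) (h0 : r % 512 % 7 = 0) : Gd b X (Nat.shiftRight r 9) := by
  obtain ⟨a, L, a1, a2, a3, a4, a5, a6⟩ := gd_head hb hr
  rw [a6] at h0
  have h1 : (a : ZMod 7) = 0 := (ZMod.natCast_eq_zero_iff _ _).2 (Nat.dvd_of_mod_eq_zero h0)
  show Gd b X (r >>> 9)
  rw [Nat.shiftRight_eq_div_pow, a4, pkL]
  have g3 : (a + 512 * pkL L) / 2 ^ 9 = pkL L := by omega
  rw [g3]
  refine ⟨L, a2, a3, rfl, ?_⟩
  rw [h1, zero_mul, zero_add] at a5
  exact a5

theorem gd_mono {b b' : ℕ} {X : List (ZMod 7)} {r : ℕ} (h : Gd b X r) (hb : b ≤ b') :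
    Gd b' X r := by
  obtain ⟨L, l1, l2, l3, l4⟩ := h
  exact ⟨L, l1, fun a ha => lt_of_lt_of_le (l2 a ha) hb, l3, l4⟩

theorem up_cons (p r : ℕ) (rs : List ℕ) : up p (r :: rs) =
    Nat.shiftRight (Nat.add r (Nat.mul (Nat.mod (Nat.mod r 512) 7) p)) 9 :: up p rs := rfl

theorem mem_up {p : ℕ} : ∀ {rs : List ℕ} {z : ℕ}, z ∈ up p rs →
    ∃ r ∈ rs, z = Nat.shiftRight (Nat.add r (Nat.mul (Nat.mod (Nat.mod r 512) 7) p)) 9 := by
  intro rs
  induction rs with
  | nil => intro z hz; exact absurd hz (by simp [up])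
  | cons r rs ih =>
    intro z hz
    rw [up_cons, List.mem_cons] at hz
    rcases hz with hz | hz
    · exact ⟨r, by simp, hz⟩
    · obtain ⟨r', h1, h2⟩ := ih hz
      exact ⟨r', by simp [h1], h2⟩

theorem sh_cons (r : ℕ) (acc rs : List ℕ) :
    sh (r :: acc) rs = sh acc (Nat.shiftRight r 9 :: rs) := rfl

theorem mem_sh : ∀ {acc rs : List ℕ} {z : ℕ}, z ∈ sh acc rs →
    z ∈ rs ∨ ∃ r ∈ acc, z = Nat.shiftRight r 9 := by
  intro acc
  induction acc with
  | nil => intro rs z hz; exact Or.inl hz
  | cons r acc ih =>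
    intro rs z hz
    rw [sh_cons] at hz
    rcases ih hz with h | ⟨r', h1, h2⟩
    · rcases List.mem_cons.1 h with h | h
      · exact Or.inr ⟨r, by simp, h⟩
      · exact Or.inl h
    · exact Or.inr ⟨r', by simp [h1], h2⟩

theorem mem_rdAll {M6 M3 : ℕ} : ∀ {rs : List ℕ} {z : ℕ}, z ∈ rdAll M6 M3 rs →
    ∃ r ∈ rs, z = rd M6 M3 r := by
  intro rs
  induction rs with
  | nil => intro z hz; exact absurd hz (by simp [rdAll])
  | cons r rs ih =>
    intro z hz
    have : rdAll M6 M3 (r :: rs) = rd M6 M3 r :: rdAll M6 M3 rs := rfl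
    rw [this, List.mem_cons] at hz
    rcases hz with hz | hz
    · exact ⟨r, by simp, hz⟩
    · obtain ⟨r', h1, h2⟩ := ih hz
      exact ⟨r', by simp [h1], h2⟩

theorem pv_cons (k : List ℕ → Bool) (M6 M3 r : ℕ) (rs acc : List ℕ) :
    pv k M6 M3 (r :: rs) acc = if r % 512 % 7 = 0 then pv k M6 M3 rs (r :: acc) else
      if ((r % 512 % 7) ^ 5 % 7 * (r % 512 % 7)) % 7 = 1 then
        k (sh acc (up (rd3 M3 (rd3 M3 ((6 * (r % 512 % 7) ^ 5 % 7) * rd M6 M3 r))) rs))
      else false := by
  obtain ⟨a, ha⟩ : ∃ a, a = r % 512 % 7 := ⟨_, rfl⟩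
  have h1 : pv k M6 M3 (r :: rs) acc = Bool.rec (motive := fun _ => Bool)
      (Bool.rec (motive := fun _ => Bool) false
        (k (sh acc (up (rd3 M3 (rd3 M3 ((6 * a ^ 5 % 7) * rd M6 M3 r))) rs)))
        (Nat.beq ((a ^ 5 % 7 * a) % 7) 1))
      (pv k M6 M3 rs (r :: acc)) (Nat.beq a 0) := by
    rw [ha]
    rfl
  rw [h1, ← ha]
  by_cases h2 : a = 0
  · rw [if_pos h2, show Nat.beq a 0 = true by rw [h2]; rfl]
  · have h3 : Nat.beq a 0 = false := by
      rw [Bool.eq_false_iff]
      intro h
      exact h2 (Nat.eq_of_beq_eq_true h)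
    rw [if_neg h2, h3]
    by_cases h4 : (a ^ 5 % 7 * a) % 7 = 1
    · rw [if_pos h4, show Nat.beq ((a ^ 5 % 7 * a) % 7) 1 = true by rw [h4]; rfl]
    · have h5 : Nat.beq ((a ^ 5 % 7 * a) % 7) 1 = false := by
        rw [Bool.eq_false_iff]
        intro h
        exact h4 (Nat.eq_of_beq_eq_true h)
      rw [if_neg h4, h5]

theorem pv_sound {N b : ℕ} {x : ZMod 7} {X : List (ZMod 7)} (hb : b + 54 ≤ 512)
    (hN : X.length + 1 ≤ N)
    {k : List ℕ → Bool}
    (hk : ∀ rs : List ℕ, (∀ r ∈ rs, Gd (b + 54) X r) → k rs = true → ∀ y ∈ X, y = 0) :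
    ∀ (rs acc : List ℕ), (∀ r ∈ rs, Gd b (x :: X) r) →
      (∀ r ∈ acc, Gd b (x :: X) r ∧ r % 512 % 7 = 0) →
      pv k (mask6 N) (mask N) rs acc = true → ∀ y ∈ x :: X, y = 0 := by
  intro rs
  induction rs with
  | nil =>
    intro acc _ _ h
    exact absurd h (by simp [pv])
  | cons p rs ih =>
    intro acc hrs hacc h
    rw [pv_cons] at h
    by_cases h1 : p % 512 % 7 = 0
    · rw [if_pos h1] at h
      refine ih (p :: acc) (fun r hr => hrs r (by simp [hr])) ?_ h
      intro r hr
      rcases List.mem_cons.1 hr with rfl | hr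
      · exact ⟨hrs _ (by simp), h1⟩
      · exact hacc r hr
    · rw [if_neg h1] at h
      by_cases h2 : ((p % 512 % 7) ^ 5 % 7 * (p % 512 % 7)) % 7 = 1
      · rw [if_pos h2] at h
        have hp := hrs p (by simp)
        obtain ⟨s, hs⟩ : ∃ s, s = 6 * (p % 512 % 7) ^ 5 % 7 := ⟨_, rfl⟩
        rw [← hs] at h
        have hs7 : s < 7 := by
          rw [hs]
          exact Nat.mod_lt _ (by norm_num)
        obtain ⟨q, hq⟩ : ∃ q, q = rd3 (mask N) (rd3 (mask N) (s * rd (mask6 N) (mask N) p)) :=
          ⟨_, rfl⟩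
        rw [← hq] at h
        have hN' : (x :: X).length ≤ N := by simpa using hN
        have q1 := gd_rd hN' (gd_mono hp (show b ≤ 512 by omega))
        have q2 := gd_mul q1 hs7
        have q3 := gd_rd3 (b' := 20) hN' q2 (by norm_num) (by norm_num)
        have q4 := gd_rd3 (b' := 10) hN' q3 (by norm_num) (by norm_num)
        rw [← hq] at q4
        -- the lowest entries
        obtain ⟨a, L, a1, a2, a3, a4, a5, a6⟩ := gd_head (by omega) hp
        have hq0 : ((q % 512 : ℕ) : ZMod 7) = -1 := by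
          have c1 : ((q % 512 : ℕ) : ZMod 7) = s * a := by
            have hla : ∀ c ∈ (a :: L), c < 512 := by
              intro c hc
              rcases List.mem_cons.1 hc with rfl | hc
              · omega
              · have := a3 c hc
                omega
            have hlen : (a :: L).length ≤ N := by simp [a2]; omega
            have d1 : rd (mask6 N) (mask N) p =
                pkL (((a :: L).map fun a => a - 63 * (a / 64)).map fun a => a - 7 * (a / 8)) := by
              rw [a4]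
              exact rd_eq hlen hla
            obtain ⟨L1, hL1⟩ : ∃ L1, L1 =
              (((a :: L).map fun a => a - 63 * (a / 64)).map fun a => a - 7 * (a / 8)) := ⟨_, rfl⟩
            rw [← hL1] at d1
            have d2 : ∀ c ∈ L1, c < 16 := by
              intro c hc
              rw [hL1] at hc
              obtain ⟨c', hc', rfl⟩ := List.mem_map.1 hc
              obtain ⟨c'', hc'', rfl⟩ := List.mem_map.1 hc'
              have := hla _ hc''
              omega
            have d3 : L1.length ≤ N := by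
              rw [hL1, List.length_map, List.length_map]
              exact hlen
            have d4 : s * rd (mask6 N) (mask N) p = pkL (L1.map (s * ·)) := by
              rw [d1, pk_mul]
            have d5 : ∀ c ∈ L1.map (s * ·), c < 512 := by
              intro c hc
              obtain ⟨c', hc', rfl⟩ := List.mem_map.1 hc
              have := d2 c' hc'
              have : s * c' ≤ 6 * 16 := Nat.mul_le_mul (by omega) (by omega)
              omega
            have d6 : rd3 (mask N) (s * rd (mask6 N) (mask N) p) =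
                pkL ((L1.map (s * ·)).map fun a => a - 7 * (a / 8)) := by
              rw [d4]
              exact rd3_eq (by rw [List.length_map]; exact d3) d5
            have d7 : q = pkL (((L1.map (s * ·)).map fun a => a - 7 * (a / 8)).map
                fun a => a - 7 * (a / 8)) := by
              rw [hq, d6]
              refine rd3_eq (by rw [List.length_map, List.length_map]; exact d3) ?_
              intro c hc
              obtain ⟨c', hc', rfl⟩ := List.mem_map.1 hc
              have := d5 c' hc'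
              omega
            rw [hL1] at d7
            simp only [List.map_cons, pkL] at d7
            obtain ⟨y, hy⟩ : ∃ y, y = s * (a - 63 * (a / 64) - 7 * ((a - 63 * (a / 64)) / 8)) :=
              ⟨_, rfl⟩
            rw [← hy] at d7
            have hy2 : y ≤ 6 * 16 := by
              rw [hy]
              exact Nat.mul_le_mul (by omega) (by omega)
            have d8 : q % 512 = y - 7 * (y / 8) - 7 * ((y - 7 * (y / 8)) / 8) := by
              rw [d7]
              omega
            rw [d8, cast7, cast7, hy, Nat.cast_mul, cast7, cast63]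
          have c2 : (s : ZMod 7) = 6 * ((p % 512 % 7 : ℕ) : ZMod 7) ^ 5 := by
            rw [hs, ZMod.natCast_mod]
            push_cast
            rfl
          have c3 : (a : ZMod 7) = ((p % 512 % 7 : ℕ) : ZMod 7) := by
            rw [ZMod.natCast_mod, a6]
          have c4 : (((p % 512 % 7) ^ 5 % 7 * (p % 512 % 7) : ℕ) : ZMod 7) = 1 := by
            rw [← ZMod.natCast_mod, h2, Nat.cast_one]
          rw [Nat.cast_mul, ZMod.natCast_mod, Nat.cast_pow] at c4
          rw [c1, c2, c3, mul_assoc, c4, mul_one]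
          decide
        have hq1 : (q % 512 + 1) % 7 = 0 := by
          apply Nat.mod_eq_zero_of_dvd
          rw [← ZMod.natCast_eq_zero_iff]
          push_cast
          rw [hq0]
          ring
        have hX := hk _ ?_ h
        · rw [dot_zero L X hX, add_zero] at a5
          have h3 : ((p % 512 % 7 : ℕ) : ZMod 7) ≠ 0 := by
            intro h0
            exact h1 (Nat.eq_zero_of_dvd_of_lt ((ZMod.natCast_eq_zero_iff _ _).1 h0)
              (Nat.mod_lt _ (by norm_num)))
          have c3 : (a : ZMod 7) = ((p % 512 % 7 : ℕ) : ZMod 7) := by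
            rw [ZMod.natCast_mod, a6]
          have : Fact (Nat.Prime 7) := ⟨by norm_num⟩
          have hx : x = 0 := by
            rcases mul_eq_zero.1 a5 with h4 | h4
            · rw [c3] at h4
              exact absurd h4 h3
            · exact h4
          intro y hy
          rcases List.mem_cons.1 hy with rfl | hy
          · exact hx
          · exact hX y hy
        · intro z hz
          rcases mem_sh hz with hz | ⟨r, hr, rfl⟩
          · obtain ⟨r, hr, rfl⟩ := mem_up hz
            exact gd_up hb (hrs r (by simp [hr])) q4 hq1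
          · obtain ⟨h5, h6⟩ := hacc r hr
            exact gd_mono (gd_sh (by omega) h5 h6) (by omega)
      · rw [if_neg h2] at h
        simp at h

theorem rn_sound {N : ℕ} : ∀ (X : List (ZMod 7)) (t : ℕ) (rs : List ℕ), t ≤ 7 → X.length ≤ N →
    (∀ r ∈ rs, Gd (16 + 54 * (8 - t)) X r) → rn (mask6 N) (mask N) X.length t rs = true →
    ∀ y ∈ X, y = 0 := by
  intro X
  induction X with
  | nil =>
    intro t rs _ _ _ _ y hy
    simp at hy
  | cons x X ih =>
    intro t rs ht hN hrs h
    rw [List.length_cons] at h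
    cases t with
    | zero =>
      have h' : pv (rn (mask6 N) (mask N) X.length 7) (mask6 N) (mask N)
        (rdAll (mask6 N) (mask N) rs) [] = true := h
      refine pv_sound (b := 16) (by norm_num) (by simpa using hN)
        (fun rs' h1 h2 => ih 7 rs' le_rfl (by simp at hN; omega) h1 h2) _ [] ?_ (by simp) h'
      intro z hz
      obtain ⟨r, hr, rfl⟩ := mem_rdAll hz
      exact gd_rd hN (gd_mono (hrs r hr) (by norm_num))
    | succ t =>
      have h' : pv (rn (mask6 N) (mask N) X.length t) (mask6 N) (mask N) rs [] = true := h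
      refine pv_sound (b := 16 + 54 * (8 - (t + 1))) (by omega) (by simpa using hN)
        (fun rs' h1 h2 => ih t rs' (by omega) (by simp at hN; omega)
          (fun r hr => gd_mono (h1 r hr) (by omega)) h2) _ [] hrs (by simp) h'

end Pool.Agent.N108.SG
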