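import Pool.Agent.N108.SG.Gen
import Pool.Agent.N108.SG.FastS

set_option autoImplicit false

/-!
# Soundness of the faster check
-/

namespace Pool.Agent.N108.SG

theorem pkK_eq (l : List ℕ) : pkK l = pkL l := by
  induction l with
  | nil => rfl
  | cons a l ih =>
    have : pkK (a :: l) = a + (pkK l) <<< 9 := rfl
    rw [this, ih, pkL, Nat.shiftLeft_eq]
    ring

theorem nextK_eq (x : ℕ) (l : List ℕ) : ∀ acc, nextK x l acc = nextU x acc l := by
  induction l with
  | nil => intro acc; rfl
  | cons u l ih =>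
    intro acc
    have : nextK x (u :: l) acc = acc :: nextK x l ((x * acc + u) % 7) := rfl
    rw [this, ih, nextU]

theorem powK_eq (x n : ℕ) : ∀ acc, powK x n acc = powU x acc n := by
  induction n with
  | zero => intro acc; rfl
  | succ n ih =>
    intro acc
    have : powK x (n + 1) acc = acc :: powK x n (x * acc % 7) := rfl
    rw [this, ih, powU]

theorem tabK_eq (x m : ℕ) : ∀ U, tabK x m U = tab x m U := by
  induction m with
  | zero => intro U; rfl
  | succ m ih =>
    intro U
    have : tabK x (m + 1) U = U :: tabK x m (nextK x U 0) := rfl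
    rw [this, ih, nextK_eq, tab]

theorem pk_lt : ∀ (L : List ℕ), (∀ a ∈ L, a < 512) → pkL L < 512 ^ L.length := by
  intro L
  induction L with
  | nil => intro _; simp [pkL]
  | cons a L ih =>
    intro h
    have h1 := ih fun b hb => h b (by simp [hb])
    have h2 := h a (by simp)
    rw [pkL, List.length_cons, pow_succ]
    omega

theorem pk_drop : ∀ (k : ℕ) (L : List ℕ), (∀ a ∈ L, a < 512) →
    pkL (L.drop k) = pkL L / 512 ^ k := by
  intro k
  induction k with
  | zero => intro L _; simp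
  | succ k ih =>
    intro L h
    cases L with
    | nil => simp [pkL]
    | cons a L =>
      have h2 := h a (by simp)
      rw [List.drop_succ_cons, ih L fun b hb => h b (by simp [hb]), pkL, pow_succ,
        mul_comm (512 ^ k), ← Nat.div_div_eq_div_mul]
      congr 1
      omega

theorem pk_take : ∀ (k : ℕ) (L : List ℕ), (∀ a ∈ L, a < 512) →
    pkL (L.take k) = pkL L % 512 ^ k := by
  intro k
  induction k with
  | zero => intro L _; simp [pkL, Nat.mod_one]
  | succ k ih =>
    intro L h
    cases L with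
    | nil => simp [pkL]
    | cons a L =>
      have h2 := h a (by simp)
      rw [List.take_succ_cons, pkL, ih L fun b hb => h b (by simp [hb]), pkL, pow_succ,
        mul_comm (512 ^ k), Nat.mod_mul]
      have e1 : (a + 512 * pkL L) % 512 = a := by omega
      have e2 : (a + 512 * pkL L) / 512 = pkL L := by omega
      rw [e1, e2]

theorem rowK_eq (V : List ℕ) (hV : ∀ a ∈ V, a < 512) : ∀ (U : List ℕ) (n lo hi : ℕ),
    rowK U (slK (pkK V) n lo hi) = rowPk U (slices V n lo hi) := by
  intro U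
  induction U with
  | nil => intro n lo hi; rfl
  | cons u U ih =>
    intro n lo hi
    cases n with
    | zero => rfl
    | succ n =>
      have h1 : rowK (u :: U) (slK (pkK V) (n + 1) lo hi) =
          u * ((pkK V) >>> (9 * lo) % 2 ^ (9 * (hi + 1 - lo))) +
            (rowK U (slK (pkK V) n (lo - 1) (hi - 1))) <<< (9 * (hi + 1 - lo)) := rfl
      rw [h1, ih, slices, rowPk, pkK_eq, Nat.shiftLeft_eq, Nat.shiftRight_eq_div_pow, pow_mul,
        pow_mul, mul_comm (rowPk _ _)]
      have e1 : (2 : ℕ) ^ 9 = 512 := by norm_num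
      rw [e1, List.drop_take, pk_take _ _ (fun b hb => hV b (List.mem_of_mem_drop hb)),
        pk_drop _ _ hV]

theorem mem_goK {f : ℕ → List ℕ} {V : List (List (ℕ × ℕ))} {r : ℕ} : ∀ (k i0 m : ℕ),
    r ∈ goK ((List.range' i0 k).map f) m V →
    ∃ (i l : ℕ) (v : List (ℕ × ℕ)), i0 ≤ i ∧ (i - i0) + l < m ∧ V[l]? = some v ∧
      r = rowK (f i) v := by
  intro k
  induction k with
  | zero =>
    intro i0 m h
    exact absurd h (by simp [goK])
  | succ k ih =>
    intro i0 m h
    rw [List.range'_succ, List.map_cons] at h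
    have h1 : goK (f i0 :: (List.range' (i0 + 1) k).map f) m V =
      (V.take m).map (rowK (f i0)) ++ goK ((List.range' (i0 + 1) k).map f) (m - 1) V := rfl
    rw [h1, List.mem_append] at h
    rcases h with h | h
    · obtain ⟨v, hv, rfl⟩ := List.mem_map.1 h
      obtain ⟨l, hl⟩ := List.mem_iff_getElem?.1 hv
      by_cases hlm : l < m
      · rw [List.getElem?_take, if_pos hlm] at hl
        exact ⟨i0, l, v, le_rfl, by omega, hl, rfl⟩
      · rw [List.getElem?_take, if_neg hlm] at hl
        simp at hl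
    · obtain ⟨i, l, v, h2, h3, h4, h5⟩ := ih (i0 + 1) (m - 1) h
      exact ⟨i, l, v, by omega, by omega, h4, h5⟩

theorem good_ptK {d m0 m x y : ℕ} {c : ℕ → ℕ → ZMod 7} (hm : m0 ≤ d) (h0 : Cond d 0 0 m0 c)
    (h : Cond d (x : ZMod 7) (y : ZMod 7) m c) :
    ∀ r ∈ ptK d m0 m x y, Gd 64 (blk m0 d c 0 (d + 1)) r := by
  intro r hr
  unfold ptK at hr
  have hx : powU x 1 (d + 1) = (List.range' 0 (d + 1)).map (en x 0) := by
    rw [← powU_eq]
    rfl
  have hy : powU y 1 (d + 1) = (List.range' 0 (d + 1)).map (en y 0) := by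
    rw [← powU_eq]
    rfl
  rw [tabK_eq, powK_eq, hx, tab_eq, tabK_eq, powK_eq, hy, tab_eq] at hr
  obtain ⟨i, l, v, h1, h2, h3, rfl⟩ := mem_goK m 0 m hr
  have hl : l < m := by omega
  have hv : v = slK (pkK ((List.range' 0 (d + 1)).map (en y l))) (d + 1) m0 d := by
    simpa [hl] using h3.symm
  rw [hv, rowK_eq]
  · exact good_row hm h0 h (by omega)
  · intro a ha
    obtain ⟨b, _, rfl⟩ := List.mem_map.1 ha
    have := en_lt y l b
    omega

theorem good_allK {d m0 : ℕ} {c : ℕ → ℕ → ZMod 7} (hm : m0 ≤ d) (h0 : Cond d 0 0 m0 c) :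
    ∀ (ms : List ℕ) (qs : List (ℕ × ℕ)),
    (∀ mq ∈ ms.zip qs, Cond d (mq.2.1 : ZMod 7) (mq.2.2 : ZMod 7) mq.1 c) →
    ∀ r ∈ allK d m0 ms qs, Gd 64 (blk m0 d c 0 (d + 1)) r := by
  intro ms
  induction ms with
  | nil =>
    intro qs _ r hr
    simp [allK] at hr
  | cons m ms ih =>
    intro qs h r hr
    cases qs with
    | nil => simp [allK] at hr
    | cons q qs =>
      rw [allK, List.mem_append] at hr
      rcases hr with hr | hr
      · exact good_ptK hm h0 (h (m, q) (by simp)) r hr
      · exact ih qs (fun mq hmq => h mq (by simp [hmq])) r hr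

/-- Soundness of the check. -/
theorem cK_sound {d m0 : ℕ} (hm : m0 ≤ d) {ms : List ℕ} {qs : List (ℕ × ℕ)}
    (h : cK d m0 ms qs = true) {c : ℕ → ℕ → ZMod 7} (h0 : Cond d 0 0 m0 c)
    (hc : ∀ mq ∈ ms.zip qs, Cond d (mq.2.1 : ZMod 7) (mq.2.2 : ZMod 7) mq.1 c) :
    ∀ a b, a + b ≤ d → c a b = 0 := by
  unfold cK at h
  simp only at h
  rw [mask_eq, mask6_eq, ← blk_length m0 d hm c] at h
  have h1 := rn_sound (blk m0 d c 0 (d + 1)) 0 _ (by norm_num) le_rfl
    (fun r hr => gd_mono (good_allK hm h0 ms qs hc r hr) (by norm_num)) h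
  intro a b hab
  rcases Nat.lt_or_ge (a + b) m0 with h2 | h2
  · exact cond_zero h0 h2 hab
  · exact h1 _ (blk_mem m0 d c (d + 1) 0 a b (by omega) (by omega) h2 hab)

end Pool.Agent.N108.SG
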