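import Pool.Agent.N108.SG.VanC
import Pool.Agent.N108.SG.GenS
import Pool.Agent.N108.SG.Enum
import Pool.Agent.N108.SG.LvB

set_option autoImplicit false

/-!
# Emptiness of all standard classes of a given level
-/

namespace Pool.Agent.N108.SG

open MvPolynomial Pool.Agent.W609 Pool.Agent.W609.CR Pool.Agent.TH167 Pool.Agent.TH167.SH
open Pool.Agent.N108.SG.Lv

/-- All systems with at least the multiplicities in `t` are empty. -/
def Emp (d : ℕ) (t : List ℕ) : Prop := ∀ (n : ℕ) (P : Fin n → Fin 2 → ℂ),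
  AlgebraicIndependent ℚ (fun ij : Fin n × Fin 2 => P ij.1 ij.2) → ∀ (w : Fin n → ℕ)
  (ι : Fin t.length → Fin n), Function.Injective ι → (∀ j, t[j] ≤ w (ι j)) →
    SHDefs.sys P d w = ⊥

theorem emp_of_cK {d m0 : ℕ} {ms : List ℕ} {qs : List (ℕ × ℕ)} (hm : m0 ≤ d)
    (h : cK d m0 ms qs = true) : Emp d (m0 :: ms) := by
  intro n P hP w ι hι hw
  rw [sys_eq, eq_bot_iff]
  intro f hf
  rw [mem_VS] at hf
  rw [Submodule.mem_bot]
  refine van_zero_of hf.1 ?_
  have hP' : AlgebraicIndependent ℚ
      (fun ij : Fin (m0 :: ms).length × Fin 2 => P (ι ij.1) ij.2) :=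
    hP.comp (fun ij : Fin (m0 :: ms).length × Fin 2 => (ι ij.1, ij.2)) (by
      intro a b hab
      simp only [Prod.mk.injEq] at hab
      exact Prod.ext (hι hab.1) hab.2)
  refine cond_lift (s := (m0 :: ms).length) (w := fun j => (m0 :: ms)[j])
    (fun j => (((((0, 0) :: qs : List (ℕ × ℕ)).getD j (0, 0)).1 : ℕ) : ℤ))
    (fun j => (((((0, 0) :: qs : List (ℕ × ℕ)).getD j (0, 0)).2 : ℕ) : ℤ)) ?_
    (P := fun j => P (ι j)) hP' (fun j => van_cond hf.1 (van_mono (hw j) (hf.2 (ι j))))
  intro c hc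
  refine cK_sound hm h ?_ ?_
  · have := hc ⟨0, by simp⟩
    simpa using this
  · intro mq hmq
    obtain ⟨j, hj, hj2⟩ := List.mem_iff_getElem.1 hmq
    rw [List.length_zip] at hj
    rw [List.getElem_zip] at hj2
    have h1 : j < ms.length := by omega
    have h2 : j < qs.length := by omega
    have := hc ⟨j + 1, by simpa using h1⟩
    rw [← hj2]
    simpa [h2] using this

/-- The comparison of a class with a class plus a cubic through the first nine points. -/
def leF : ℕ → List ℕ → List ℕ → Bool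
  | _, [], _ => true
  | 0, a :: t, b :: u => Nat.ble a b && leF 0 t u
  | k + 1, a :: t, b :: u => Nat.ble a (b + 1) && leF k t u
  | _, _ :: _, [] => false

theorem leF_sound : ∀ (t u : List ℕ) (k : ℕ), leF k t u = true →
    ∃ h : t.length ≤ u.length, ∀ j (hj : j < t.length), t[j] ≤ u[j] + (if j < k then 1 else 0) := by
  intro t
  induction t with
  | nil =>
    intro u k _
    exact ⟨Nat.zero_le _, fun j hj => absurd hj (by simp)⟩
  | cons a t ih =>
    intro u k h
    cases u with
    | nil => simp [leF] at h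
    | cons b u =>
      cases k with
      | zero =>
        rw [leF, Bool.and_eq_true] at h
        obtain ⟨h1, h2⟩ := ih u 0 h.2
        refine ⟨by simpa using h1, fun j hj => ?_⟩
        cases j with
        | zero => simpa using Nat.le_of_ble_eq_true h.1
        | succ j =>
          have := h2 j (by simpa using hj)
          simpa using this
      | succ k =>
        rw [leF, Bool.and_eq_true] at h
        obtain ⟨h1, h2⟩ := ih u k h.2
        refine ⟨by simpa using h1, fun j hj => ?_⟩
        cases j with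
        | zero => simpa using Nat.le_of_ble_eq_true h.1
        | succ j =>
          have := h2 j (by simpa using hj)
          simpa using this

/-- Addition of a cubic. -/
theorem emp_add {d : ℕ} {t u : List ℕ} (h : Emp (d + 3) t) (h9 : 9 ≤ u.length)
    (hle : leF 9 t u = true) : Emp d u := by
  classical
  obtain ⟨hl, hle'⟩ := leF_sound t u 9 hle
  intro n P hP w ι hι hw
  obtain ⟨T, hT⟩ : ∃ T : Finset (Fin n), T = Finset.univ.image fun j : Fin 9 => ι ⟨j, by omega⟩ :=
    ⟨_, rfl⟩
  have hTc : T.card = 9 := by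
    rw [hT, Finset.card_image_of_injective, Finset.card_univ, Fintype.card_fin]
    intro i j hij
    have := hι hij
    simp only [Fin.mk.injEq] at this
    exact Fin.ext this
  obtain ⟨v, hv⟩ : ∃ v : Fin n → ℕ, v = fun i => if i ∈ T then 1 else 0 := ⟨_, rfl⟩
  have hχ : chi 3 v = 1 := by
    unfold chi
    have : ∑ j, ((v j + 1).choose 2 : ℤ) = 9 := by
      have h1 : ∀ j, ((v j + 1).choose 2 : ℤ) = if j ∈ T then 1 else 0 := by
        intro j
        rw [hv]
        simp only
        split_ifs <;> norm_num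
      rw [Finset.sum_congr rfl fun j _ => h1 j, Finset.sum_ite_mem, Finset.univ_inter,
        Finset.sum_const, hTc]
      norm_num
    rw [this]
    norm_num [Nat.choose]
  have hdim := chi_le_dim P 3 v
  rw [hχ] at hdim
  obtain ⟨g, hg, hg0⟩ : ∃ g ∈ VS (fun j => aff (P j)) v 3, g ≠ 0 := by
    by_contra hcon
    push Not at hcon
    have : VS (fun j => aff (P j)) v 3 = ⊥ := (Submodule.eq_bot_iff _).2 hcon
    rw [this, finrank_bot] at hdim
    norm_num at hdim
  rw [sys_eq, eq_bot_iff]
  intro f hf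
  rw [mem_VS] at hf hg
  rw [Submodule.mem_bot]
  have h1 := h n P hP (fun i => w i + v i) (fun j => ι ⟨j, by omega⟩) (by
    intro i j hij
    have := hι hij
    simp only [Fin.mk.injEq] at this
    exact Fin.ext this) (by
    intro j
    have h2 := hle' j j.2
    have h3 := hw ⟨j, by omega⟩
    refine h2.trans ?_
    refine Nat.add_le_add h3 ?_
    split_ifs with hj9
    · rw [hv]
      simp only
      rw [if_pos]
      rw [hT, Finset.mem_image]
      exact ⟨⟨j, hj9⟩, Finset.mem_univ _, rfl⟩
    · exact Nat.zero_le _)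
  have h4 : f * g ∈ VS (fun j => aff (P j)) (fun i => w i + v i) (d + 3) := by
    rw [mem_VS]
    exact ⟨hf.1.mul hg.1, fun i => van_mul (hf.2 i) (hg.2 i)⟩
  rw [← sys_eq, h1, Submodule.mem_bot] at h4
  exact (mul_eq_zero.1 h4).resolve_right hg0

/-- The sorted multiplicities. -/
theorem exists_sorted {n : ℕ} (u : Fin n → ℕ) : ∃ (σ : Equiv.Perm (Fin n)) (v : ℕ → ℕ),
    Antitone v ∧ (∀ k (h : k < n), v k = u (σ ⟨k, h⟩)) ∧ ∀ k, n ≤ k → v k = 0 := by
  obtain ⟨σ, hσ⟩ : ∃ σ : Equiv.Perm (Fin n), Antitone (u ∘ σ) := by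
    refine ⟨Tuple.sort fun i => OrderDual.toDual (u i), ?_⟩
    intro i j hij
    have := Tuple.monotone_sort (fun i => OrderDual.toDual (u i)) hij
    exact this
  refine ⟨σ, fun k => if h : k < n then u (σ ⟨k, h⟩) else 0, ?_, ?_, ?_⟩
  · intro i j hij
    simp only
    by_cases hj : j < n
    · rw [dif_pos hj, dif_pos (by omega)]
      exact hσ (show (⟨i, by omega⟩ : Fin n) ≤ ⟨j, hj⟩ from hij)
    · rw [dif_neg hj]
      exact Nat.zero_le _
  · intro k h
    simp only
    rw [dif_pos h]
  · intro k h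
    simp only
    rw [dif_neg (by omega)]

theorem sum_sorted {n : ℕ} {u : Fin n → ℕ} {σ : Equiv.Perm (Fin n)} {v : ℕ → ℕ}
    (h1 : ∀ k (h : k < n), v k = u (σ ⟨k, h⟩)) (f : ℕ → ℕ) :
    ∑ k ∈ Finset.range n, f (v k) = ∑ i, f (u i) := by
  rw [Finset.sum_range, ← Equiv.sum_comp σ fun i => f (u i)]
  exact Finset.sum_congr rfl fun i _ => by rw [h1 i i.2]

theorem zero_sorted {n : ℕ} {u : Fin n → ℕ} {σ : Equiv.Perm (Fin n)} {v : ℕ → ℕ}
    (hv : Antitone v) (h1 : ∀ k (h : k < n), v k = u (σ ⟨k, h⟩)) (h2 : ∀ k, n ≤ k → v k = 0)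
    {m : ℕ} (hm : (Finset.univ.filter fun j => u j ≠ 0).card ≤ m) : ∀ k, m ≤ k → v k = 0 := by
  intro k hk
  by_contra h
  have hkn : k < n := by
    by_contra hcon
    exact h (h2 k (by omega))
  have hsub : (Finset.univ.map ⟨fun i : Fin (k + 1) => σ ⟨i, by omega⟩, by
      intro i j hij
      have := σ.injective hij
      simp only [Fin.mk.injEq] at this
      exact Fin.ext this⟩) ⊆ Finset.univ.filter fun j => u j ≠ 0 := by
    intro x hx
    rw [Finset.mem_map] at hx
    obtain ⟨i, _, rfl⟩ := hx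
    rw [Finset.mem_filter]
    refine ⟨Finset.mem_univ _, ?_⟩
    show u (σ ⟨i, _⟩) ≠ 0
    rw [← h1 i (by omega)]
    have := hv (show (i : ℕ) ≤ k by omega)
    omega
  have := Finset.card_le_card hsub
  rw [Finset.card_map, Finset.card_univ, Fintype.card_fin] at this
  omega

theorem sum_cut {n m : ℕ} {g : ℕ → ℕ} (h1 : ∀ k, n ≤ k → g k = 0) (h2 : ∀ k, m ≤ k → g k = 0) :
    ∑ k ∈ Finset.range n, g k = ∑ k ∈ Finset.range m, g k := by
  rcases le_total n m with h | h
  · exact Finset.sum_subset (Finset.range_subset_range.2 h) fun k _ hk =>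
      h1 k (by simpa using hk)
  · exact (Finset.sum_subset (Finset.range_subset_range.2 h) fun k _ hk =>
      h2 k (by simpa using hk)).symm

/-- The certificate for the multiples of `-K`. -/
def fam (d : ℕ) : List (List ℕ) :=
  bif Nat.ble 1 d && Nat.beq (d % 3) 0 then [List.replicate 9 (d / 3)] else []

theorem mem_fam {d : ℕ} {t : List ℕ} (h : t ∈ fam d) :
    ∃ m, 1 ≤ m ∧ d = 3 * m ∧ t = List.replicate 9 m := by
  unfold fam at h
  cases hb : (Nat.ble 1 d && Nat.beq (d % 3) 0) with
  | false =>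
    rw [hb] at h
    simp at h
  | true =>
    rw [hb, cond_true, List.mem_singleton] at h
    rw [Bool.and_eq_true] at hb
    have h1 := Nat.le_of_ble_eq_true hb.1
    have h2 := Nat.eq_of_beq_eq_true hb.2
    exact ⟨d / 3, by omega, by omega, h⟩

theorem emptyLevel_of {c : ℕ} (hc : 2 ≤ c) (certs : ℕ → List (List ℕ))
    (H1 : ∀ d, 2 * d ≤ 3 * c ^ 2 + 25 * c → top c d (3 * c + 5) (fam d ++ certs d) = true)
    (H2 : ∀ d, 2 * d ≤ 3 * c ^ 2 + 25 * c → ∀ t ∈ certs d, (∀ a ∈ t, 0 < a) ∧ Emp d t) :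
    EmptyLevel c := by
  intro n hn d u hred hk hχ P hP
  obtain ⟨r, rfl⟩ : ∃ r, n = r + 4 := ⟨n - 4, by omega⟩
  have hkn : kk d u < 0 := by
    rw [hk]
    omega
  suffices h : SHDefs.sys P d u = ⊥ by
    rw [h, finrank_bot, Nat.cast_zero]
  rcases level_finite hred (c := c) (by omega) hk hχ with ⟨-, hd, hcard⟩ | ⟨T, m, hT, hm, hu⟩
  swap
  · exact family_empty hP hT hm hu hkn
  obtain ⟨σ, v, hv, hv1, hv2⟩ := exists_sorted u
  have hz := zero_sorted (m := 3 * c + 7) hv hv1 hv2 (by exact_mod_cast hcard)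
  have hS : ∑ k ∈ Finset.range (3 * c + 7), v k = 3 * d + c := by
    rw [← sum_cut hv2 hz, sum_sorted hv1 fun x => x]
    unfold kk at hk
    have : ((∑ i, u i : ℕ) : ℤ) = ((3 * d + c : ℕ) : ℤ) := by
      push_cast
      linarith
    exact_mod_cast this
  have hQ : d * d + 2 - c ≤ ∑ k ∈ Finset.range (3 * c + 7), v k * v k := by
    rw [← sum_cut (n := r + 4) (fun k hk => by rw [hv2 k hk]) (fun k hk => by rw [hz k hk]),
      sum_sorted hv1 fun x => x * x]
    have h1 := two_chi d u
    unfold ip at h1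
    rw [hk] at h1
    have h2 : ((d * d + 2 : ℕ) : ℤ) ≤ ((∑ i, u i * u i + c : ℕ) : ℤ) := by
      push_cast
      linarith
    have h3 : d * d + 2 ≤ ∑ i, u i * u i + c := by exact_mod_cast h2
    omega
  have h0n : 0 < r + 4 := by omega
  have h1n : 1 < r + 4 := by omega
  have h2n : 2 < r + 4 := by omega
  have h3 : v 0 + v 1 + v 2 ≤ d := by
    rw [hv1 0 h0n, hv1 1 h1n, hv1 2 h2n]
    refine hred _ _ _ ?_ ?_ ?_
    · intro h
      simpa using σ.injective h
    · intro h
      simpa using σ.injective h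
    · intro h
      simpa using σ.injective h
  have hdN : 2 * d ≤ 3 * c ^ 2 + 25 * c := by exact_mod_cast hd
  obtain ⟨t, ht, hDm⟩ := top_sound (H1 d hdN) hv h3 hS hQ
  rcases List.mem_append.1 ht with ht | ht
  · obtain ⟨m, hm1, hm, rfl⟩ := mem_fam ht
    have hge : ∀ j, j < 9 → m ≤ v j := by
      intro j hj
      have := hDm j (by rw [List.length_replicate]; exact hj)
      rwa [List.getElem_replicate] at this
    have e0 := hge 0 (by omega)
    have e1 := hge 1 (by omega)
    have e2 := hge 2 (by omega)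
    have a1 := hv (show 0 ≤ 1 by omega)
    have a2 := hv (show 1 ≤ 2 by omega)
    have heq : ∀ j, j < 9 → v j = m := by
      intro j hj
      have := hge j hj
      have := hv (Nat.zero_le j)
      omega
    have h8 : 8 < r + 4 := by
      by_contra hcon
      have := hv2 8 (by omega)
      have := heq 8 (by omega)
      omega
    refine family_empty hP (T := Finset.univ.map ⟨fun i : Fin 9 => σ ⟨i, by omega⟩, by
      intro i j hij
      have := σ.injective hij
      simp only [Fin.mk.injEq] at this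
      exact Fin.ext this⟩) (by simp) hm ?_ hkn
    intro i hi
    rw [Finset.mem_map] at hi
    obtain ⟨j, _, rfl⟩ := hi
    show u (σ ⟨j, _⟩) = m
    rw [← hv1 j (by omega)]
    exact heq j j.2
  · obtain ⟨hpos, hE⟩ := H2 d hdN t ht
    have hlt : ∀ j (h : j < t.length), j < r + 4 := by
      intro j h
      by_contra hcon
      have h4 := hDm j h
      rw [hv2 j (by omega)] at h4
      have := hpos t[j] (List.getElem_mem h)
      omega
    refine hE (r + 4) P hP u (fun j => σ ⟨j, hlt j j.2⟩) ?_ ?_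
    · intro i j hij
      have := σ.injective hij
      simp only [Fin.mk.injEq] at this
      exact Fin.ext this
    · intro j
      show t[j] ≤ u (σ ⟨j, _⟩)
      rw [← hv1 j (hlt j j.2)]
      exact hDm j j.2

/-- The certificates of degree `d`. -/
def sel (d : ℕ) : List (ℕ × List ℕ) → List (List ℕ)
  | [] => []
  | x :: l => bif Nat.beq x.1 d then x.2 :: sel d l else sel d l

theorem mem_sel {d : ℕ} {t : List ℕ} : ∀ {l : List (ℕ × List ℕ)}, t ∈ sel d l → (d, t) ∈ l := by
  intro l
  induction l with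
  | nil => intro h; simp [sel] at h
  | cons x l ih =>
    intro h
    rw [sel] at h
    cases hb : Nat.beq x.1 d with
    | true =>
      rw [hb, cond_true, List.mem_cons] at h
      rcases h with h | h
      · have := Nat.eq_of_beq_eq_true hb
        rw [h, ← this]
        exact List.mem_cons_self
      · exact List.mem_cons_of_mem _ (ih h)
    | false =>
      rw [hb, cond_false] at h
      exact List.mem_cons_of_mem _ (ih h)

/-- The enumeration for all degrees up to `n`. -/
def allTop (c : ℕ) (l : List (ℕ × List ℕ)) : ℕ → Bool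
  | 0 => top c 0 (3 * c + 5) (fam 0 ++ sel 0 l)
  | n + 1 => top c (n + 1) (3 * c + 5) (fam (n + 1) ++ sel (n + 1) l) && allTop c l n

theorem allTop_sound {c : ℕ} {l : List (ℕ × List ℕ)} : ∀ {n : ℕ}, allTop c l n = true →
    ∀ d, d ≤ n → top c d (3 * c + 5) (fam d ++ sel d l) = true := by
  intro n
  induction n with
  | zero =>
    intro h d hd
    have : d = 0 := by omega
    subst this
    exact h
  | succ n ih =>
    intro h d hd
    rw [allTop, Bool.and_eq_true] at h
    rcases Nat.eq_or_lt_of_le hd with rfl | hd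
    · exact h.1
    · exact ih h.2 d (by omega)

/-- A valid certificate. -/
def Vd (x : ℕ × List ℕ) : Prop := (∀ a ∈ x.2, 0 < a) ∧ Emp x.1 x.2

theorem fa_nil : ∀ x ∈ ([] : List (ℕ × List ℕ)), Vd x := fun x hx => by simp at hx

theorem fa_cons {a : ℕ × List ℕ} {l : List (ℕ × List ℕ)} (h : Vd a) (t : ∀ x ∈ l, Vd x) :
    ∀ x ∈ a :: l, Vd x := by
  intro x hx
  rcases List.mem_cons.1 hx with rfl | hx
  · exact h
  · exact t x hx

theorem emptyLevel_of_list {c n : ℕ} (hc : 2 ≤ c) (l : List (ℕ × List ℕ)) (hl : ∀ x ∈ l, Vd x)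
    (hn : 3 * c ^ 2 + 25 * c ≤ 2 * n + 1) (h : allTop c l n = true) : EmptyLevel c :=
  emptyLevel_of hc (fun d => sel d l) (fun d hd => allTop_sound h d (by omega))
    (fun d _ t ht => hl _ (mem_sel ht))

end Pool.Agent.N108.SG
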