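import Pool.Agent.N108.SG.Chk

set_option autoImplicit false
set_option linter.unusedVariables false

/-!
# A faster elimination
-/

namespace Pool.Agent.N108.SG

/-- Partial reduction modulo seven of the slots below `512` to slots below `16`. -/
def rd (M6 M3 r : ℕ) : ℕ :=
  (fun q => Nat.sub q (Nat.mul 7 (Nat.land (Nat.shiftRight q 3) M3)))
    (Nat.sub r (Nat.mul 63 (Nat.land (Nat.shiftRight r 6) M6)))

/-- The second step only. -/
def rd3 (M3 q : ℕ) : ℕ := Nat.sub q (Nat.mul 7 (Nat.land (Nat.shiftRight q 3) M3))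

/-- Elimination with the row `p`, whose lowest slot is `-1` modulo seven. -/
noncomputable def up (p : ℕ) (l : List ℕ) : List ℕ :=
  List.rec [] (fun r _ ih =>
    Nat.shiftRight (Nat.add r (Nat.mul (Nat.mod (Nat.mod r 512) 7) p)) 9 :: ih) l

/-- Dropping of the lowest slot. -/
noncomputable def sh (l : List ℕ) : List ℕ → List ℕ :=
  List.rec (fun rs => rs) (fun r _ ih rs => ih (Nat.shiftRight r 9 :: rs)) l

/-- Reduction of all rows. -/
noncomputable def rdAll (M6 M3 : ℕ) (l : List ℕ) : List ℕ :=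
  List.rec [] (fun r _ ih => rd M6 M3 r :: ih) l

/-- Search of a pivot. -/
noncomputable def pv (k : List ℕ → Bool) (M6 M3 : ℕ) (l : List ℕ) : List ℕ → Bool :=
  List.rec (fun _ => false) (fun r rs ih acc =>
    (fun a => Bool.rec
      (Bool.rec false
        ((fun p => k (sh acc (up p rs)))
          (rd3 M3 (rd3 M3 (Nat.mul (Nat.mod (Nat.mul 6 (Nat.pow a 5)) 7) (rd M6 M3 r)))))
        (Nat.beq (Nat.mod (Nat.mul (Nat.mod (Nat.pow a 5) 7) a) 7) 1))
      (ih (r :: acc)) (Nat.beq a 0))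
      (Nat.mod (Nat.mod r 512) 7)) l

/-- The rows have full rank `n`; reduction after `t` steps. -/
noncomputable def rn (M6 M3 : ℕ) (n : ℕ) : ℕ → List ℕ → Bool :=
  Nat.rec (fun _ _ => true) (fun _ ih t rs =>
    Nat.rec (pv (ih 7) M6 M3 (rdAll M6 M3 rs) []) (fun t _ => pv (ih t) M6 M3 rs []) t) n

/-- The check. -/
noncomputable def ck (d m0 : ℕ) (ms : List ℕ) (qs : List (ℕ × ℕ)) : Bool :=
  (fun N => rn (7 * ((512 ^ N - 1) / 511)) (63 * ((512 ^ N - 1) / 511)) N 0 (allRows d m0 ms qs))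
   ((d + 1) * (d + 2) / 2 - m0 * (m0 + 1) / 2)

end Pool.Agent.N108.SG
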