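import Pool.Agent.N108.SG.Fast

set_option autoImplicit false
set_option linter.unusedVariables false

/-!
# A faster generation of the rows
-/

namespace Pool.Agent.N108.SG

/-- Packing. -/
noncomputable def pkK (l : List ℕ) : ℕ :=
  List.rec 0 (fun a _ ih => Nat.add a (Nat.shiftLeft ih 9)) l

/-- The next list. -/
noncomputable def nextK (x : ℕ) (l : List ℕ) : ℕ → List ℕ :=
  List.rec (fun _ => []) (fun u _ ih acc => acc :: ih (Nat.mod (Nat.add (Nat.mul x acc) u) 7)) l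

/-- Powers. -/
noncomputable def powK (x n : ℕ) : ℕ → List ℕ :=
  Nat.rec (fun _ => []) (fun _ ih acc => acc :: ih (Nat.mod (Nat.mul x acc) 7)) n

/-- The lists for `i = 0, …, m - 1`. -/
noncomputable def tabK (x m : ℕ) : List ℕ → List (List ℕ) :=
  Nat.rec (fun _ => []) (fun _ ih U => U :: ih (nextK x U 0)) m

/-- The slices. -/
noncomputable def slK (p n : ℕ) : ℕ → ℕ → List (ℕ × ℕ) :=
  Nat.rec (fun _ _ => []) (fun _ ih lo hi =>
    (Nat.mul 9 (Nat.sub (Nat.succ hi) lo),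
      Nat.mod (Nat.shiftRight p (Nat.mul 9 lo)) (Nat.pow 2 (Nat.mul 9 (Nat.sub (Nat.succ hi) lo)))) ::
      ih (Nat.pred lo) (Nat.pred hi)) n

/-- The packed row. -/
noncomputable def rowK (U : List ℕ) : List (ℕ × ℕ) → ℕ :=
  List.rec (fun _ => 0) (fun u _ ih V =>
    List.rec 0 (fun v vs _ => Nat.add (Nat.mul u v.2) (Nat.shiftLeft (ih vs) v.1)) V) U

/-- The rows for a point. -/
noncomputable def goK (U : List (List ℕ)) : ℕ → List (List (ℕ × ℕ)) → List ℕ :=
  List.rec (fun _ _ => []) (fun u _ ih m V => (V.take m).map (rowK u) ++ ih (Nat.pred m) V) U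

/-- The rows for a point. -/
noncomputable def ptK (d m0 m x y : ℕ) : List ℕ :=
  goK (tabK x m (powK x (d + 1) 1)) m
    ((tabK y m (powK y (d + 1) 1)).map fun V => slK (pkK V) (d + 1) m0 d)

/-- All rows. -/
noncomputable def allK (d m0 : ℕ) : List ℕ → List (ℕ × ℕ) → List ℕ
  | m :: ms, q :: qs => ptK d m0 m q.1 q.2 ++ allK d m0 ms qs
  | _, _ => []

/-- The check. -/
noncomputable def cK (d m0 : ℕ) (ms : List ℕ) (qs : List (ℕ × ℕ)) : Bool :=
  (fun N => rn (7 * ((512 ^ N - 1) / 511)) (63 * ((512 ^ N - 1) / 511)) N 0 (allK d m0 ms qs))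
   ((d + 1) * (d + 2) / 2 - m0 * (m0 + 1) / 2)

end Pool.Agent.N108.SG
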