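import Pool.Agent.N108.SG.L1S2

set_option autoImplicit false

/-!
# The last part of an elimination
-/

namespace Pool.Agent.N108.SG.L

theorem e0c : chE 1681 1169 (flat st2) = true := by decide +kernel

end Pool.Agent.N108.SG.L
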