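import Pool.Agent.N108.SG.L1a
import Pool.Agent.N108.SG.L1b
import Pool.Agent.N108.SG.L1c

set_option autoImplicit false

/-!
# Certificates of emptiness
-/

namespace Pool.Agent.N108.SG.L

theorem e0 : Emp 60 [20, 20, 20, 20, 20, 20, 20, 20, 19, 6] := emp_of_cK (m0 := 20) (ms := [20,
    20, 20, 20, 20, 20, 20, 19, 6]) (qs := [(3, 2), (4, 6), (2, 5), (5, 2), (3, 5), (0, 5), (2,
    6), (4, 1), (4, 4)]) (by norm_num)
    (cK_of_chunks (S := st1) (S' := st2) 1681 208 304 1169 (by norm_num) (by norm_num) e0a e0b e0c)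

end Pool.Agent.N108.SG.L
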