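import Pool.Agent.N108.SG.Dom

set_option autoImplicit false

/-!
# Certificates of emptiness
-/

namespace Pool.Agent.N108.SG.L

theorem e49 : Emp 30 [10, 10, 10, 10, 10, 10, 10, 9, 9, 6] := emp_of_cK (m0 := 10) (ms := [10, 10,
    10, 10, 10, 10, 9, 9, 6]) (qs := [(3, 2), (4, 6), (2, 5), (5, 2), (3, 5), (0, 5), (2, 6), (4,
    1), (4, 4)]) (by norm_num) (by decide +kernel)

theorem e60 : Emp 28 [10, 9, 9, 9, 9, 9, 9, 9, 9, 6] := emp_of_cK (m0 := 10) (ms := [9, 9, 9, 9,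
    9, 9, 9, 9, 6]) (qs := [(3, 2), (4, 6), (2, 5), (5, 2), (3, 5), (0, 5), (2, 6), (4, 1), (4,
    4)]) (by norm_num) (by decide +kernel)

theorem e58 : Emp 28 [10, 9, 9, 9, 9, 9, 9, 9, 8, 7, 1] := emp_of_cK (m0 := 10) (ms := [9, 9, 9,
    9, 9, 9, 9, 8, 7, 1]) (qs := [(2, 2), (2, 0), (0, 1), (1, 0), (5, 2), (3, 1), (5, 6), (1, 6),
    (1, 1), (5, 4)]) (by norm_num) (by decide +kernel)

theorem e69 : Emp 27 [9, 9, 9, 9, 9, 9, 9, 9, 8, 4] := emp_of_cK (m0 := 9) (ms := [9, 9, 9, 9, 9,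
    9, 9, 8, 4]) (qs := [(3, 2), (4, 6), (2, 5), (5, 2), (3, 5), (0, 5), (2, 6), (4, 1), (4, 4)])
    (by norm_num) (by decide +kernel)

theorem e63 : Emp 27 [9, 9, 9, 9, 9, 9, 9, 8, 7, 7] := emp_of_cK (m0 := 9) (ms := [9, 9, 9, 9, 9,
    9, 8, 7, 7]) (qs := [(3, 2), (4, 6), (2, 5), (5, 2), (3, 5), (0, 5), (2, 6), (4, 1), (4, 4)])
    (by norm_num) (by decide +kernel)

theorem e62 : Emp 27 [9, 9, 9, 9, 9, 9, 8, 8, 8, 7] := emp_of_cK (m0 := 9) (ms := [9, 9, 9, 9, 9,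
    8, 8, 8, 7]) (qs := [(3, 2), (4, 6), (2, 5), (5, 2), (3, 5), (0, 5), (2, 6), (4, 1), (4, 4)])
    (by norm_num) (by decide +kernel)

theorem e67 : Emp 27 [9, 9, 9, 9, 9, 9, 9, 9, 8, 3, 2, 1] := emp_of_cK (m0 := 9) (ms := [9, 9, 9,
    9, 9, 9, 9, 8, 3, 2, 1]) (qs := [(6, 3), (2, 4), (4, 4), (6, 5), (4, 3), (5, 5), (2, 0), (4,
    6), (2, 1), (3, 0), (1, 2)]) (by norm_num) (by decide +kernel)

theorem e65 : Emp 27 [9, 9, 9, 9, 9, 9, 9, 9, 7, 5, 2] := emp_of_cK (m0 := 9) (ms := [9, 9, 9, 9,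
    9, 9, 9, 7, 5, 2]) (qs := [(4, 6), (2, 5), (5, 2), (3, 5), (0, 5), (2, 6), (4, 1), (4, 4), (3,
    1), (1, 4)]) (by norm_num) (by decide +kernel)

theorem e61 : Emp 27 [9, 9, 9, 9, 9, 8, 8, 8, 8, 8, 1] := emp_of_cK (m0 := 9) (ms := [9, 9, 9, 9,
    8, 8, 8, 8, 8, 1]) (qs := [(1, 2), (5, 2), (5, 4), (2, 4), (4, 5), (6, 3), (4, 0), (4, 2), (1,
    3), (3, 3)]) (by norm_num) (by decide +kernel)

theorem e70 : Emp 26 [9, 9, 8, 8, 8, 8, 8, 8, 8, 8] := emp_of_cK (m0 := 9) (ms := [9, 8, 8, 8, 8,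
    8, 8, 8, 8]) (qs := [(3, 2), (4, 6), (2, 5), (5, 2), (3, 5), (0, 5), (2, 6), (4, 1), (4, 4)])
    (by norm_num) (by decide +kernel)

end Pool.Agent.N108.SG.L
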