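import Pool.Agent.N108.SG.Dom

set_option autoImplicit false

/-!
# Certificates of emptiness
-/

namespace Pool.Agent.N108.SG.L

theorem e71 : Emp 26 [10, 8, 8, 8, 8, 8, 8, 8, 8, 8] := emp_of_cK (m0 := 10) (ms := [8, 8, 8, 8,
    8, 8, 8, 8, 8]) (qs := [(1, 4), (3, 4), (3, 1), (1, 2), (6, 4), (2, 0), (2, 6), (3, 3), (2,
    3)]) (by norm_num) (by decide +kernel)

theorem e72 : Emp 25 [8, 8, 8, 8, 8, 8, 8, 8, 8, 7] := emp_of_cK (m0 := 8) (ms := [8, 8, 8, 8, 8,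
    8, 8, 8, 7]) (qs := [(3, 2), (4, 6), (2, 5), (5, 2), (3, 5), (0, 5), (2, 6), (4, 1), (4, 4)])
    (by norm_num) (by decide +kernel)

theorem e73 : Emp 25 [9, 8, 8, 8, 8, 8, 8, 8, 7, 7] := emp_of_cK (m0 := 9) (ms := [8, 8, 8, 8, 8,
    8, 8, 7, 7]) (qs := [(3, 2), (4, 6), (2, 5), (5, 2), (3, 5), (0, 5), (2, 6), (4, 1), (4, 4)])
    (by norm_num) (by decide +kernel)

theorem e74 : Emp 25 [9, 8, 8, 8, 8, 8, 8, 8, 8, 5, 2] := emp_of_cK (m0 := 9) (ms := [8, 8, 8, 8,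
    8, 8, 8, 8, 5, 2]) (qs := [(4, 6), (2, 5), (5, 2), (3, 5), (0, 5), (2, 6), (4, 1), (4, 4), (3,
    1), (1, 4)]) (by norm_num) (by decide +kernel)

theorem e86 : Emp 24 [8, 8, 8, 8, 8, 8, 8, 8, 7, 3, 2] := emp_of_cK (m0 := 8) (ms := [8, 8, 8, 8,
    8, 8, 8, 7, 3, 2]) (qs := [(4, 6), (2, 5), (5, 2), (3, 5), (0, 5), (2, 6), (4, 1), (4, 4), (3,
    1), (1, 4)]) (by norm_num) (by decide +kernel)

theorem e82 : Emp 24 [8, 8, 8, 8, 8, 8, 8, 8, 6, 5, 1] := emp_of_cK (m0 := 8) (ms := [8, 8, 8, 8,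
    8, 8, 8, 6, 5, 1]) (qs := [(1, 2), (5, 2), (5, 4), (2, 4), (4, 5), (6, 3), (4, 0), (4, 2), (1,
    3), (3, 3)]) (by norm_num) (by decide +kernel)

theorem e85 : Emp 24 [8, 8, 8, 8, 8, 8, 8, 8, 7, 3, 1, 1, 1] := emp_of_cK (m0 := 8) (ms := [8, 8,
    8, 8, 8, 8, 8, 7, 3, 1, 1, 1]) (qs := [(3, 2), (6, 2), (5, 6), (2, 6), (6, 3), (4, 1), (4, 4),
    (6, 6), (2, 5), (1, 6), (2, 1), (0, 3)]) (by norm_num) (by decide +kernel)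

theorem e84 : Emp 24 [8, 8, 8, 8, 8, 8, 8, 8, 7, 2, 2, 2] := emp_of_cK (m0 := 8) (ms := [8, 8, 8,
    8, 8, 8, 8, 7, 2, 2, 2]) (qs := [(5, 4), (3, 4), (0, 6), (1, 2), (1, 0), (6, 0), (4, 6), (0,
    2), (1, 6), (4, 4), (4, 1)]) (by norm_num) (by decide +kernel)

theorem e81 : Emp 24 [8, 8, 8, 8, 8, 8, 8, 8, 6, 4, 3] := emp_of_cK (m0 := 8) (ms := [8, 8, 8, 8,
    8, 8, 8, 6, 4, 3]) (qs := [(2, 2), (2, 0), (0, 1), (1, 0), (5, 2), (3, 1), (5, 6), (1, 6), (1,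
    1), (5, 4)]) (by norm_num) (by decide +kernel)

theorem e79 : Emp 24 [8, 8, 8, 8, 8, 8, 8, 7, 7, 5, 2] := emp_of_cK (m0 := 8) (ms := [8, 8, 8, 8,
    8, 8, 7, 7, 5, 2]) (qs := [(4, 6), (2, 5), (5, 2), (3, 5), (0, 5), (2, 6), (4, 1), (4, 4), (3,
    1), (1, 4)]) (by norm_num) (by decide +kernel)

theorem e78 : Emp 24 [8, 8, 8, 8, 8, 8, 8, 7, 7, 5, 1, 1] := emp_of_cK (m0 := 8) (ms := [8, 8, 8,
    8, 8, 8, 7, 7, 5, 1, 1]) (qs := [(0, 4), (5, 3), (2, 3), (5, 0), (2, 6), (5, 2), (4, 5), (3,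
    6), (2, 2), (3, 0), (1, 4)]) (by norm_num) (by decide +kernel)

theorem e77 : Emp 24 [8, 8, 8, 8, 8, 8, 8, 7, 6, 6, 2] := emp_of_cK (m0 := 8) (ms := [8, 8, 8, 8,
    8, 8, 7, 6, 6, 2]) (qs := [(4, 6), (2, 5), (5, 2), (3, 5), (0, 5), (2, 6), (4, 1), (4, 4), (3,
    1), (1, 4)]) (by norm_num) (by decide +kernel)

theorem e88 : Emp 23 [9, 7, 7, 7, 7, 7, 7, 7, 7, 7, 2] := emp_of_cK (m0 := 9) (ms := [7, 7, 7, 7,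
    7, 7, 7, 7, 7, 2]) (qs := [(4, 6), (2, 5), (5, 2), (3, 5), (0, 5), (2, 6), (4, 1), (4, 4), (3,
    1), (1, 4)]) (by norm_num) (by decide +kernel)

theorem e89 : Emp 22 [7, 7, 7, 7, 7, 7, 7, 7, 7, 6, 2] := emp_of_cK (m0 := 7) (ms := [7, 7, 7, 7,
    7, 7, 7, 7, 6, 2]) (qs := [(4, 6), (2, 5), (5, 2), (3, 5), (0, 5), (2, 6), (4, 1), (4, 4), (3,
    1), (1, 4)]) (by norm_num) (by decide +kernel)

theorem e94 : Emp 22 [8, 7, 7, 7, 7, 7, 7, 7, 7, 5, 1] := emp_of_cK (m0 := 8) (ms := [7, 7, 7, 7,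
    7, 7, 7, 7, 5, 1]) (qs := [(4, 6), (2, 5), (5, 2), (3, 5), (0, 5), (2, 6), (4, 1), (4, 4), (3,
    1), (1, 4)]) (by norm_num) (by decide +kernel)

theorem e93 : Emp 22 [8, 7, 7, 7, 7, 7, 7, 7, 7, 4, 3] := emp_of_cK (m0 := 8) (ms := [7, 7, 7, 7,
    7, 7, 7, 7, 4, 3]) (qs := [(2, 2), (2, 0), (0, 1), (1, 0), (5, 2), (3, 1), (5, 6), (1, 6), (1,
    1), (5, 4)]) (by norm_num) (by decide +kernel)

theorem e92 : Emp 22 [8, 7, 7, 7, 7, 7, 7, 7, 6, 6, 2] := emp_of_cK (m0 := 8) (ms := [7, 7, 7, 7,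
    7, 7, 7, 6, 6, 2]) (qs := [(4, 6), (2, 5), (5, 2), (3, 5), (0, 5), (2, 6), (4, 1), (4, 4), (3,
    1), (1, 4)]) (by norm_num) (by decide +kernel)

end Pool.Agent.N108.SG.L
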