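import Pool.Agent.N108.SG.Dom

set_option autoImplicit false

/-!
# Certificates of emptiness
-/

namespace Pool.Agent.N108.SG.L

theorem e91 : Emp 22 [8, 7, 7, 7, 7, 7, 7, 7, 6, 6, 1, 1] := emp_of_cK (m0 := 8) (ms := [7, 7, 7,
    7, 7, 7, 7, 6, 6, 1, 1]) (qs := [(6, 3), (2, 4), (4, 4), (6, 5), (4, 3), (5, 5), (2, 0), (4,
    6), (2, 1), (3, 0), (1, 2)]) (by norm_num) (by decide +kernel)

theorem e103 : Emp 21 [7, 7, 7, 7, 7, 7, 7, 7, 5, 5] := emp_of_cK (m0 := 7) (ms := [7, 7, 7, 7, 7,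
    7, 7, 5, 5]) (qs := [(3, 2), (4, 6), (2, 5), (5, 2), (3, 5), (0, 5), (2, 6), (4, 1), (4, 4)])
    (by norm_num) (by decide +kernel)

theorem e99 : Emp 21 [7, 7, 7, 7, 7, 7, 7, 6, 6, 5] := emp_of_cK (m0 := 7) (ms := [7, 7, 7, 7, 7,
    7, 6, 6, 5]) (qs := [(3, 2), (4, 6), (2, 5), (5, 2), (3, 5), (0, 5), (2, 6), (4, 1), (4, 4)])
    (by norm_num) (by decide +kernel)

theorem e106 : Emp 21 [7, 7, 7, 7, 7, 7, 7, 7, 6, 3, 1, 1] := emp_of_cK (m0 := 7) (ms := [7, 7, 7,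
    7, 7, 7, 7, 6, 3, 1, 1]) (qs := [(4, 1), (0, 4), (3, 5), (6, 6), (5, 2), (4, 4), (2, 3), (4,
    5), (5, 4), (2, 5), (0, 5)]) (by norm_num) (by decide +kernel)

theorem e96 : Emp 21 [7, 7, 7, 7, 7, 7, 6, 6, 6, 6, 1] := emp_of_cK (m0 := 7) (ms := [7, 7, 7, 7,
    7, 6, 6, 6, 6, 1]) (qs := [(4, 6), (2, 5), (5, 2), (3, 5), (0, 5), (2, 6), (4, 1), (4, 4), (3,
    1), (1, 4)]) (by norm_num) (by decide +kernel)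

theorem e104 : Emp 21 [7, 7, 7, 7, 7, 7, 7, 7, 6, 2, 2, 1, 1] := emp_of_cK (m0 := 7) (ms := [7, 7,
    7, 7, 7, 7, 7, 6, 2, 2, 1, 1]) (qs := [(3, 2), (6, 2), (5, 6), (2, 6), (6, 3), (4, 1), (4, 4),
    (6, 6), (2, 5), (1, 6), (2, 1), (0, 3)]) (by norm_num) (by decide +kernel)

theorem e101 : Emp 21 [7, 7, 7, 7, 7, 7, 7, 7, 5, 4, 2, 1] := emp_of_cK (m0 := 7) (ms := [7, 7, 7,
    7, 7, 7, 7, 5, 4, 2, 1]) (qs := [(6, 3), (2, 4), (4, 4), (6, 5), (4, 3), (5, 5), (2, 0), (4,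
    6), (2, 1), (3, 0), (1, 2)]) (by norm_num) (by decide +kernel)

theorem e100 : Emp 21 [7, 7, 7, 7, 7, 7, 7, 7, 4, 4, 4] := emp_of_cK (m0 := 7) (ms := [7, 7, 7, 7,
    7, 7, 7, 4, 4, 4]) (qs := [(4, 6), (2, 5), (5, 2), (3, 5), (0, 5), (2, 6), (4, 1), (4, 4), (3,
    1), (1, 4)]) (by norm_num) (by decide +kernel)

theorem e98 : Emp 21 [7, 7, 7, 7, 7, 7, 7, 6, 6, 4, 3] := emp_of_cK (m0 := 7) (ms := [7, 7, 7, 7,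
    7, 7, 6, 6, 4, 3]) (qs := [(4, 6), (2, 5), (5, 2), (3, 5), (0, 5), (2, 6), (4, 1), (4, 4), (3,
    1), (1, 4)]) (by norm_num) (by decide +kernel)

theorem e97 : Emp 21 [7, 7, 7, 7, 7, 7, 7, 6, 5, 5, 3] := emp_of_cK (m0 := 7) (ms := [7, 7, 7, 7,
    7, 7, 6, 5, 5, 3]) (qs := [(2, 2), (2, 0), (0, 1), (1, 0), (5, 2), (3, 1), (5, 6), (1, 6), (1,
    1), (5, 4)]) (by norm_num) (by decide +kernel)

theorem e109 : Emp 20 [8, 6, 6, 6, 6, 6, 6, 6, 6, 6, 3] := emp_of_cK (m0 := 8) (ms := [6, 6, 6, 6,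
    6, 6, 6, 6, 6, 3]) (qs := [(4, 6), (2, 5), (5, 2), (3, 5), (0, 5), (2, 6), (4, 1), (4, 4), (3,
    1), (1, 4)]) (by norm_num) (by decide +kernel)

theorem e111 : Emp 19 [6, 6, 6, 6, 6, 6, 6, 6, 6, 6] := emp_of_cK (m0 := 6) (ms := [6, 6, 6, 6, 6,
    6, 6, 6, 6]) (qs := [(1, 4), (3, 4), (3, 1), (1, 2), (6, 4), (2, 0), (2, 6), (3, 3), (2, 3)])
    (by norm_num) (by decide +kernel)

theorem e110 : Emp 19 [6, 6, 6, 6, 6, 6, 6, 6, 6, 5, 3] := emp_of_cK (m0 := 6) (ms := [6, 6, 6, 6,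
    6, 6, 6, 6, 5, 3]) (qs := [(6, 3), (2, 4), (4, 4), (6, 5), (4, 3), (5, 5), (2, 0), (4, 6), (2,
    1), (3, 0)]) (by norm_num) (by decide +kernel)

theorem e116 : Emp 19 [7, 6, 6, 6, 6, 6, 6, 6, 6, 5] := emp_of_cK (m0 := 7) (ms := [6, 6, 6, 6, 6,
    6, 6, 6, 5]) (qs := [(3, 2), (4, 6), (2, 5), (5, 2), (3, 5), (0, 5), (2, 6), (4, 1), (4, 4)])
    (by norm_num) (by decide +kernel)

theorem e114 : Emp 19 [7, 6, 6, 6, 6, 6, 6, 6, 6, 4, 2, 1] := emp_of_cK (m0 := 7) (ms := [6, 6, 6,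
    6, 6, 6, 6, 6, 4, 2, 1]) (qs := [(0, 4), (5, 3), (2, 3), (5, 0), (2, 6), (5, 2), (4, 5), (3,
    6), (2, 2), (3, 0), (1, 4)]) (by norm_num) (by decide +kernel)

theorem e113 : Emp 19 [7, 6, 6, 6, 6, 6, 6, 6, 5, 5, 3] := emp_of_cK (m0 := 7) (ms := [6, 6, 6, 6,
    6, 6, 6, 5, 5, 3]) (qs := [(4, 6), (2, 5), (5, 2), (3, 5), (0, 5), (2, 6), (4, 1), (4, 4), (3,
    1), (1, 4)]) (by norm_num) (by decide +kernel)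

theorem e112 : Emp 19 [7, 6, 6, 6, 6, 6, 6, 6, 5, 4, 4] := emp_of_cK (m0 := 7) (ms := [6, 6, 6, 6,
    6, 6, 6, 5, 4, 4]) (qs := [(2, 2), (2, 0), (0, 1), (1, 0), (5, 2), (3, 1), (5, 6), (1, 6), (1,
    1), (5, 4)]) (by norm_num) (by decide +kernel)

theorem e132 : Emp 18 [6, 6, 6, 6, 6, 6, 6, 6, 5, 3, 1] := emp_of_cK (m0 := 6) (ms := [6, 6, 6, 6,
    6, 6, 6, 5, 3, 1]) (qs := [(4, 6), (2, 5), (5, 2), (3, 5), (0, 5), (2, 6), (4, 1), (4, 4), (3,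
    1), (1, 4)]) (by norm_num) (by decide +kernel)

theorem e131 : Emp 18 [6, 6, 6, 6, 6, 6, 6, 6, 5, 2, 2, 1] := emp_of_cK (m0 := 6) (ms := [6, 6, 6,
    6, 6, 6, 6, 5, 2, 2, 1]) (qs := [(6, 3), (2, 4), (4, 4), (6, 5), (4, 3), (5, 5), (2, 0), (4,
    6), (2, 1), (3, 0), (1, 2)]) (by norm_num) (by decide +kernel)

theorem e129 : Emp 18 [6, 6, 6, 6, 6, 6, 6, 6, 4, 4, 2] := emp_of_cK (m0 := 6) (ms := [6, 6, 6, 6,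
    6, 6, 6, 4, 4, 2]) (qs := [(4, 6), (2, 5), (5, 2), (3, 5), (0, 5), (2, 6), (4, 1), (4, 4), (3,
    1), (1, 4)]) (by norm_num) (by decide +kernel)

theorem e128 : Emp 18 [6, 6, 6, 6, 6, 6, 6, 6, 4, 4, 1, 1] := emp_of_cK (m0 := 6) (ms := [6, 6, 6,
    6, 6, 6, 6, 4, 4, 1, 1]) (qs := [(6, 3), (4, 1), (4, 4), (6, 6), (2, 5), (6, 2), (1, 6), (2,
    1), (0, 3), (2, 0), (1, 5)]) (by norm_num) (by decide +kernel)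

theorem e127 : Emp 18 [6, 6, 6, 6, 6, 6, 6, 6, 4, 3, 3] := emp_of_cK (m0 := 6) (ms := [6, 6, 6, 6,
    6, 6, 6, 4, 3, 3]) (qs := [(4, 6), (2, 5), (5, 2), (3, 5), (0, 5), (2, 6), (4, 1), (4, 4), (3,
    1), (1, 4)]) (by norm_num) (by decide +kernel)

theorem e124 : Emp 18 [6, 6, 6, 6, 6, 6, 6, 5, 5, 4, 2] := emp_of_cK (m0 := 6) (ms := [6, 6, 6, 6,
    6, 6, 5, 5, 4, 2]) (qs := [(4, 6), (2, 5), (5, 2), (3, 5), (0, 5), (2, 6), (4, 1), (4, 4), (3,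
    1), (1, 4)]) (by norm_num) (by decide +kernel)

theorem e130 : Emp 18 [6, 6, 6, 6, 6, 6, 6, 6, 5, 2, 1, 1, 1, 1] := emp_of_cK (m0 := 6) (ms := [6,
    6, 6, 6, 6, 6, 6, 5, 2, 1, 1, 1, 1]) (qs := [(5, 2), (4, 6), (0, 1), (3, 2), (4, 1), (0, 4),
    (3, 5), (6, 6), (4, 4), (2, 3), (4, 5), (5, 4), (2, 5)]) (by norm_num) (by decide +kernel)

theorem e126 : Emp 18 [6, 6, 6, 6, 6, 6, 6, 6, 4, 3, 2, 2] := emp_of_cK (m0 := 6) (ms := [6, 6, 6,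
    6, 6, 6, 6, 4, 3, 2, 2]) (qs := [(5, 4), (3, 4), (0, 6), (1, 2), (1, 0), (6, 0), (4, 6), (0,
    2), (1, 6), (4, 4), (4, 1)]) (by norm_num) (by decide +kernel)

theorem e123 : Emp 18 [6, 6, 6, 6, 6, 6, 6, 5, 5, 4, 1, 1, 1] := emp_of_cK (m0 := 6) (ms := [6, 6,
    6, 6, 6, 6, 5, 5, 4, 1, 1, 1]) (qs := [(3, 2), (6, 2), (5, 6), (2, 6), (6, 3), (4, 1), (4, 4),
    (6, 6), (2, 5), (1, 6), (2, 1), (0, 3)]) (by norm_num) (by decide +kernel)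

theorem e122 : Emp 18 [6, 6, 6, 6, 6, 6, 6, 5, 5, 3, 3, 1] := emp_of_cK (m0 := 6) (ms := [6, 6, 6,
    6, 6, 6, 5, 5, 3, 3, 1]) (qs := [(6, 3), (2, 4), (4, 4), (6, 5), (4, 3), (5, 5), (2, 0), (4,
    6), (2, 1), (3, 0), (1, 2)]) (by norm_num) (by decide +kernel)

theorem e121 : Emp 18 [6, 6, 6, 6, 6, 6, 6, 5, 4, 4, 4] := emp_of_cK (m0 := 6) (ms := [6, 6, 6, 6,
    6, 6, 5, 4, 4, 4]) (qs := [(4, 6), (2, 5), (5, 2), (3, 5), (0, 5), (2, 6), (4, 1), (4, 4), (3,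
    1), (1, 4)]) (by norm_num) (by decide +kernel)

theorem e120 : Emp 18 [6, 6, 6, 6, 6, 6, 5, 5, 5, 5, 3] := emp_of_cK (m0 := 6) (ms := [6, 6, 6, 6,
    6, 5, 5, 5, 5, 3]) (qs := [(4, 6), (2, 5), (5, 2), (3, 5), (0, 5), (2, 6), (4, 1), (4, 4), (3,
    1), (1, 4)]) (by norm_num) (by decide +kernel)

theorem e119 : Emp 18 [6, 6, 6, 6, 6, 6, 5, 5, 5, 5, 2, 1] := emp_of_cK (m0 := 6) (ms := [6, 6, 6,
    6, 6, 5, 5, 5, 5, 2, 1]) (qs := [(0, 4), (5, 3), (2, 3), (5, 0), (2, 6), (5, 2), (4, 5), (3,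
    6), (2, 2), (3, 0), (1, 4)]) (by norm_num) (by decide +kernel)

theorem e118 : Emp 18 [6, 6, 6, 6, 6, 6, 5, 5, 5, 4, 4] := emp_of_cK (m0 := 6) (ms := [6, 6, 6, 6,
    6, 5, 5, 5, 4, 4]) (qs := [(4, 6), (2, 5), (5, 2), (3, 5), (0, 5), (2, 6), (4, 1), (4, 4), (3,
    1), (1, 4)]) (by norm_num) (by decide +kernel)

theorem e117 : Emp 18 [6, 6, 6, 6, 6, 5, 5, 5, 5, 5, 4] := emp_of_cK (m0 := 6) (ms := [6, 6, 6, 6,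
    5, 5, 5, 5, 5, 4]) (qs := [(4, 6), (2, 5), (5, 2), (3, 5), (0, 5), (2, 6), (4, 1), (4, 4), (3,
    1), (1, 4)]) (by norm_num) (by decide +kernel)

theorem e135 : Emp 17 [6, 6, 5, 5, 5, 5, 5, 5, 5, 5, 4] := emp_of_cK (m0 := 6) (ms := [6, 5, 5, 5,
    5, 5, 5, 5, 5, 4]) (qs := [(0, 3), (4, 3), (3, 6), (0, 5), (4, 6), (5, 5), (2, 5), (6, 3), (4,
    1), (3, 2)]) (by norm_num) (by decide +kernel)

theorem e134 : Emp 17 [6, 5, 5, 5, 5, 5, 5, 5, 5, 5, 5] := emp_of_cK (m0 := 6) (ms := [5, 5, 5, 5,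
    5, 5, 5, 5, 5, 5]) (qs := [(2, 2), (2, 0), (0, 1), (1, 0), (5, 2), (3, 1), (5, 6), (1, 6), (1,
    1), (5, 4)]) (by norm_num) (by decide +kernel)

theorem e136 : Emp 17 [7, 5, 5, 5, 5, 5, 5, 5, 5, 5, 4] := emp_of_cK (m0 := 7) (ms := [5, 5, 5, 5,
    5, 5, 5, 5, 5, 4]) (qs := [(4, 6), (2, 5), (5, 2), (3, 5), (0, 5), (2, 6), (4, 1), (4, 4), (3,
    1), (1, 4)]) (by norm_num) (by decide +kernel)

theorem e139 : Emp 16 [5, 5, 5, 5, 5, 5, 5, 5, 5, 5, 2] := emp_of_cK (m0 := 5) (ms := [5, 5, 5, 5,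
    5, 5, 5, 5, 5, 2]) (qs := [(1, 2), (5, 2), (5, 4), (2, 4), (4, 5), (6, 3), (4, 0), (4, 2), (1,
    3), (3, 3)]) (by norm_num) (by decide +kernel)

theorem e138 : Emp 16 [5, 5, 5, 5, 5, 5, 5, 5, 5, 5, 1, 1, 1] := emp_of_cK (m0 := 5) (ms := [5, 5,
    5, 5, 5, 5, 5, 5, 5, 1, 1, 1]) (qs := [(2, 2), (5, 2), (4, 2), (1, 1), (3, 0), (2, 1), (3, 1),
    (5, 3), (2, 3), (4, 5), (0, 5), (3, 6)]) (by norm_num) (by decide +kernel)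

theorem e137 : Emp 16 [5, 5, 5, 5, 5, 5, 5, 5, 5, 4, 4] := emp_of_cK (m0 := 5) (ms := [5, 5, 5, 5,
    5, 5, 5, 5, 4, 4]) (qs := [(0, 3), (4, 3), (3, 6), (0, 5), (4, 6), (5, 5), (2, 5), (6, 3), (4,
    1), (3, 2)]) (by norm_num) (by decide +kernel)

theorem e145 : Emp 16 [6, 5, 5, 5, 5, 5, 5, 5, 5, 4, 2] := emp_of_cK (m0 := 6) (ms := [5, 5, 5, 5,
    5, 5, 5, 5, 4, 2]) (qs := [(4, 6), (2, 5), (5, 2), (3, 5), (0, 5), (2, 6), (4, 1), (4, 4), (3,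
    1), (1, 4)]) (by norm_num) (by decide +kernel)

theorem e144 : Emp 16 [6, 5, 5, 5, 5, 5, 5, 5, 5, 4, 1, 1] := emp_of_cK (m0 := 6) (ms := [5, 5, 5,
    5, 5, 5, 5, 5, 4, 1, 1]) (qs := [(6, 3), (2, 4), (4, 4), (6, 5), (4, 3), (5, 5), (2, 0), (4,
    6), (2, 1), (3, 0), (1, 2)]) (by norm_num) (by decide +kernel)

theorem e143 : Emp 16 [6, 5, 5, 5, 5, 5, 5, 5, 5, 3, 3] := emp_of_cK (m0 := 6) (ms := [5, 5, 5, 5,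
    5, 5, 5, 5, 3, 3]) (qs := [(2, 2), (2, 0), (0, 1), (1, 0), (5, 2), (3, 1), (5, 6), (1, 6), (1,
    1), (5, 4)]) (by norm_num) (by decide +kernel)

theorem e142 : Emp 16 [6, 5, 5, 5, 5, 5, 5, 5, 5, 3, 2, 2] := emp_of_cK (m0 := 6) (ms := [5, 5, 5,
    5, 5, 5, 5, 5, 3, 2, 2]) (qs := [(0, 4), (5, 3), (2, 3), (5, 0), (2, 6), (5, 2), (4, 5), (3,
    6), (2, 2), (3, 0), (1, 4)]) (by norm_num) (by decide +kernel)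

theorem e140 : Emp 16 [6, 5, 5, 5, 5, 5, 5, 5, 4, 4, 3, 1] := emp_of_cK (m0 := 6) (ms := [5, 5, 5,
    5, 5, 5, 5, 4, 4, 3, 1]) (qs := [(6, 3), (2, 4), (4, 4), (6, 5), (4, 3), (5, 5), (2, 0), (4,
    6), (2, 1), (3, 0), (1, 2)]) (by norm_num) (by decide +kernel)

end Pool.Agent.N108.SG.L
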