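import Pool.Agent.N108.SG.Dom

set_option autoImplicit false

/-!
# Certificates of emptiness
-/

namespace Pool.Agent.N108.SG.L

theorem e162 : Emp 15 [5, 5, 5, 5, 5, 5, 5, 5, 4, 3] := emp_of_cK (m0 := 5) (ms := [5, 5, 5, 5, 5,
    5, 5, 4, 3]) (qs := [(3, 2), (4, 6), (2, 5), (5, 2), (3, 5), (0, 5), (2, 6), (4, 1), (4, 4)])
    (by norm_num) (by decide +kernel)

theorem e161 : Emp 15 [5, 5, 5, 5, 5, 5, 5, 5, 4, 2, 2] := emp_of_cK (m0 := 5) (ms := [5, 5, 5, 5,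
    5, 5, 5, 4, 2, 2]) (qs := [(4, 6), (2, 5), (5, 2), (3, 5), (0, 5), (2, 6), (4, 1), (4, 4), (3,
    1), (1, 4)]) (by norm_num) (by decide +kernel)

theorem e154 : Emp 15 [5, 5, 5, 5, 5, 5, 5, 4, 4, 4, 1] := emp_of_cK (m0 := 5) (ms := [5, 5, 5, 5,
    5, 5, 4, 4, 4, 1]) (qs := [(4, 6), (2, 5), (5, 2), (3, 5), (0, 5), (2, 6), (4, 1), (4, 4), (3,
    1), (1, 4)]) (by norm_num) (by decide +kernel)

theorem e160 : Emp 15 [5, 5, 5, 5, 5, 5, 5, 5, 4, 2, 1, 1, 1] := emp_of_cK (m0 := 5) (ms := [5, 5,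
    5, 5, 5, 5, 5, 4, 2, 1, 1, 1]) (qs := [(3, 2), (6, 2), (5, 6), (2, 6), (6, 3), (4, 1), (4, 4),
    (6, 6), (2, 5), (1, 6), (2, 1), (0, 3)]) (by norm_num) (by decide +kernel)

theorem e157 : Emp 15 [5, 5, 5, 5, 5, 5, 5, 5, 3, 3, 2, 1] := emp_of_cK (m0 := 5) (ms := [5, 5, 5,
    5, 5, 5, 5, 3, 3, 2, 1]) (qs := [(6, 3), (2, 4), (4, 4), (6, 5), (4, 3), (5, 5), (2, 0), (4,
    6), (2, 1), (3, 0), (1, 2)]) (by norm_num) (by decide +kernel)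

theorem e153 : Emp 15 [5, 5, 5, 5, 5, 5, 5, 4, 4, 3, 3] := emp_of_cK (m0 := 5) (ms := [5, 5, 5, 5,
    5, 5, 4, 4, 3, 3]) (qs := [(4, 6), (2, 5), (5, 2), (3, 5), (0, 5), (2, 6), (4, 1), (4, 4), (3,
    1), (1, 4)]) (by norm_num) (by decide +kernel)

theorem e149 : Emp 15 [5, 5, 5, 5, 5, 5, 4, 4, 4, 4, 3] := emp_of_cK (m0 := 5) (ms := [5, 5, 5, 5,
    5, 4, 4, 4, 4, 3]) (qs := [(4, 6), (2, 5), (5, 2), (3, 5), (0, 5), (2, 6), (4, 1), (4, 4), (3,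
    1), (1, 4)]) (by norm_num) (by decide +kernel)

theorem e159 : Emp 15 [5, 5, 5, 5, 5, 5, 5, 5, 4, 1, 1, 1, 1, 1, 1] := emp_of_cK (m0 := 5) (ms :=
    [5, 5, 5, 5, 5, 5, 5, 4, 1, 1, 1, 1, 1, 1]) (qs := [(3, 3), (2, 6), (4, 1), (0, 1), (5, 0),
    (6, 3), (5, 6), (6, 0), (3, 2), (3, 6), (2, 4), (4, 4), (6, 5), (4, 3)]) (by norm_num) (by
    decide +kernel)

theorem e156 : Emp 15 [5, 5, 5, 5, 5, 5, 5, 5, 3, 3, 1, 1, 1, 1] := emp_of_cK (m0 := 5) (ms := [5,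
    5, 5, 5, 5, 5, 5, 3, 3, 1, 1, 1, 1]) (qs := [(5, 0), (4, 0), (6, 3), (3, 2), (6, 1), (5, 1),
    (5, 3), (3, 4), (4, 2), (2, 6), (6, 5), (1, 5), (1, 1)]) (by norm_num) (by decide +kernel)

theorem e155 : Emp 15 [5, 5, 5, 5, 5, 5, 5, 5, 3, 2, 2, 2, 1] := emp_of_cK (m0 := 5) (ms := [5, 5,
    5, 5, 5, 5, 5, 3, 2, 2, 2, 1]) (qs := [(5, 2), (0, 6), (4, 0), (6, 6), (4, 4), (6, 2), (1, 3),
    (2, 5), (1, 4), (5, 6), (1, 6), (0, 5)]) (by norm_num) (by decide +kernel)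

theorem e152 : Emp 15 [5, 5, 5, 5, 5, 5, 5, 4, 4, 3, 2, 2] := emp_of_cK (m0 := 5) (ms := [5, 5, 5,
    5, 5, 5, 4, 4, 3, 2, 2]) (qs := [(0, 4), (5, 3), (2, 3), (5, 0), (2, 6), (5, 2), (4, 5), (3,
    6), (2, 2), (3, 0), (1, 4)]) (by norm_num) (by decide +kernel)

theorem e151 : Emp 15 [5, 5, 5, 5, 5, 5, 5, 4, 4, 3, 2, 1, 1] := emp_of_cK (m0 := 5) (ms := [5, 5,
    5, 5, 5, 5, 4, 4, 3, 2, 1, 1]) (qs := [(2, 2), (5, 2), (4, 2), (1, 1), (3, 0), (2, 1), (3, 1),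
    (5, 3), (2, 3), (4, 5), (0, 5), (3, 6)]) (by norm_num) (by decide +kernel)

theorem e150 : Emp 15 [5, 5, 5, 5, 5, 5, 5, 4, 3, 3, 3, 2] := emp_of_cK (m0 := 5) (ms := [5, 5, 5,
    5, 5, 5, 4, 3, 3, 3, 2]) (qs := [(6, 2), (4, 3), (5, 5), (5, 1), (1, 6), (2, 0), (6, 0), (4,
    2), (1, 5), (5, 6), (4, 0)]) (by norm_num) (by decide +kernel)

theorem e148 : Emp 15 [5, 5, 5, 5, 5, 5, 4, 4, 4, 4, 2, 2] := emp_of_cK (m0 := 5) (ms := [5, 5, 5,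
    5, 5, 4, 4, 4, 4, 2, 2]) (qs := [(6, 3), (4, 1), (4, 4), (6, 6), (2, 5), (6, 2), (1, 6), (2,
    1), (0, 3), (2, 0), (1, 5)]) (by norm_num) (by decide +kernel)

theorem e147 : Emp 15 [5, 5, 5, 5, 5, 4, 4, 4, 4, 4, 4, 1] := emp_of_cK (m0 := 5) (ms := [5, 5, 5,
    5, 4, 4, 4, 4, 4, 4, 1]) (qs := [(5, 4), (3, 4), (0, 6), (1, 2), (1, 0), (6, 0), (4, 6), (0,
    2), (1, 6), (4, 4), (4, 1)]) (by norm_num) (by decide +kernel)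

theorem e163 : Emp 14 [5, 5, 4, 4, 4, 4, 4, 4, 4, 4, 4] := emp_of_cK (m0 := 5) (ms := [5, 4, 4, 4,
    4, 4, 4, 4, 4, 4]) (qs := [(0, 3), (4, 3), (3, 6), (0, 5), (4, 6), (5, 5), (2, 5), (6, 3), (4,
    1), (3, 2)]) (by norm_num) (by decide +kernel)

theorem e165 : Emp 14 [6, 4, 4, 4, 4, 4, 4, 4, 4, 4, 4] := emp_of_cK (m0 := 6) (ms := [4, 4, 4, 4,
    4, 4, 4, 4, 4, 4]) (qs := [(4, 6), (2, 5), (5, 2), (3, 5), (0, 5), (2, 6), (4, 1), (4, 4), (3,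
    1), (1, 4)]) (by norm_num) (by decide +kernel)

theorem e164 : Emp 14 [6, 4, 4, 4, 4, 4, 4, 4, 4, 4, 3, 2] := emp_of_cK (m0 := 6) (ms := [4, 4, 4,
    4, 4, 4, 4, 4, 4, 3, 2]) (qs := [(6, 3), (4, 1), (4, 4), (6, 6), (2, 5), (6, 2), (1, 6), (2,
    1), (0, 3), (2, 0), (1, 5)]) (by norm_num) (by decide +kernel)

theorem e169 : Emp 13 [4, 4, 4, 4, 4, 4, 4, 4, 4, 4, 3] := emp_of_cK (m0 := 4) (ms := [4, 4, 4, 4,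
    4, 4, 4, 4, 4, 3]) (qs := [(0, 3), (4, 3), (3, 6), (0, 5), (4, 6), (5, 5), (2, 5), (6, 3), (4,
    1), (3, 2)]) (by norm_num) (by decide +kernel)

theorem e168 : Emp 13 [4, 4, 4, 4, 4, 4, 4, 4, 4, 4, 2, 2] := emp_of_cK (m0 := 4) (ms := [4, 4, 4,
    4, 4, 4, 4, 4, 4, 2, 2]) (qs := [(0, 3), (4, 3), (3, 6), (0, 5), (4, 6), (5, 5), (2, 5), (6,
    3), (4, 1), (3, 2), (5, 2)]) (by norm_num) (by decide +kernel)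

theorem e167 : Emp 13 [4, 4, 4, 4, 4, 4, 4, 4, 4, 4, 2, 1, 1] := emp_of_cK (m0 := 4) (ms := [4, 4,
    4, 4, 4, 4, 4, 4, 4, 2, 1, 1]) (qs := [(2, 2), (5, 2), (4, 2), (1, 1), (3, 0), (2, 1), (3, 1),
    (5, 3), (2, 3), (4, 5), (0, 5), (3, 6)]) (by norm_num) (by decide +kernel)

theorem e166 : Emp 13 [4, 4, 4, 4, 4, 4, 4, 4, 4, 3, 3, 2] := emp_of_cK (m0 := 4) (ms := [4, 4, 4,
    4, 4, 4, 4, 4, 3, 3, 2]) (qs := [(0, 3), (4, 3), (3, 6), (0, 5), (4, 6), (5, 5), (2, 5), (6,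
    3), (4, 1), (3, 2), (5, 2)]) (by norm_num) (by decide +kernel)

theorem e177 : Emp 13 [5, 4, 4, 4, 4, 4, 4, 4, 4, 4] := emp_of_cK (m0 := 5) (ms := [4, 4, 4, 4, 4,
    4, 4, 4, 4]) (qs := [(1, 4), (3, 4), (3, 1), (1, 2), (6, 4), (2, 0), (2, 6), (3, 3), (2, 3)])
    (by norm_num) (by decide +kernel)

theorem e175 : Emp 13 [5, 4, 4, 4, 4, 4, 4, 4, 4, 3, 2, 1] := emp_of_cK (m0 := 5) (ms := [4, 4, 4,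
    4, 4, 4, 4, 4, 3, 2, 1]) (qs := [(0, 4), (5, 3), (2, 3), (5, 0), (2, 6), (5, 2), (4, 5), (3,
    6), (2, 2), (3, 0), (1, 4)]) (by norm_num) (by decide +kernel)

theorem e174 : Emp 13 [5, 4, 4, 4, 4, 4, 4, 4, 4, 3, 1, 1, 1, 1] := emp_of_cK (m0 := 5) (ms := [4,
    4, 4, 4, 4, 4, 4, 4, 3, 1, 1, 1, 1]) (qs := [(2, 2), (2, 0), (0, 1), (1, 0), (5, 2), (3, 1),
    (5, 6), (1, 6), (1, 1), (5, 4), (6, 5), (3, 3), (1, 5)]) (by norm_num) (by decide +kernel)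

theorem e173 : Emp 13 [5, 4, 4, 4, 4, 4, 4, 4, 4, 2, 2, 2, 1] := emp_of_cK (m0 := 5) (ms := [4, 4,
    4, 4, 4, 4, 4, 4, 2, 2, 2, 1]) (qs := [(0, 4), (3, 5), (6, 6), (5, 2), (4, 4), (2, 3), (4, 5),
    (5, 4), (2, 5), (0, 5), (6, 0), (5, 5)]) (by norm_num) (by decide +kernel)

theorem e172 : Emp 13 [5, 4, 4, 4, 4, 4, 4, 4, 3, 3, 3, 2] := emp_of_cK (m0 := 5) (ms := [4, 4, 4,
    4, 4, 4, 4, 3, 3, 3, 2]) (qs := [(0, 3), (6, 0), (6, 1), (3, 5), (1, 5), (3, 6), (6, 2), (1,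
    6), (4, 5), (5, 0), (2, 0)]) (by norm_num) (by decide +kernel)

theorem e171 : Emp 13 [5, 4, 4, 4, 4, 4, 4, 4, 3, 3, 3, 1, 1] := emp_of_cK (m0 := 5) (ms := [4, 4,
    4, 4, 4, 4, 4, 3, 3, 3, 1, 1]) (qs := [(2, 2), (5, 2), (4, 2), (1, 1), (3, 0), (2, 1), (3, 1),
    (5, 3), (2, 3), (4, 5), (0, 5), (3, 6)]) (by norm_num) (by decide +kernel)

theorem e170 : Emp 13 [5, 4, 4, 4, 4, 4, 4, 3, 3, 3, 3, 3] := emp_of_cK (m0 := 5) (ms := [4, 4, 4,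
    4, 4, 4, 3, 3, 3, 3, 3]) (qs := [(5, 2), (5, 6), (0, 5), (3, 1), (6, 4), (6, 0), (2, 4), (5,
    4), (1, 1), (0, 4), (1, 0)]) (by norm_num) (by decide +kernel)

theorem e190 : Emp 12 [4, 4, 4, 4, 4, 4, 4, 4, 3, 2, 1, 1] := emp_of_cK (m0 := 4) (ms := [4, 4, 4,
    4, 4, 4, 4, 3, 2, 1, 1]) (qs := [(6, 3), (4, 1), (4, 4), (6, 6), (2, 5), (6, 2), (1, 6), (2,
    1), (0, 3), (2, 0), (1, 5)]) (by norm_num) (by decide +kernel)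

theorem e185 : Emp 12 [4, 4, 4, 4, 4, 4, 4, 3, 3, 3, 2] := emp_of_cK (m0 := 4) (ms := [4, 4, 4, 4,
    4, 4, 3, 3, 3, 2]) (qs := [(4, 6), (2, 5), (5, 2), (3, 5), (0, 5), (2, 6), (4, 1), (4, 4), (3,
    1), (1, 4)]) (by norm_num) (by decide +kernel)

theorem e189 : Emp 12 [4, 4, 4, 4, 4, 4, 4, 4, 3, 1, 1, 1, 1, 1] := emp_of_cK (m0 := 4) (ms := [4,
    4, 4, 4, 4, 4, 4, 3, 1, 1, 1, 1, 1]) (qs := [(5, 3), (2, 3), (4, 5), (0, 5), (3, 6), (5, 4),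
    (4, 4), (5, 0), (3, 4), (0, 6), (4, 3), (2, 1), (3, 3)]) (by norm_num) (by decide +kernel)

theorem e188 : Emp 12 [4, 4, 4, 4, 4, 4, 4, 4, 2, 2, 2, 2] := emp_of_cK (m0 := 4) (ms := [4, 4, 4,
    4, 4, 4, 4, 2, 2, 2, 2]) (qs := [(6, 3), (2, 4), (4, 4), (6, 5), (4, 3), (5, 5), (2, 0), (4,
    6), (2, 1), (3, 0), (1, 2)]) (by norm_num) (by decide +kernel)

theorem e187 : Emp 12 [4, 4, 4, 4, 4, 4, 4, 4, 2, 2, 2, 1, 1] := emp_of_cK (m0 := 4) (ms := [4, 4,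
    4, 4, 4, 4, 4, 2, 2, 2, 1, 1]) (qs := [(5, 2), (0, 6), (4, 0), (6, 6), (4, 4), (6, 2), (1, 3),
    (2, 5), (1, 4), (5, 6), (1, 6), (0, 5)]) (by norm_num) (by decide +kernel)

theorem e184 : Emp 12 [4, 4, 4, 4, 4, 4, 4, 3, 3, 3, 1, 1, 1] := emp_of_cK (m0 := 4) (ms := [4, 4,
    4, 4, 4, 4, 3, 3, 3, 1, 1, 1]) (qs := [(3, 2), (6, 2), (5, 6), (2, 6), (6, 3), (4, 1), (4, 4),
    (6, 6), (2, 5), (1, 6), (2, 1), (0, 3)]) (by norm_num) (by decide +kernel)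

theorem e183 : Emp 12 [4, 4, 4, 4, 4, 4, 4, 3, 3, 2, 2, 2] := emp_of_cK (m0 := 4) (ms := [4, 4, 4,
    4, 4, 4, 3, 3, 2, 2, 2]) (qs := [(6, 2), (4, 3), (5, 5), (5, 1), (1, 6), (2, 0), (6, 0), (4,
    2), (1, 5), (5, 6), (4, 0)]) (by norm_num) (by decide +kernel)

theorem e180 : Emp 12 [4, 4, 4, 4, 4, 4, 3, 3, 3, 3, 3, 1] := emp_of_cK (m0 := 4) (ms := [4, 4, 4,
    4, 4, 3, 3, 3, 3, 3, 1]) (qs := [(6, 3), (2, 4), (4, 4), (6, 5), (4, 3), (5, 5), (2, 0), (4,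
    6), (2, 1), (3, 0), (1, 2)]) (by norm_num) (by decide +kernel)

theorem e186 : Emp 12 [4, 4, 4, 4, 4, 4, 4, 4, 2, 2, 1, 1, 1, 1, 1] := emp_of_cK (m0 := 4) (ms :=
    [4, 4, 4, 4, 4, 4, 4, 2, 2, 1, 1, 1, 1, 1]) (qs := [(3, 3), (2, 6), (4, 1), (0, 1), (5, 0),
    (6, 3), (5, 6), (6, 0), (3, 2), (3, 6), (2, 4), (4, 4), (6, 5), (4, 3)]) (by norm_num) (by
    decide +kernel)

theorem e182 : Emp 12 [4, 4, 4, 4, 4, 4, 4, 3, 3, 2, 2, 1, 1, 1] := emp_of_cK (m0 := 4) (ms := [4,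
    4, 4, 4, 4, 4, 3, 3, 2, 2, 1, 1, 1]) (qs := [(5, 3), (2, 3), (4, 5), (0, 5), (3, 6), (5, 4),
    (4, 4), (5, 0), (3, 4), (0, 6), (4, 3), (2, 1), (3, 3)]) (by norm_num) (by decide +kernel)

theorem e181 : Emp 12 [4, 4, 4, 4, 4, 4, 4, 3, 2, 2, 2, 2, 2] := emp_of_cK (m0 := 4) (ms := [4, 4,
    4, 4, 4, 4, 3, 2, 2, 2, 2, 2]) (qs := [(0, 5), (2, 6), (2, 5), (4, 1), (4, 4), (3, 1), (1, 4),
    (4, 3), (6, 2), (1, 5), (2, 0), (4, 2)]) (by norm_num) (by decide +kernel)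

theorem e179 : Emp 12 [4, 4, 4, 4, 4, 4, 3, 3, 3, 3, 2, 2, 1] := emp_of_cK (m0 := 4) (ms := [4, 4,
    4, 4, 4, 3, 3, 3, 3, 2, 2, 1]) (qs := [(0, 3), (4, 3), (3, 6), (0, 5), (4, 6), (5, 5), (2, 5),
    (6, 3), (4, 1), (3, 2), (5, 2), (3, 5)]) (by norm_num) (by decide +kernel)

theorem e178 : Emp 12 [4, 4, 4, 4, 4, 3, 3, 3, 3, 3, 3, 3] := emp_of_cK (m0 := 4) (ms := [4, 4, 4,
    4, 3, 3, 3, 3, 3, 3, 3]) (qs := [(0, 3), (4, 3), (3, 6), (0, 5), (4, 6), (5, 5), (2, 5), (6,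
    3), (4, 1), (3, 2), (5, 2)]) (by norm_num) (by decide +kernel)

theorem e194 : Emp 11 [4, 4, 3, 3, 3, 3, 3, 3, 3, 3, 3, 3] := emp_of_cK (m0 := 4) (ms := [4, 3, 3,
    3, 3, 3, 3, 3, 3, 3, 3]) (qs := [(0, 3), (4, 3), (3, 6), (0, 5), (4, 6), (5, 5), (2, 5), (6,
    3), (4, 1), (3, 2), (5, 2)]) (by norm_num) (by decide +kernel)

theorem e193 : Emp 11 [4, 4, 3, 3, 3, 3, 3, 3, 3, 3, 3, 2, 1] := emp_of_cK (m0 := 4) (ms := [4, 3,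
    3, 3, 3, 3, 3, 3, 3, 3, 2, 1]) (qs := [(4, 3), (1, 0), (0, 5), (1, 1), (6, 3), (0, 4), (4, 1),
    (1, 5), (1, 6), (3, 5), (5, 0), (3, 3)]) (by norm_num) (by decide +kernel)

theorem e197 : Emp 11 [5, 3, 3, 3, 3, 3, 3, 3, 3, 3, 3, 2] := emp_of_cK (m0 := 5) (ms := [3, 3, 3,
    3, 3, 3, 3, 3, 3, 3, 2]) (qs := [(6, 3), (4, 1), (4, 4), (6, 6), (2, 5), (6, 2), (1, 6), (2,
    1), (0, 3), (2, 0), (1, 5)]) (by norm_num) (by decide +kernel)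

theorem e196 : Emp 11 [5, 3, 3, 3, 3, 3, 3, 3, 3, 3, 3, 1, 1, 1] := emp_of_cK (m0 := 5) (ms := [3,
    3, 3, 3, 3, 3, 3, 3, 3, 3, 1, 1, 1]) (qs := [(0, 3), (4, 3), (3, 6), (0, 5), (4, 6), (5, 5),
    (2, 5), (6, 3), (4, 1), (3, 2), (5, 2), (3, 5), (2, 6)]) (by norm_num) (by decide +kernel)

theorem e195 : Emp 11 [5, 3, 3, 3, 3, 3, 3, 3, 3, 3, 2, 2, 2] := emp_of_cK (m0 := 5) (ms := [3, 3,
    3, 3, 3, 3, 3, 3, 3, 2, 2, 2]) (qs := [(2, 6), (5, 2), (4, 5), (3, 6), (2, 2), (3, 0), (1, 4),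
    (2, 3), (4, 3), (3, 5), (5, 6), (4, 4)]) (by norm_num) (by decide +kernel)

theorem e201 : Emp 10 [3, 3, 3, 3, 3, 3, 3, 3, 3, 3, 3] := emp_of_cK (m0 := 3) (ms := [3, 3, 3, 3,
    3, 3, 3, 3, 3, 3]) (qs := [(0, 3), (4, 3), (3, 6), (0, 5), (4, 6), (5, 5), (2, 5), (6, 3), (4,
    1), (3, 2)]) (by norm_num) (by decide +kernel)

theorem e200 : Emp 10 [3, 3, 3, 3, 3, 3, 3, 3, 3, 3, 2, 2] := emp_of_cK (m0 := 3) (ms := [3, 3, 3,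
    3, 3, 3, 3, 3, 3, 2, 2]) (qs := [(0, 3), (4, 3), (3, 6), (0, 5), (4, 6), (5, 5), (2, 5), (6,
    3), (4, 1), (3, 2), (5, 2)]) (by norm_num) (by decide +kernel)

theorem e199 : Emp 10 [3, 3, 3, 3, 3, 3, 3, 3, 3, 3, 2, 1, 1, 1] := emp_of_cK (m0 := 3) (ms := [3,
    3, 3, 3, 3, 3, 3, 3, 3, 2, 1, 1, 1]) (qs := [(2, 2), (2, 0), (0, 1), (1, 0), (5, 2), (3, 1),
    (5, 6), (1, 6), (1, 1), (5, 4), (6, 5), (3, 3), (1, 5)]) (by norm_num) (by decide +kernel)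

theorem e198 : Emp 10 [3, 3, 3, 3, 3, 3, 3, 3, 3, 2, 2, 2, 2] := emp_of_cK (m0 := 3) (ms := [3, 3,
    3, 3, 3, 3, 3, 3, 2, 2, 2, 2]) (qs := [(0, 3), (4, 3), (3, 6), (0, 5), (4, 6), (5, 5), (2, 5),
    (6, 3), (4, 1), (3, 2), (5, 2), (3, 5)]) (by norm_num) (by decide +kernel)

theorem e208 : Emp 10 [4, 3, 3, 3, 3, 3, 3, 3, 3, 3, 2] := emp_of_cK (m0 := 4) (ms := [3, 3, 3, 3,
    3, 3, 3, 3, 3, 2]) (qs := [(4, 6), (2, 5), (5, 2), (3, 5), (0, 5), (2, 6), (4, 1), (4, 4), (3,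
    1), (1, 4)]) (by norm_num) (by decide +kernel)

theorem e207 : Emp 10 [4, 3, 3, 3, 3, 3, 3, 3, 3, 3, 1, 1] := emp_of_cK (m0 := 4) (ms := [3, 3, 3,
    3, 3, 3, 3, 3, 3, 1, 1]) (qs := [(0, 4), (5, 3), (2, 3), (5, 0), (2, 6), (5, 2), (4, 5), (3,
    6), (2, 2), (3, 0), (1, 4)]) (by norm_num) (by decide +kernel)

theorem e206 : Emp 10 [4, 3, 3, 3, 3, 3, 3, 3, 3, 2, 2, 2] := emp_of_cK (m0 := 4) (ms := [3, 3, 3,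
    3, 3, 3, 3, 3, 2, 2, 2]) (qs := [(0, 3), (4, 3), (3, 6), (0, 5), (4, 6), (5, 5), (2, 5), (6,
    3), (4, 1), (3, 2), (5, 2)]) (by norm_num) (by decide +kernel)

theorem e205 : Emp 10 [4, 3, 3, 3, 3, 3, 3, 3, 3, 2, 2, 1, 1] := emp_of_cK (m0 := 4) (ms := [3, 3,
    3, 3, 3, 3, 3, 3, 2, 2, 1, 1]) (qs := [(0, 3), (4, 3), (3, 6), (0, 5), (4, 6), (5, 5), (2, 5),
    (6, 3), (4, 1), (3, 2), (5, 2), (3, 5)]) (by norm_num) (by decide +kernel)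

theorem e204 : Emp 10 [4, 3, 3, 3, 3, 3, 3, 3, 3, 2, 1, 1, 1, 1, 1] := emp_of_cK (m0 := 4) (ms :=
    [3, 3, 3, 3, 3, 3, 3, 3, 2, 1, 1, 1, 1, 1]) (qs := [(6, 6), (4, 3), (2, 6), (1, 3), (2, 0),
    (2, 1), (0, 1), (3, 3), (6, 1), (4, 0), (1, 6), (4, 2), (1, 4), (6, 2)]) (by norm_num) (by
    decide +kernel)

theorem e203 : Emp 10 [4, 3, 3, 3, 3, 3, 3, 3, 2, 2, 2, 2, 2] := emp_of_cK (m0 := 4) (ms := [3, 3,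
    3, 3, 3, 3, 3, 2, 2, 2, 2, 2]) (qs := [(0, 5), (2, 6), (2, 5), (4, 1), (4, 4), (3, 1), (1, 4),
    (4, 3), (6, 2), (1, 5), (2, 0), (4, 2)]) (by norm_num) (by decide +kernel)

theorem e202 : Emp 10 [4, 3, 3, 3, 3, 3, 3, 3, 2, 2, 2, 2, 1, 1] := emp_of_cK (m0 := 4) (ms := [3,
    3, 3, 3, 3, 3, 3, 2, 2, 2, 2, 1, 1]) (qs := [(5, 3), (2, 3), (4, 5), (0, 5), (3, 6), (5, 4),
    (4, 4), (5, 0), (3, 4), (0, 6), (4, 3), (2, 1), (3, 3)]) (by norm_num) (by decide +kernel)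

theorem e217 : Emp 9 [3, 3, 3, 3, 3, 3, 3, 3, 2, 2, 1] := emp_of_cK (m0 := 3) (ms := [3, 3, 3, 3,
    3, 3, 3, 2, 2, 1]) (qs := [(4, 6), (2, 5), (5, 2), (3, 5), (0, 5), (2, 6), (4, 1), (4, 4), (3,
    1), (1, 4)]) (by norm_num) (by decide +kernel)

theorem e216 : Emp 9 [3, 3, 3, 3, 3, 3, 3, 3, 2, 1, 1, 1, 1] := emp_of_cK (m0 := 3) (ms := [3, 3,
    3, 3, 3, 3, 3, 2, 1, 1, 1, 1]) (qs := [(4, 2), (1, 1), (4, 5), (1, 4), (3, 4), (3, 1), (1, 2),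
    (6, 4), (2, 0), (2, 6), (3, 3), (2, 3)]) (by norm_num) (by decide +kernel)

theorem e214 : Emp 9 [3, 3, 3, 3, 3, 3, 3, 2, 2, 2, 2, 1] := emp_of_cK (m0 := 3) (ms := [3, 3, 3,
    3, 3, 3, 2, 2, 2, 2, 1]) (qs := [(6, 3), (2, 4), (4, 4), (6, 5), (4, 3), (5, 5), (2, 0), (4,
    6), (2, 1), (3, 0), (1, 2)]) (by norm_num) (by decide +kernel)

theorem e215 : Emp 9 [3, 3, 3, 3, 3, 3, 3, 3, 1, 1, 1, 1, 1, 1, 1] := emp_of_cK (m0 := 3) (ms :=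
    [3, 3, 3, 3, 3, 3, 3, 1, 1, 1, 1, 1, 1, 1]) (qs := [(0, 3), (4, 3), (3, 6), (0, 5), (4, 6),
    (5, 5), (2, 5), (6, 3), (4, 1), (3, 2), (5, 2), (3, 5), (2, 6), (4, 4)]) (by norm_num) (by
    decide +kernel)

theorem e213 : Emp 9 [3, 3, 3, 3, 3, 3, 3, 2, 2, 2, 1, 1, 1, 1] := emp_of_cK (m0 := 3) (ms := [3,
    3, 3, 3, 3, 3, 2, 2, 2, 1, 1, 1, 1]) (qs := [(5, 0), (4, 0), (6, 3), (3, 2), (6, 1), (5, 1),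
    (5, 3), (3, 4), (4, 2), (2, 6), (6, 5), (1, 5), (1, 1)]) (by norm_num) (by decide +kernel)

theorem e211 : Emp 9 [3, 3, 3, 3, 3, 3, 2, 2, 2, 2, 2, 2, 1] := emp_of_cK (m0 := 3) (ms := [3, 3,
    3, 3, 3, 2, 2, 2, 2, 2, 2, 1]) (qs := [(0, 3), (4, 3), (3, 6), (0, 5), (4, 6), (5, 5), (2, 5),
    (6, 3), (4, 1), (3, 2), (5, 2), (3, 5)]) (by norm_num) (by decide +kernel)

theorem e212 : Emp 9 [3, 3, 3, 3, 3, 3, 3, 2, 2, 1, 1, 1, 1, 1, 1, 1] := emp_of_cK (m0 := 3) (ms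
    := [3, 3, 3, 3, 3, 3, 2, 2, 1, 1, 1, 1, 1, 1, 1]) (qs := [(0, 3), (4, 3), (3, 6), (0, 5), (4,
    6), (5, 5), (2, 5), (6, 3), (4, 1), (3, 2), (5, 2), (3, 5), (2, 6), (4, 4), (3, 1)]) (by
    norm_num) (by decide +kernel)

theorem e210 : Emp 9 [3, 3, 3, 3, 3, 3, 2, 2, 2, 2, 2, 1, 1, 1, 1] := emp_of_cK (m0 := 3) (ms :=
    [3, 3, 3, 3, 3, 2, 2, 2, 2, 2, 1, 1, 1, 1]) (qs := [(0, 3), (4, 3), (3, 6), (0, 5), (4, 6),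
    (5, 5), (2, 5), (6, 3), (4, 1), (3, 2), (5, 2), (3, 5), (2, 6), (4, 4)]) (by norm_num) (by
    decide +kernel)

theorem e209 : Emp 9 [3, 3, 3, 3, 3, 2, 2, 2, 2, 2, 2, 2, 2, 1] := emp_of_cK (m0 := 3) (ms := [3,
    3, 3, 3, 2, 2, 2, 2, 2, 2, 2, 2, 1]) (qs := [(0, 3), (4, 3), (3, 6), (0, 5), (4, 6), (5, 5),
    (2, 5), (6, 3), (4, 1), (3, 2), (5, 2), (3, 5), (2, 6)]) (by norm_num) (by decide +kernel)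

theorem e218 : Emp 9 [5, 2, 2, 2, 2, 2, 2, 2, 2, 2, 2, 2, 2, 2, 1] := emp_of_cK (m0 := 5) (ms :=
    [2, 2, 2, 2, 2, 2, 2, 2, 2, 2, 2, 2, 2, 1]) (qs := [(0, 4), (2, 2), (5, 2), (4, 2), (1, 1),
    (3, 0), (2, 1), (3, 1), (5, 3), (2, 3), (4, 5), (0, 5), (3, 6), (5, 4)]) (by norm_num) (by
    decide +kernel)

theorem e221 : Emp 8 [3, 3, 2, 2, 2, 2, 2, 2, 2, 2, 2, 2, 2] := emp_of_cK (m0 := 3) (ms := [3, 2,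
    2, 2, 2, 2, 2, 2, 2, 2, 2, 2]) (qs := [(0, 3), (4, 3), (3, 6), (0, 5), (4, 6), (5, 5), (2, 5),
    (6, 3), (4, 1), (3, 2), (5, 2), (3, 5)]) (by norm_num) (by decide +kernel)

theorem e220 : Emp 8 [3, 3, 2, 2, 2, 2, 2, 2, 2, 2, 2, 2, 1, 1, 1] := emp_of_cK (m0 := 3) (ms :=
    [3, 2, 2, 2, 2, 2, 2, 2, 2, 2, 2, 1, 1, 1]) (qs := [(0, 3), (4, 3), (3, 6), (0, 5), (4, 6),
    (5, 5), (2, 5), (6, 3), (4, 1), (3, 2), (5, 2), (3, 5), (2, 6), (4, 4)]) (by norm_num) (by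
    decide +kernel)

theorem e219 : Emp 8 [3, 2, 2, 2, 2, 2, 2, 2, 2, 2, 2, 2, 2, 2] := emp_of_cK (m0 := 3) (ms := [2,
    2, 2, 2, 2, 2, 2, 2, 2, 2, 2, 2, 2]) (qs := [(2, 6), (4, 4), (3, 4), (5, 4), (0, 4), (5, 3),
    (2, 3), (5, 0), (5, 2), (4, 5), (3, 6), (2, 2), (3, 0)]) (by norm_num) (by decide +kernel)

theorem e224 : Emp 8 [4, 2, 2, 2, 2, 2, 2, 2, 2, 2, 2, 2, 2] := emp_of_cK (m0 := 4) (ms := [2, 2,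
    2, 2, 2, 2, 2, 2, 2, 2, 2, 2]) (qs := [(0, 3), (4, 3), (3, 6), (0, 5), (4, 6), (5, 5), (2, 5),
    (6, 3), (4, 1), (3, 2), (5, 2), (3, 5)]) (by norm_num) (by decide +kernel)

theorem e223 : Emp 8 [4, 2, 2, 2, 2, 2, 2, 2, 2, 2, 2, 2, 1, 1] := emp_of_cK (m0 := 4) (ms := [2,
    2, 2, 2, 2, 2, 2, 2, 2, 2, 2, 1, 1]) (qs := [(2, 6), (4, 4), (3, 4), (5, 4), (0, 4), (5, 3),
    (2, 3), (5, 0), (5, 2), (4, 5), (3, 6), (2, 2), (3, 0)]) (by norm_num) (by decide +kernel)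

theorem e222 : Emp 8 [4, 2, 2, 2, 2, 2, 2, 2, 2, 2, 2, 1, 1, 1, 1, 1] := emp_of_cK (m0 := 4) (ms
    := [2, 2, 2, 2, 2, 2, 2, 2, 2, 2, 1, 1, 1, 1, 1]) (qs := [(0, 3), (4, 3), (3, 6), (0, 5), (4,
    6), (5, 5), (2, 5), (6, 3), (4, 1), (3, 2), (5, 2), (3, 5), (2, 6), (4, 4), (3, 1)]) (by
    norm_num) (by decide +kernel)

theorem e227 : Emp 7 [2, 2, 2, 2, 2, 2, 2, 2, 2, 2, 2, 2] := emp_of_cK (m0 := 2) (ms := [2, 2, 2,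
    2, 2, 2, 2, 2, 2, 2, 2]) (qs := [(0, 3), (4, 3), (3, 6), (0, 5), (4, 6), (5, 5), (2, 5), (6,
    3), (4, 1), (3, 2), (5, 2)]) (by norm_num) (by decide +kernel)

theorem e226 : Emp 7 [2, 2, 2, 2, 2, 2, 2, 2, 2, 2, 2, 1, 1, 1] := emp_of_cK (m0 := 2) (ms := [2,
    2, 2, 2, 2, 2, 2, 2, 2, 2, 1, 1, 1]) (qs := [(0, 3), (4, 3), (3, 6), (0, 5), (4, 6), (5, 5),
    (2, 5), (6, 3), (4, 1), (3, 2), (5, 2), (3, 5), (2, 6)]) (by norm_num) (by decide +kernel)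

theorem e225 : Emp 7 [2, 2, 2, 2, 2, 2, 2, 2, 2, 2, 1, 1, 1, 1, 1, 1] := emp_of_cK (m0 := 2) (ms
    := [2, 2, 2, 2, 2, 2, 2, 2, 2, 1, 1, 1, 1, 1, 1]) (qs := [(0, 3), (4, 3), (3, 6), (0, 5), (4,
    6), (5, 5), (2, 5), (6, 3), (4, 1), (3, 2), (5, 2), (3, 5), (2, 6), (4, 4), (3, 1)]) (by
    norm_num) (by decide +kernel)

theorem e231 : Emp 7 [3, 2, 2, 2, 2, 2, 2, 2, 2, 2, 2] := emp_of_cK (m0 := 3) (ms := [2, 2, 2, 2,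
    2, 2, 2, 2, 2, 2]) (qs := [(4, 6), (2, 5), (5, 2), (3, 5), (0, 5), (2, 6), (4, 1), (4, 4), (3,
    1), (1, 4)]) (by norm_num) (by decide +kernel)

theorem e230 : Emp 7 [3, 2, 2, 2, 2, 2, 2, 2, 2, 2, 1, 1, 1] := emp_of_cK (m0 := 3) (ms := [2, 2,
    2, 2, 2, 2, 2, 2, 2, 1, 1, 1]) (qs := [(0, 5), (2, 6), (2, 5), (4, 1), (4, 4), (3, 1), (1, 4),
    (4, 3), (6, 2), (1, 5), (2, 0), (4, 2)]) (by norm_num) (by decide +kernel)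

theorem e229 : Emp 7 [3, 2, 2, 2, 2, 2, 2, 2, 2, 1, 1, 1, 1, 1, 1] := emp_of_cK (m0 := 3) (ms :=
    [2, 2, 2, 2, 2, 2, 2, 2, 1, 1, 1, 1, 1, 1]) (qs := [(0, 3), (4, 3), (3, 6), (0, 5), (4, 6),
    (5, 5), (2, 5), (6, 3), (4, 1), (3, 2), (5, 2), (3, 5), (2, 6), (4, 4)]) (by norm_num) (by
    decide +kernel)

theorem e228 : Emp 7 [3, 2, 2, 2, 2, 2, 2, 2, 1, 1, 1, 1, 1, 1, 1, 1, 1] := emp_of_cK (m0 := 3)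
    (ms := [2, 2, 2, 2, 2, 2, 2, 1, 1, 1, 1, 1, 1, 1, 1, 1]) (qs := [(3, 4), (5, 4), (0, 4), (5,
    3), (2, 3), (5, 0), (2, 6), (5, 2), (4, 5), (3, 6), (2, 2), (3, 0), (1, 4), (4, 3), (3, 5),
    (5, 6)]) (by norm_num) (by decide +kernel)

theorem e236 : Emp 6 [2, 2, 2, 2, 2, 2, 2, 2, 1, 1, 1, 1] := emp_of_cK (m0 := 2) (ms := [2, 2, 2,
    2, 2, 2, 2, 1, 1, 1, 1]) (qs := [(0, 3), (4, 3), (3, 6), (0, 5), (4, 6), (5, 5), (2, 5), (6,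
    3), (4, 1), (3, 2), (5, 2)]) (by norm_num) (by decide +kernel)

theorem e235 : Emp 6 [2, 2, 2, 2, 2, 2, 2, 1, 1, 1, 1, 1, 1, 1] := emp_of_cK (m0 := 2) (ms := [2,
    2, 2, 2, 2, 2, 1, 1, 1, 1, 1, 1, 1]) (qs := [(0, 3), (4, 3), (3, 6), (0, 5), (4, 6), (5, 5),
    (2, 5), (6, 3), (4, 1), (3, 2), (5, 2), (3, 5), (2, 6)]) (by norm_num) (by decide +kernel)

theorem e234 : Emp 6 [2, 2, 2, 2, 2, 2, 1, 1, 1, 1, 1, 1, 1, 1, 1, 1] := emp_of_cK (m0 := 2) (ms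
    := [2, 2, 2, 2, 2, 1, 1, 1, 1, 1, 1, 1, 1, 1, 1]) (qs := [(0, 3), (4, 3), (3, 6), (0, 5), (4,
    6), (5, 5), (2, 5), (6, 3), (4, 1), (3, 2), (5, 2), (3, 5), (2, 6), (4, 4), (3, 1)]) (by
    norm_num) (by decide +kernel)

theorem e233 : Emp 6 [2, 2, 2, 2, 2, 1, 1, 1, 1, 1, 1, 1, 1, 1, 1, 1, 1, 1] := emp_of_cK (m0 := 2)
    (ms := [2, 2, 2, 2, 1, 1, 1, 1, 1, 1, 1, 1, 1, 1, 1, 1, 1]) (qs := [(0, 3), (4, 3), (3, 6),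
    (0, 5), (4, 6), (5, 5), (2, 5), (6, 3), (4, 1), (3, 2), (5, 2), (3, 5), (2, 6), (4, 4), (3,
    1), (1, 4), (6, 2)]) (by norm_num) (by decide +kernel)

theorem e232 : Emp 7 [5, 1, 1, 1, 1, 1, 1, 1, 1, 1, 1, 1, 1, 1, 1, 1, 1, 1, 1, 1, 1, 1] :=
    emp_of_cK (m0 := 5) (ms := [1, 1, 1, 1, 1, 1, 1, 1, 1, 1, 1, 1, 1, 1, 1, 1, 1, 1, 1, 1, 1])
    (qs := [(2, 1), (5, 4), (5, 1), (1, 1), (5, 0), (1, 6), (2, 0), (4, 5), (2, 4), (0, 3), (4,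
    1), (3, 1), (0, 5), (3, 3), (6, 0), (6, 3), (5, 6), (4, 6), (5, 2), (0, 6), (4, 4)]) (by
    norm_num) (by decide +kernel)

theorem e239 : Emp 5 [2, 2, 1, 1, 1, 1, 1, 1, 1, 1, 1, 1, 1, 1, 1, 1, 1] := emp_of_cK (m0 := 2)
    (ms := [2, 1, 1, 1, 1, 1, 1, 1, 1, 1, 1, 1, 1, 1, 1, 1]) (qs := [(4, 4), (0, 3), (2, 1), (3,
    3), (1, 3), (4, 5), (3, 6), (4, 3), (4, 0), (3, 2), (1, 6), (6, 1), (6, 5), (6, 6), (5, 1),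
    (1, 2)]) (by norm_num) (by decide +kernel)

theorem e237 : Emp 6 [4, 1, 1, 1, 1, 1, 1, 1, 1, 1, 1, 1, 1, 1, 1, 1, 1, 1, 1] := emp_of_cK (m0 :=
    4) (ms := [1, 1, 1, 1, 1, 1, 1, 1, 1, 1, 1, 1, 1, 1, 1, 1, 1, 1]) (qs := [(5, 4), (2, 5), (0,
    5), (0, 4), (6, 0), (5, 5), (5, 3), (1, 2), (1, 1), (4, 6), (6, 1), (5, 2), (0, 1), (6, 3),
    (1, 0), (2, 1), (3, 0), (5, 1)]) (by norm_num) (by decide +kernel)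

theorem e238 : Emp 5 [2, 1, 1, 1, 1, 1, 1, 1, 1, 1, 1, 1, 1, 1, 1, 1, 1, 1, 1] := emp_of_cK (m0 :=
    2) (ms := [1, 1, 1, 1, 1, 1, 1, 1, 1, 1, 1, 1, 1, 1, 1, 1, 1, 1]) (qs := [(0, 3), (4, 3), (3,
    6), (0, 5), (4, 6), (5, 5), (2, 5), (6, 3), (4, 1), (3, 2), (5, 2), (3, 5), (2, 6), (4, 4),
    (3, 1), (1, 4), (6, 2), (1, 5)]) (by norm_num) (by decide +kernel)

theorem e240 : Emp 5 [3, 1, 1, 1, 1, 1, 1, 1, 1, 1, 1, 1, 1, 1, 1, 1] := emp_of_cK (m0 := 3) (ms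
    := [1, 1, 1, 1, 1, 1, 1, 1, 1, 1, 1, 1, 1, 1, 1]) (qs := [(0, 3), (4, 3), (3, 6), (0, 5), (4,
    6), (5, 5), (2, 5), (6, 3), (4, 1), (3, 2), (5, 2), (3, 5), (2, 6), (4, 4), (3, 1)]) (by
    norm_num) (by decide +kernel)

theorem e241 : Emp 4 [1, 1, 1, 1, 1, 1, 1, 1, 1, 1, 1, 1, 1, 1, 1] := emp_of_cK (m0 := 1) (ms :=
    [1, 1, 1, 1, 1, 1, 1, 1, 1, 1, 1, 1, 1, 1]) (qs := [(0, 3), (4, 3), (3, 6), (0, 5), (4, 6),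
    (5, 5), (2, 5), (6, 3), (4, 1), (3, 2), (5, 2), (3, 5), (2, 6), (4, 4)]) (by norm_num) (by
    decide +kernel)

theorem e242 : Emp 4 [2, 1, 1, 1, 1, 1, 1, 1, 1, 1, 1, 1, 1] := emp_of_cK (m0 := 2) (ms := [1, 1,
    1, 1, 1, 1, 1, 1, 1, 1, 1, 1]) (qs := [(0, 3), (4, 3), (3, 6), (0, 5), (4, 6), (5, 5), (2, 5),
    (6, 3), (4, 1), (3, 2), (5, 2), (3, 5)]) (by norm_num) (by decide +kernel)

end Pool.Agent.N108.SG.L
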