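import Pool.Agent.N108.SG.L1S1

set_option autoImplicit false

/-!
# The first part of an elimination
-/

namespace Pool.Agent.N108.SG.L

theorem e0a : chS 1681 208 (allK 60 20 [20, 20, 20, 20, 20, 20, 20, 19, 6] [(3, 2), (4, 6), (2, 5),
    (5, 2), (3, 5), (0, 5), (2, 6), (4, 1), (4, 4)]) st1 = true := by decide +kernel

end Pool.Agent.N108.SG.L
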