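import Pool.Agent.N108.SG.Dom

set_option autoImplicit false

/-!
# Certificates of emptiness
-/

namespace Pool.Agent.N108.SG.L

theorem e5 : Emp 45 [15, 15, 15, 15, 15, 15, 15, 15, 14, 5, 1] := emp_of_cK (m0 := 15) (ms := [15,
    15, 15, 15, 15, 15, 15, 14, 5, 1]) (qs := [(4, 6), (2, 5), (5, 2), (3, 5), (0, 5), (2, 6), (4,
    1), (4, 4), (3, 1), (1, 4)]) (by norm_num) (by decide +kernel)

end Pool.Agent.N108.SG.L
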