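import Pool.Agent.N108.SG.Dom

set_option autoImplicit false

/-!
# Certificates of emptiness
-/

namespace Pool.Agent.N108.SG.L

theorem e7 : Emp 42 [14, 14, 14, 14, 14, 14, 14, 14, 12, 7] := emp_of_cK (m0 := 14) (ms := [14,
    14, 14, 14, 14, 14, 14, 12, 7]) (qs := [(3, 2), (4, 6), (2, 5), (5, 2), (3, 5), (0, 5), (2,
    6), (4, 1), (4, 4)]) (by norm_num) (by decide +kernel)

theorem e9 : Emp 40 [14, 13, 13, 13, 13, 13, 13, 13, 13, 7] := emp_of_cK (m0 := 14) (ms := [13,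
    13, 13, 13, 13, 13, 13, 13, 7]) (qs := [(3, 2), (4, 6), (2, 5), (5, 2), (3, 5), (0, 5), (2,
    6), (4, 1), (4, 4)]) (by norm_num) (by decide +kernel)

end Pool.Agent.N108.SG.L
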