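import Pool.Agent.N108.SG.Dom

set_option autoImplicit false

/-!
# Certificates of emptiness
-/

namespace Pool.Agent.N108.SG.L

theorem e34 : Emp 33 [11, 11, 11, 11, 11, 11, 11, 11, 10, 4, 1, 1] := emp_of_cK (m0 := 11) (ms :=
    [11, 11, 11, 11, 11, 11, 11, 10, 4, 1, 1]) (qs := [(6, 3), (2, 4), (4, 4), (6, 5), (4, 3), (5,
    5), (2, 0), (4, 6), (2, 1), (3, 0), (1, 2)]) (by norm_num) (by decide +kernel)

theorem e33 : Emp 33 [11, 11, 11, 11, 11, 11, 11, 11, 10, 3, 3] := emp_of_cK (m0 := 11) (ms :=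
    [11, 11, 11, 11, 11, 11, 11, 10, 3, 3]) (qs := [(2, 2), (2, 0), (0, 1), (1, 0), (5, 2), (3,
    1), (5, 6), (1, 6), (1, 1), (5, 4)]) (by norm_num) (by decide +kernel)

theorem e31 : Emp 33 [11, 11, 11, 11, 11, 11, 11, 11, 9, 6, 1] := emp_of_cK (m0 := 11) (ms := [11,
    11, 11, 11, 11, 11, 11, 9, 6, 1]) (qs := [(2, 2), (2, 0), (0, 1), (1, 0), (5, 2), (3, 1), (5,
    6), (1, 6), (1, 1), (5, 4)]) (by norm_num) (by decide +kernel)

theorem e27 : Emp 33 [11, 11, 11, 11, 11, 11, 11, 9, 9, 9] := emp_of_cK (m0 := 11) (ms := [11, 11,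
    11, 11, 11, 11, 9, 9, 9]) (qs := [(3, 2), (4, 6), (2, 5), (5, 2), (3, 5), (0, 5), (2, 6), (4,
    1), (4, 4)]) (by norm_num) (by decide +kernel)

theorem e26 : Emp 33 [11, 11, 11, 11, 11, 11, 10, 10, 10, 8] := emp_of_cK (m0 := 11) (ms := [11,
    11, 11, 11, 11, 10, 10, 10, 8]) (qs := [(3, 2), (4, 6), (2, 5), (5, 2), (3, 5), (0, 5), (2,
    6), (4, 1), (4, 4)]) (by norm_num) (by decide +kernel)

end Pool.Agent.N108.SG.L
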