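import Pool.Agent.N108.SG.Dom

set_option autoImplicit false

/-!
# Certificates of emptiness
-/

namespace Pool.Agent.N108.SG.L

theorem e25 : Emp 33 [11, 11, 11, 11, 11, 11, 10, 10, 9, 9] := emp_of_cK (m0 := 11) (ms := [11,
    11, 11, 11, 11, 10, 10, 9, 9]) (qs := [(3, 2), (4, 6), (2, 5), (5, 2), (3, 5), (0, 5), (2, 6),
    (4, 1), (4, 4)]) (by norm_num) (by decide +kernel)

theorem e24 : Emp 33 [11, 11, 11, 11, 11, 10, 10, 10, 10, 9] := emp_of_cK (m0 := 11) (ms := [11,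
    11, 11, 11, 10, 10, 10, 10, 9]) (qs := [(3, 2), (4, 6), (2, 5), (5, 2), (3, 5), (0, 5), (2,
    6), (4, 1), (4, 4)]) (by norm_num) (by decide +kernel)

theorem e38 : Emp 32 [11, 11, 10, 10, 10, 10, 10, 10, 10, 9] := emp_of_cK (m0 := 11) (ms := [11,
    10, 10, 10, 10, 10, 10, 10, 9]) (qs := [(3, 2), (4, 6), (2, 5), (5, 2), (3, 5), (0, 5), (2,
    6), (4, 1), (4, 4)]) (by norm_num) (by decide +kernel)

theorem e37 : Emp 32 [11, 10, 10, 10, 10, 10, 10, 10, 10, 10] := emp_of_cK (m0 := 11) (ms := [10,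
    10, 10, 10, 10, 10, 10, 10, 10]) (qs := [(2, 6), (6, 3), (5, 6), (6, 0), (3, 3), (3, 2), (3,
    6), (2, 4), (4, 4)]) (by norm_num) (by decide +kernel)

theorem e39 : Emp 32 [12, 10, 10, 10, 10, 10, 10, 10, 10, 9] := emp_of_cK (m0 := 12) (ms := [10,
    10, 10, 10, 10, 10, 10, 10, 9]) (qs := [(3, 2), (4, 6), (2, 5), (5, 2), (3, 5), (0, 5), (2,
    6), (4, 1), (4, 4)]) (by norm_num) (by decide +kernel)

end Pool.Agent.N108.SG.L
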