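import Pool.Agent.N108.SG.Dom

set_option autoImplicit false

/-!
# Certificates of emptiness
-/

namespace Pool.Agent.N108.SG.L

theorem e40 : Emp 31 [10, 10, 10, 10, 10, 10, 10, 10, 9, 9] := emp_of_cK (m0 := 10) (ms := [10,
    10, 10, 10, 10, 10, 10, 9, 9]) (qs := [(3, 2), (4, 6), (2, 5), (5, 2), (3, 5), (0, 5), (2, 6),
    (4, 1), (4, 4)]) (by norm_num) (by decide +kernel)

theorem e44 : Emp 31 [11, 10, 10, 10, 10, 10, 10, 10, 10, 6, 1] := emp_of_cK (m0 := 11) (ms :=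
    [10, 10, 10, 10, 10, 10, 10, 10, 6, 1]) (qs := [(4, 6), (2, 5), (5, 2), (3, 5), (0, 5), (2,
    6), (4, 1), (4, 4), (3, 1), (1, 4)]) (by norm_num) (by decide +kernel)

theorem e42 : Emp 31 [11, 10, 10, 10, 10, 10, 10, 9, 9, 9] := emp_of_cK (m0 := 11) (ms := [10, 10,
    10, 10, 10, 10, 9, 9, 9]) (qs := [(3, 2), (4, 6), (2, 5), (5, 2), (3, 5), (0, 5), (2, 6), (4,
    1), (4, 4)]) (by norm_num) (by decide +kernel)

theorem e53 : Emp 30 [10, 10, 10, 10, 10, 10, 10, 10, 9, 4, 1] := emp_of_cK (m0 := 10) (ms := [10,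
    10, 10, 10, 10, 10, 10, 9, 4, 1]) (qs := [(4, 6), (2, 5), (5, 2), (3, 5), (0, 5), (2, 6), (4,
    1), (4, 4), (3, 1), (1, 4)]) (by norm_num) (by decide +kernel)

theorem e51 : Emp 30 [10, 10, 10, 10, 10, 10, 10, 10, 8, 6] := emp_of_cK (m0 := 10) (ms := [10,
    10, 10, 10, 10, 10, 10, 8, 6]) (qs := [(3, 2), (4, 6), (2, 5), (5, 2), (3, 5), (0, 5), (2, 6),
    (4, 1), (4, 4)]) (by norm_num) (by decide +kernel)

theorem e50 : Emp 30 [10, 10, 10, 10, 10, 10, 10, 10, 7, 7] := emp_of_cK (m0 := 10) (ms := [10,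
    10, 10, 10, 10, 10, 10, 7, 7]) (qs := [(3, 2), (4, 6), (2, 5), (5, 2), (3, 5), (0, 5), (2, 6),
    (4, 1), (4, 4)]) (by norm_num) (by decide +kernel)

end Pool.Agent.N108.SG.L
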