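import Pool.Agent.N108.SG.L1
import Pool.Agent.N108.SG.L2
import Pool.Agent.N108.SG.L3
import Pool.Agent.N108.SG.L4
import Pool.Agent.N108.SG.L5
import Pool.Agent.N108.SG.L6
import Pool.Agent.N108.SG.L7
import Pool.Agent.N108.SG.L8
import Pool.Agent.N108.SG.L9
import Pool.Agent.N108.SG.L10
import Pool.Agent.N108.SG.L11
import Pool.Agent.N108.SG.L12
import Pool.Agent.N108.SG.L13

set_option autoImplicit false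

/-!
# The classes of level at most 5
-/

namespace Pool.Agent.N108.SG.L

open Pool.Agent.N108.SG.Lv

theorem e1 : Emp 57 [19, 19, 19, 19, 19, 19, 19, 19, 18, 6] := emp_add (t := [20, 20, 20, 20, 20,
    20, 20, 20, 19, 6]) e0 (by norm_num) (by decide +kernel)

theorem e2 : Emp 54 [18, 18, 18, 18, 18, 18, 18, 18, 17, 6] := emp_add (t := [19, 19, 19, 19, 19,
    19, 19, 19, 18, 6]) e1 (by norm_num) (by decide +kernel)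

theorem e3 : Emp 51 [17, 17, 17, 17, 17, 17, 17, 17, 16, 6] := emp_add (t := [18, 18, 18, 18, 18,
    18, 18, 18, 17, 6]) e2 (by norm_num) (by decide +kernel)

theorem e4 : Emp 48 [16, 16, 16, 16, 16, 16, 16, 16, 15, 6] := emp_add (t := [17, 17, 17, 17, 17,
    17, 17, 17, 16, 6]) e3 (by norm_num) (by decide +kernel)

theorem e6 : Emp 45 [15, 15, 15, 15, 15, 15, 15, 15, 14, 6] := emp_add (t := [16, 16, 16, 16, 16,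
    16, 16, 16, 15, 6]) e4 (by norm_num) (by decide +kernel)

theorem e11 : Emp 39 [13, 13, 13, 13, 13, 13, 13, 13, 11, 7] := emp_add (t := [14, 14, 14, 14, 14,
    14, 14, 14, 12, 7]) e7 (by norm_num) (by decide +kernel)

theorem e12 : Emp 39 [13, 13, 13, 13, 13, 13, 13, 13, 12, 5] := emp_add (t := [14, 14, 14, 14, 14,
    14, 14, 14, 13, 5]) e8 (by norm_num) (by decide +kernel)

theorem e13 : Emp 37 [13, 12, 12, 12, 12, 12, 12, 12, 12, 7] := emp_add (t := [14, 13, 13, 13, 13,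
    13, 13, 13, 13, 7]) e9 (by norm_num) (by decide +kernel)

theorem e15 : Emp 36 [12, 12, 12, 12, 12, 12, 12, 11, 11, 7] := emp_add (t := [13, 13, 13, 13, 13,
    13, 13, 12, 12, 7]) e10 (by norm_num) (by decide +kernel)

theorem e17 : Emp 36 [12, 12, 12, 12, 12, 12, 12, 12, 10, 7] := emp_add (t := [13, 13, 13, 13, 13,
    13, 13, 13, 11, 7]) e11 (by norm_num) (by decide +kernel)

theorem e19 : Emp 36 [12, 12, 12, 12, 12, 12, 12, 12, 11, 5] := emp_add (t := [13, 13, 13, 13, 13,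
    13, 13, 13, 12, 5]) e12 (by norm_num) (by decide +kernel)

theorem e23 : Emp 34 [12, 11, 11, 11, 11, 11, 11, 11, 11, 7] := emp_add (t := [13, 12, 12, 12, 12,
    12, 12, 12, 12, 7]) e13 (by norm_num) (by decide +kernel)

theorem e28 : Emp 33 [11, 11, 11, 11, 11, 11, 11, 10, 9, 8] := emp_add (t := [12, 12, 12, 12, 12,
    12, 12, 11, 10, 8]) e14 (by norm_num) (by decide +kernel)

theorem e29 : Emp 33 [11, 11, 11, 11, 11, 11, 11, 10, 10, 7] := emp_add (t := [12, 12, 12, 12, 12,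
    12, 12, 11, 11, 7]) e15 (by norm_num) (by decide +kernel)

theorem e30 : Emp 33 [11, 11, 11, 11, 11, 11, 11, 11, 8, 8] := emp_add (t := [12, 12, 12, 12, 12,
    12, 12, 12, 9, 8]) e16 (by norm_num) (by decide +kernel)

theorem e32 : Emp 33 [11, 11, 11, 11, 11, 11, 11, 11, 9, 7] := emp_add (t := [12, 12, 12, 12, 12,
    12, 12, 12, 10, 7]) e17 (by norm_num) (by decide +kernel)

theorem e35 : Emp 33 [11, 11, 11, 11, 11, 11, 11, 11, 10, 4, 2] := emp_add (t := [12, 12, 12, 12,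
    12, 12, 12, 12, 11, 4, 2]) e18 (by norm_num) (by decide +kernel)

theorem e36 : Emp 33 [11, 11, 11, 11, 11, 11, 11, 11, 10, 5] := emp_add (t := [12, 12, 12, 12, 12,
    12, 12, 12, 11, 5]) e19 (by norm_num) (by decide +kernel)

theorem e41 : Emp 31 [10, 10, 10, 10, 10, 10, 10, 10, 10, 8] := emp_add (t := [11, 11, 11, 11, 11,
    11, 11, 11, 11, 8]) e20 (by norm_num) (by decide +kernel)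

theorem e43 : Emp 31 [11, 10, 10, 10, 10, 10, 10, 10, 9, 8] := emp_add (t := [12, 11, 11, 11, 11,
    11, 11, 11, 10, 8]) e22 (by norm_num) (by decide +kernel)

theorem e45 : Emp 31 [11, 10, 10, 10, 10, 10, 10, 10, 10, 7] := emp_add (t := [12, 11, 11, 11, 11,
    11, 11, 11, 11, 7]) e23 (by norm_num) (by decide +kernel)

theorem e46 : Emp 30 [10, 10, 10, 10, 10, 9, 9, 9, 9, 9] := emp_add (t := [11, 11, 11, 11, 11, 10,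
    10, 10, 10, 9]) e24 (by norm_num) (by decide +kernel)

theorem e47 : Emp 30 [10, 10, 10, 10, 10, 10, 9, 9, 9, 8] := emp_add (t := [11, 11, 11, 11, 11,
    11, 10, 10, 10, 8]) e26 (by norm_num) (by decide +kernel)

theorem e48 : Emp 30 [10, 10, 10, 10, 10, 10, 10, 9, 8, 8] := emp_add (t := [11, 11, 11, 11, 11,
    11, 11, 10, 9, 8]) e28 (by norm_num) (by decide +kernel)

theorem e52 : Emp 30 [10, 10, 10, 10, 10, 10, 10, 10, 9, 3, 3] := emp_add (t := [11, 11, 11, 11,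
    11, 11, 11, 11, 10, 3, 3]) e33 (by norm_num) (by decide +kernel)

theorem e54 : Emp 30 [10, 10, 10, 10, 10, 10, 10, 10, 9, 5] := emp_add (t := [11, 11, 11, 11, 11,
    11, 11, 11, 10, 5]) e36 (by norm_num) (by decide +kernel)

theorem e55 : Emp 29 [10, 10, 9, 9, 9, 9, 9, 9, 9, 9] := emp_add (t := [11, 11, 10, 10, 10, 10,
    10, 10, 10, 9]) e38 (by norm_num) (by decide +kernel)

theorem e56 : Emp 29 [11, 9, 9, 9, 9, 9, 9, 9, 9, 9] := emp_add (t := [12, 10, 10, 10, 10, 10, 10,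
    10, 10, 9]) e39 (by norm_num) (by decide +kernel)

theorem e57 : Emp 28 [9, 9, 9, 9, 9, 9, 9, 9, 9, 8] := emp_add (t := [10, 10, 10, 10, 10, 10, 10,
    10, 10, 8]) e41 (by norm_num) (by decide +kernel)

theorem e59 : Emp 28 [10, 9, 9, 9, 9, 9, 9, 9, 8, 8] := emp_add (t := [11, 10, 10, 10, 10, 10, 10,
    10, 9, 8]) e43 (by norm_num) (by decide +kernel)

theorem e64 : Emp 27 [9, 9, 9, 9, 9, 9, 9, 8, 8, 6] := emp_add (t := [10, 10, 10, 10, 10, 10, 10,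
    9, 9, 6]) e49 (by norm_num) (by decide +kernel)

theorem e66 : Emp 27 [9, 9, 9, 9, 9, 9, 9, 9, 7, 6] := emp_add (t := [10, 10, 10, 10, 10, 10, 10,
    10, 8, 6]) e51 (by norm_num) (by decide +kernel)

theorem e68 : Emp 27 [9, 9, 9, 9, 9, 9, 9, 9, 8, 3, 3] := emp_add (t := [10, 10, 10, 10, 10, 10,
    10, 10, 9, 3, 3]) e52 (by norm_num) (by decide +kernel)

theorem e75 : Emp 25 [9, 8, 8, 8, 8, 8, 8, 8, 8, 6] := emp_add (t := [10, 9, 9, 9, 9, 9, 9, 9, 9,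
    6]) e60 (by norm_num) (by decide +kernel)

theorem e76 : Emp 24 [8, 8, 8, 8, 8, 8, 7, 7, 7, 7] := emp_add (t := [9, 9, 9, 9, 9, 9, 8, 8, 8,
    7]) e62 (by norm_num) (by decide +kernel)

theorem e80 : Emp 24 [8, 8, 8, 8, 8, 8, 8, 7, 7, 6] := emp_add (t := [9, 9, 9, 9, 9, 9, 9, 8, 8,
    6]) e64 (by norm_num) (by decide +kernel)

theorem e83 : Emp 24 [8, 8, 8, 8, 8, 8, 8, 8, 6, 6] := emp_add (t := [9, 9, 9, 9, 9, 9, 9, 9, 7,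
    6]) e66 (by norm_num) (by decide +kernel)

theorem e87 : Emp 24 [8, 8, 8, 8, 8, 8, 8, 8, 7, 4] := emp_add (t := [9, 9, 9, 9, 9, 9, 9, 9, 8,
    4]) e69 (by norm_num) (by decide +kernel)

theorem e90 : Emp 22 [7, 7, 7, 7, 7, 7, 7, 7, 7, 7] := emp_add (t := [8, 8, 8, 8, 8, 8, 8, 8, 8,
    7]) e72 (by norm_num) (by decide +kernel)

theorem e95 : Emp 22 [8, 7, 7, 7, 7, 7, 7, 7, 7, 6] := emp_add (t := [9, 8, 8, 8, 8, 8, 8, 8, 8,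
    6]) e75 (by norm_num) (by decide +kernel)

theorem e102 : Emp 21 [7, 7, 7, 7, 7, 7, 7, 7, 5, 4, 3] := emp_add (t := [8, 8, 8, 8, 8, 8, 8, 8,
    6, 4, 3]) e81 (by norm_num) (by decide +kernel)

theorem e105 : Emp 21 [7, 7, 7, 7, 7, 7, 7, 7, 6, 2, 2, 2] := emp_add (t := [8, 8, 8, 8, 8, 8, 8,
    8, 7, 2, 2, 2]) e84 (by norm_num) (by decide +kernel)

theorem e107 : Emp 21 [7, 7, 7, 7, 7, 7, 7, 7, 6, 3, 2] := emp_add (t := [8, 8, 8, 8, 8, 8, 8, 8,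
    7, 3, 2]) e86 (by norm_num) (by decide +kernel)

theorem e108 : Emp 21 [7, 7, 7, 7, 7, 7, 7, 7, 6, 4] := emp_add (t := [8, 8, 8, 8, 8, 8, 8, 8, 7,
    4]) e87 (by norm_num) (by decide +kernel)

theorem e115 : Emp 19 [7, 6, 6, 6, 6, 6, 6, 6, 6, 4, 3] := emp_add (t := [8, 7, 7, 7, 7, 7, 7, 7,
    7, 4, 3]) e93 (by norm_num) (by decide +kernel)

theorem e125 : Emp 18 [6, 6, 6, 6, 6, 6, 6, 5, 5, 5] := emp_add (t := [7, 7, 7, 7, 7, 7, 7, 6, 6,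
    5]) e99 (by norm_num) (by decide +kernel)

theorem e133 : Emp 18 [6, 6, 6, 6, 6, 6, 6, 6, 5, 4] := emp_add (t := [7, 7, 7, 7, 7, 7, 7, 7, 6,
    4]) e108 (by norm_num) (by decide +kernel)

theorem e141 : Emp 16 [6, 5, 5, 5, 5, 5, 5, 5, 4, 4, 4] := emp_add (t := [7, 6, 6, 6, 6, 6, 6, 6,
    5, 4, 4]) e112 (by norm_num) (by decide +kernel)

theorem e146 : Emp 16 [6, 5, 5, 5, 5, 5, 5, 5, 5, 5] := emp_add (t := [7, 6, 6, 6, 6, 6, 6, 6, 6,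
    5]) e116 (by norm_num) (by decide +kernel)

theorem e158 : Emp 15 [5, 5, 5, 5, 5, 5, 5, 5, 3, 3, 3] := emp_add (t := [6, 6, 6, 6, 6, 6, 6, 6,
    4, 3, 3]) e127 (by norm_num) (by decide +kernel)

theorem e176 : Emp 13 [5, 4, 4, 4, 4, 4, 4, 4, 4, 3, 3] := emp_add (t := [6, 5, 5, 5, 5, 5, 5, 5,
    5, 3, 3]) e143 (by norm_num) (by decide +kernel)

theorem e191 : Emp 12 [4, 4, 4, 4, 4, 4, 4, 4, 3, 2, 2] := emp_add (t := [5, 5, 5, 5, 5, 5, 5, 5,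
    4, 2, 2]) e161 (by norm_num) (by decide +kernel)

theorem e192 : Emp 12 [4, 4, 4, 4, 4, 4, 4, 4, 3, 3] := emp_add (t := [5, 5, 5, 5, 5, 5, 5, 5, 4,
    3]) e162 (by norm_num) (by decide +kernel)

/-- The classes. -/
def cl : List (ℕ × List ℕ) := [
  (60, [20, 20, 20, 20, 20, 20, 20, 20, 19, 6]),
  (57, [19, 19, 19, 19, 19, 19, 19, 19, 18, 6]),
  (54, [18, 18, 18, 18, 18, 18, 18, 18, 17, 6]),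
  (51, [17, 17, 17, 17, 17, 17, 17, 17, 16, 6]),
  (48, [16, 16, 16, 16, 16, 16, 16, 16, 15, 6]),
  (45, [15, 15, 15, 15, 15, 15, 15, 15, 14, 5, 1]),
  (45, [15, 15, 15, 15, 15, 15, 15, 15, 14, 6]),
  (42, [14, 14, 14, 14, 14, 14, 14, 14, 12, 7]),
  (42, [14, 14, 14, 14, 14, 14, 14, 14, 13, 5]),
  (40, [14, 13, 13, 13, 13, 13, 13, 13, 13, 7]),
  (39, [13, 13, 13, 13, 13, 13, 13, 12, 12, 7]),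
  (39, [13, 13, 13, 13, 13, 13, 13, 13, 11, 7]),
  (39, [13, 13, 13, 13, 13, 13, 13, 13, 12, 5]),
  (37, [13, 12, 12, 12, 12, 12, 12, 12, 12, 7]),
  (36, [12, 12, 12, 12, 12, 12, 12, 11, 10, 8]),
  (36, [12, 12, 12, 12, 12, 12, 12, 11, 11, 7]),
  (36, [12, 12, 12, 12, 12, 12, 12, 12, 9, 8]),
  (36, [12, 12, 12, 12, 12, 12, 12, 12, 10, 7]),
  (36, [12, 12, 12, 12, 12, 12, 12, 12, 11, 4, 2]),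
  (36, [12, 12, 12, 12, 12, 12, 12, 12, 11, 5]),
  (34, [11, 11, 11, 11, 11, 11, 11, 11, 11, 8]),
  (34, [12, 11, 11, 11, 11, 11, 11, 11, 9, 9]),
  (34, [12, 11, 11, 11, 11, 11, 11, 11, 10, 8]),
  (34, [12, 11, 11, 11, 11, 11, 11, 11, 11, 7]),
  (33, [11, 11, 11, 11, 11, 10, 10, 10, 10, 9]),
  (33, [11, 11, 11, 11, 11, 11, 10, 10, 9, 9]),
  (33, [11, 11, 11, 11, 11, 11, 10, 10, 10, 8]),
  (33, [11, 11, 11, 11, 11, 11, 11, 9, 9, 9]),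
  (33, [11, 11, 11, 11, 11, 11, 11, 10, 9, 8]),
  (33, [11, 11, 11, 11, 11, 11, 11, 10, 10, 7]),
  (33, [11, 11, 11, 11, 11, 11, 11, 11, 8, 8]),
  (33, [11, 11, 11, 11, 11, 11, 11, 11, 9, 6, 1]),
  (33, [11, 11, 11, 11, 11, 11, 11, 11, 9, 7]),
  (33, [11, 11, 11, 11, 11, 11, 11, 11, 10, 3, 3]),
  (33, [11, 11, 11, 11, 11, 11, 11, 11, 10, 4, 1, 1]),
  (33, [11, 11, 11, 11, 11, 11, 11, 11, 10, 4, 2]),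
  (33, [11, 11, 11, 11, 11, 11, 11, 11, 10, 5]),
  (32, [11, 10, 10, 10, 10, 10, 10, 10, 10, 10]),
  (32, [11, 11, 10, 10, 10, 10, 10, 10, 10, 9]),
  (32, [12, 10, 10, 10, 10, 10, 10, 10, 10, 9]),
  (31, [10, 10, 10, 10, 10, 10, 10, 10, 9, 9]),
  (31, [10, 10, 10, 10, 10, 10, 10, 10, 10, 8]),
  (31, [11, 10, 10, 10, 10, 10, 10, 9, 9, 9]),
  (31, [11, 10, 10, 10, 10, 10, 10, 10, 9, 8]),
  (31, [11, 10, 10, 10, 10, 10, 10, 10, 10, 6, 1]),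
  (31, [11, 10, 10, 10, 10, 10, 10, 10, 10, 7]),
  (30, [10, 10, 10, 10, 10, 9, 9, 9, 9, 9]),
  (30, [10, 10, 10, 10, 10, 10, 9, 9, 9, 8]),
  (30, [10, 10, 10, 10, 10, 10, 10, 9, 8, 8]),
  (30, [10, 10, 10, 10, 10, 10, 10, 9, 9, 6]),
  (30, [10, 10, 10, 10, 10, 10, 10, 10, 7, 7]),
  (30, [10, 10, 10, 10, 10, 10, 10, 10, 8, 6]),
  (30, [10, 10, 10, 10, 10, 10, 10, 10, 9, 3, 3]),
  (30, [10, 10, 10, 10, 10, 10, 10, 10, 9, 4, 1]),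
  (30, [10, 10, 10, 10, 10, 10, 10, 10, 9, 5]),
  (29, [10, 10, 9, 9, 9, 9, 9, 9, 9, 9]),
  (29, [11, 9, 9, 9, 9, 9, 9, 9, 9, 9]),
  (28, [9, 9, 9, 9, 9, 9, 9, 9, 9, 8]),
  (28, [10, 9, 9, 9, 9, 9, 9, 9, 8, 7, 1]),
  (28, [10, 9, 9, 9, 9, 9, 9, 9, 8, 8]),
  (28, [10, 9, 9, 9, 9, 9, 9, 9, 9, 6]),
  (27, [9, 9, 9, 9, 9, 8, 8, 8, 8, 8, 1]),
  (27, [9, 9, 9, 9, 9, 9, 8, 8, 8, 7]),
  (27, [9, 9, 9, 9, 9, 9, 9, 8, 7, 7]),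
  (27, [9, 9, 9, 9, 9, 9, 9, 8, 8, 6]),
  (27, [9, 9, 9, 9, 9, 9, 9, 9, 7, 5, 2]),
  (27, [9, 9, 9, 9, 9, 9, 9, 9, 7, 6]),
  (27, [9, 9, 9, 9, 9, 9, 9, 9, 8, 3, 2, 1]),
  (27, [9, 9, 9, 9, 9, 9, 9, 9, 8, 3, 3]),
  (27, [9, 9, 9, 9, 9, 9, 9, 9, 8, 4]),
  (26, [9, 9, 8, 8, 8, 8, 8, 8, 8, 8]),
  (26, [10, 8, 8, 8, 8, 8, 8, 8, 8, 8]),
  (25, [8, 8, 8, 8, 8, 8, 8, 8, 8, 7]),
  (25, [9, 8, 8, 8, 8, 8, 8, 8, 7, 7]),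
  (25, [9, 8, 8, 8, 8, 8, 8, 8, 8, 5, 2]),
  (25, [9, 8, 8, 8, 8, 8, 8, 8, 8, 6]),
  (24, [8, 8, 8, 8, 8, 8, 7, 7, 7, 7]),
  (24, [8, 8, 8, 8, 8, 8, 8, 7, 6, 6, 2]),
  (24, [8, 8, 8, 8, 8, 8, 8, 7, 7, 5, 1, 1]),
  (24, [8, 8, 8, 8, 8, 8, 8, 7, 7, 5, 2]),
  (24, [8, 8, 8, 8, 8, 8, 8, 7, 7, 6]),
  (24, [8, 8, 8, 8, 8, 8, 8, 8, 6, 4, 3]),
  (24, [8, 8, 8, 8, 8, 8, 8, 8, 6, 5, 1]),
  (24, [8, 8, 8, 8, 8, 8, 8, 8, 6, 6]),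
  (24, [8, 8, 8, 8, 8, 8, 8, 8, 7, 2, 2, 2]),
  (24, [8, 8, 8, 8, 8, 8, 8, 8, 7, 3, 1, 1, 1]),
  (24, [8, 8, 8, 8, 8, 8, 8, 8, 7, 3, 2]),
  (24, [8, 8, 8, 8, 8, 8, 8, 8, 7, 4]),
  (23, [9, 7, 7, 7, 7, 7, 7, 7, 7, 7, 2]),
  (22, [7, 7, 7, 7, 7, 7, 7, 7, 7, 6, 2]),
  (22, [7, 7, 7, 7, 7, 7, 7, 7, 7, 7]),
  (22, [8, 7, 7, 7, 7, 7, 7, 7, 6, 6, 1, 1]),
  (22, [8, 7, 7, 7, 7, 7, 7, 7, 6, 6, 2]),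
  (22, [8, 7, 7, 7, 7, 7, 7, 7, 7, 4, 3]),
  (22, [8, 7, 7, 7, 7, 7, 7, 7, 7, 5, 1]),
  (22, [8, 7, 7, 7, 7, 7, 7, 7, 7, 6]),
  (21, [7, 7, 7, 7, 7, 7, 6, 6, 6, 6, 1]),
  (21, [7, 7, 7, 7, 7, 7, 7, 6, 5, 5, 3]),
  (21, [7, 7, 7, 7, 7, 7, 7, 6, 6, 4, 3]),
  (21, [7, 7, 7, 7, 7, 7, 7, 6, 6, 5]),
  (21, [7, 7, 7, 7, 7, 7, 7, 7, 4, 4, 4]),
  (21, [7, 7, 7, 7, 7, 7, 7, 7, 5, 4, 2, 1]),
  (21, [7, 7, 7, 7, 7, 7, 7, 7, 5, 4, 3]),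
  (21, [7, 7, 7, 7, 7, 7, 7, 7, 5, 5]),
  (21, [7, 7, 7, 7, 7, 7, 7, 7, 6, 2, 2, 1, 1]),
  (21, [7, 7, 7, 7, 7, 7, 7, 7, 6, 2, 2, 2]),
  (21, [7, 7, 7, 7, 7, 7, 7, 7, 6, 3, 1, 1]),
  (21, [7, 7, 7, 7, 7, 7, 7, 7, 6, 3, 2]),
  (21, [7, 7, 7, 7, 7, 7, 7, 7, 6, 4]),
  (20, [8, 6, 6, 6, 6, 6, 6, 6, 6, 6, 3]),
  (19, [6, 6, 6, 6, 6, 6, 6, 6, 6, 5, 3]),
  (19, [6, 6, 6, 6, 6, 6, 6, 6, 6, 6]),
  (19, [7, 6, 6, 6, 6, 6, 6, 6, 5, 4, 4]),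
  (19, [7, 6, 6, 6, 6, 6, 6, 6, 5, 5, 3]),
  (19, [7, 6, 6, 6, 6, 6, 6, 6, 6, 4, 2, 1]),
  (19, [7, 6, 6, 6, 6, 6, 6, 6, 6, 4, 3]),
  (19, [7, 6, 6, 6, 6, 6, 6, 6, 6, 5]),
  (18, [6, 6, 6, 6, 6, 5, 5, 5, 5, 5, 4]),
  (18, [6, 6, 6, 6, 6, 6, 5, 5, 5, 4, 4]),
  (18, [6, 6, 6, 6, 6, 6, 5, 5, 5, 5, 2, 1]),
  (18, [6, 6, 6, 6, 6, 6, 5, 5, 5, 5, 3]),
  (18, [6, 6, 6, 6, 6, 6, 6, 5, 4, 4, 4]),
  (18, [6, 6, 6, 6, 6, 6, 6, 5, 5, 3, 3, 1]),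
  (18, [6, 6, 6, 6, 6, 6, 6, 5, 5, 4, 1, 1, 1]),
  (18, [6, 6, 6, 6, 6, 6, 6, 5, 5, 4, 2]),
  (18, [6, 6, 6, 6, 6, 6, 6, 5, 5, 5]),
  (18, [6, 6, 6, 6, 6, 6, 6, 6, 4, 3, 2, 2]),
  (18, [6, 6, 6, 6, 6, 6, 6, 6, 4, 3, 3]),
  (18, [6, 6, 6, 6, 6, 6, 6, 6, 4, 4, 1, 1]),
  (18, [6, 6, 6, 6, 6, 6, 6, 6, 4, 4, 2]),
  (18, [6, 6, 6, 6, 6, 6, 6, 6, 5, 2, 1, 1, 1, 1]),
  (18, [6, 6, 6, 6, 6, 6, 6, 6, 5, 2, 2, 1]),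
  (18, [6, 6, 6, 6, 6, 6, 6, 6, 5, 3, 1]),
  (18, [6, 6, 6, 6, 6, 6, 6, 6, 5, 4]),
  (17, [6, 5, 5, 5, 5, 5, 5, 5, 5, 5, 5]),
  (17, [6, 6, 5, 5, 5, 5, 5, 5, 5, 5, 4]),
  (17, [7, 5, 5, 5, 5, 5, 5, 5, 5, 5, 4]),
  (16, [5, 5, 5, 5, 5, 5, 5, 5, 5, 4, 4]),
  (16, [5, 5, 5, 5, 5, 5, 5, 5, 5, 5, 1, 1, 1]),
  (16, [5, 5, 5, 5, 5, 5, 5, 5, 5, 5, 2]),
  (16, [6, 5, 5, 5, 5, 5, 5, 5, 4, 4, 3, 1]),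
  (16, [6, 5, 5, 5, 5, 5, 5, 5, 4, 4, 4]),
  (16, [6, 5, 5, 5, 5, 5, 5, 5, 5, 3, 2, 2]),
  (16, [6, 5, 5, 5, 5, 5, 5, 5, 5, 3, 3]),
  (16, [6, 5, 5, 5, 5, 5, 5, 5, 5, 4, 1, 1]),
  (16, [6, 5, 5, 5, 5, 5, 5, 5, 5, 4, 2]),
  (16, [6, 5, 5, 5, 5, 5, 5, 5, 5, 5]),
  (15, [5, 5, 5, 5, 5, 4, 4, 4, 4, 4, 4, 1]),
  (15, [5, 5, 5, 5, 5, 5, 4, 4, 4, 4, 2, 2]),
  (15, [5, 5, 5, 5, 5, 5, 4, 4, 4, 4, 3]),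
  (15, [5, 5, 5, 5, 5, 5, 5, 4, 3, 3, 3, 2]),
  (15, [5, 5, 5, 5, 5, 5, 5, 4, 4, 3, 2, 1, 1]),
  (15, [5, 5, 5, 5, 5, 5, 5, 4, 4, 3, 2, 2]),
  (15, [5, 5, 5, 5, 5, 5, 5, 4, 4, 3, 3]),
  (15, [5, 5, 5, 5, 5, 5, 5, 4, 4, 4, 1]),
  (15, [5, 5, 5, 5, 5, 5, 5, 5, 3, 2, 2, 2, 1]),
  (15, [5, 5, 5, 5, 5, 5, 5, 5, 3, 3, 1, 1, 1, 1]),
  (15, [5, 5, 5, 5, 5, 5, 5, 5, 3, 3, 2, 1]),
  (15, [5, 5, 5, 5, 5, 5, 5, 5, 3, 3, 3]),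
  (15, [5, 5, 5, 5, 5, 5, 5, 5, 4, 1, 1, 1, 1, 1, 1]),
  (15, [5, 5, 5, 5, 5, 5, 5, 5, 4, 2, 1, 1, 1]),
  (15, [5, 5, 5, 5, 5, 5, 5, 5, 4, 2, 2]),
  (15, [5, 5, 5, 5, 5, 5, 5, 5, 4, 3]),
  (14, [5, 5, 4, 4, 4, 4, 4, 4, 4, 4, 4]),
  (14, [6, 4, 4, 4, 4, 4, 4, 4, 4, 4, 3, 2]),
  (14, [6, 4, 4, 4, 4, 4, 4, 4, 4, 4, 4]),
  (13, [4, 4, 4, 4, 4, 4, 4, 4, 4, 3, 3, 2]),
  (13, [4, 4, 4, 4, 4, 4, 4, 4, 4, 4, 2, 1, 1]),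
  (13, [4, 4, 4, 4, 4, 4, 4, 4, 4, 4, 2, 2]),
  (13, [4, 4, 4, 4, 4, 4, 4, 4, 4, 4, 3]),
  (13, [5, 4, 4, 4, 4, 4, 4, 3, 3, 3, 3, 3]),
  (13, [5, 4, 4, 4, 4, 4, 4, 4, 3, 3, 3, 1, 1]),
  (13, [5, 4, 4, 4, 4, 4, 4, 4, 3, 3, 3, 2]),
  (13, [5, 4, 4, 4, 4, 4, 4, 4, 4, 2, 2, 2, 1]),
  (13, [5, 4, 4, 4, 4, 4, 4, 4, 4, 3, 1, 1, 1, 1]),
  (13, [5, 4, 4, 4, 4, 4, 4, 4, 4, 3, 2, 1]),
  (13, [5, 4, 4, 4, 4, 4, 4, 4, 4, 3, 3]),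
  (13, [5, 4, 4, 4, 4, 4, 4, 4, 4, 4]),
  (12, [4, 4, 4, 4, 4, 3, 3, 3, 3, 3, 3, 3]),
  (12, [4, 4, 4, 4, 4, 4, 3, 3, 3, 3, 2, 2, 1]),
  (12, [4, 4, 4, 4, 4, 4, 3, 3, 3, 3, 3, 1]),
  (12, [4, 4, 4, 4, 4, 4, 4, 3, 2, 2, 2, 2, 2]),
  (12, [4, 4, 4, 4, 4, 4, 4, 3, 3, 2, 2, 1, 1, 1]),
  (12, [4, 4, 4, 4, 4, 4, 4, 3, 3, 2, 2, 2]),
  (12, [4, 4, 4, 4, 4, 4, 4, 3, 3, 3, 1, 1, 1]),
  (12, [4, 4, 4, 4, 4, 4, 4, 3, 3, 3, 2]),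
  (12, [4, 4, 4, 4, 4, 4, 4, 4, 2, 2, 1, 1, 1, 1, 1]),
  (12, [4, 4, 4, 4, 4, 4, 4, 4, 2, 2, 2, 1, 1]),
  (12, [4, 4, 4, 4, 4, 4, 4, 4, 2, 2, 2, 2]),
  (12, [4, 4, 4, 4, 4, 4, 4, 4, 3, 1, 1, 1, 1, 1]),
  (12, [4, 4, 4, 4, 4, 4, 4, 4, 3, 2, 1, 1]),
  (12, [4, 4, 4, 4, 4, 4, 4, 4, 3, 2, 2]),
  (12, [4, 4, 4, 4, 4, 4, 4, 4, 3, 3]),
  (11, [4, 4, 3, 3, 3, 3, 3, 3, 3, 3, 3, 2, 1]),
  (11, [4, 4, 3, 3, 3, 3, 3, 3, 3, 3, 3, 3]),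
  (11, [5, 3, 3, 3, 3, 3, 3, 3, 3, 3, 2, 2, 2]),
  (11, [5, 3, 3, 3, 3, 3, 3, 3, 3, 3, 3, 1, 1, 1]),
  (11, [5, 3, 3, 3, 3, 3, 3, 3, 3, 3, 3, 2]),
  (10, [3, 3, 3, 3, 3, 3, 3, 3, 3, 2, 2, 2, 2]),
  (10, [3, 3, 3, 3, 3, 3, 3, 3, 3, 3, 2, 1, 1, 1]),
  (10, [3, 3, 3, 3, 3, 3, 3, 3, 3, 3, 2, 2]),
  (10, [3, 3, 3, 3, 3, 3, 3, 3, 3, 3, 3]),
  (10, [4, 3, 3, 3, 3, 3, 3, 3, 2, 2, 2, 2, 1, 1]),
  (10, [4, 3, 3, 3, 3, 3, 3, 3, 2, 2, 2, 2, 2]),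
  (10, [4, 3, 3, 3, 3, 3, 3, 3, 3, 2, 1, 1, 1, 1, 1]),
  (10, [4, 3, 3, 3, 3, 3, 3, 3, 3, 2, 2, 1, 1]),
  (10, [4, 3, 3, 3, 3, 3, 3, 3, 3, 2, 2, 2]),
  (10, [4, 3, 3, 3, 3, 3, 3, 3, 3, 3, 1, 1]),
  (10, [4, 3, 3, 3, 3, 3, 3, 3, 3, 3, 2]),
  (9, [3, 3, 3, 3, 3, 2, 2, 2, 2, 2, 2, 2, 2, 1]),
  (9, [3, 3, 3, 3, 3, 3, 2, 2, 2, 2, 2, 1, 1, 1, 1]),
  (9, [3, 3, 3, 3, 3, 3, 2, 2, 2, 2, 2, 2, 1]),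
  (9, [3, 3, 3, 3, 3, 3, 3, 2, 2, 1, 1, 1, 1, 1, 1, 1]),
  (9, [3, 3, 3, 3, 3, 3, 3, 2, 2, 2, 1, 1, 1, 1]),
  (9, [3, 3, 3, 3, 3, 3, 3, 2, 2, 2, 2, 1]),
  (9, [3, 3, 3, 3, 3, 3, 3, 3, 1, 1, 1, 1, 1, 1, 1]),
  (9, [3, 3, 3, 3, 3, 3, 3, 3, 2, 1, 1, 1, 1]),
  (9, [3, 3, 3, 3, 3, 3, 3, 3, 2, 2, 1]),
  (9, [5, 2, 2, 2, 2, 2, 2, 2, 2, 2, 2, 2, 2, 2, 1]),
  (8, [3, 2, 2, 2, 2, 2, 2, 2, 2, 2, 2, 2, 2, 2]),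
  (8, [3, 3, 2, 2, 2, 2, 2, 2, 2, 2, 2, 2, 1, 1, 1]),
  (8, [3, 3, 2, 2, 2, 2, 2, 2, 2, 2, 2, 2, 2]),
  (8, [4, 2, 2, 2, 2, 2, 2, 2, 2, 2, 2, 1, 1, 1, 1, 1]),
  (8, [4, 2, 2, 2, 2, 2, 2, 2, 2, 2, 2, 2, 1, 1]),
  (8, [4, 2, 2, 2, 2, 2, 2, 2, 2, 2, 2, 2, 2]),
  (7, [2, 2, 2, 2, 2, 2, 2, 2, 2, 2, 1, 1, 1, 1, 1, 1]),
  (7, [2, 2, 2, 2, 2, 2, 2, 2, 2, 2, 2, 1, 1, 1]),
  (7, [2, 2, 2, 2, 2, 2, 2, 2, 2, 2, 2, 2]),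
  (7, [3, 2, 2, 2, 2, 2, 2, 2, 1, 1, 1, 1, 1, 1, 1, 1, 1]),
  (7, [3, 2, 2, 2, 2, 2, 2, 2, 2, 1, 1, 1, 1, 1, 1]),
  (7, [3, 2, 2, 2, 2, 2, 2, 2, 2, 2, 1, 1, 1]),
  (7, [3, 2, 2, 2, 2, 2, 2, 2, 2, 2, 2]),
  (7, [5, 1, 1, 1, 1, 1, 1, 1, 1, 1, 1, 1, 1, 1, 1, 1, 1, 1, 1, 1, 1, 1]),
  (6, [2, 2, 2, 2, 2, 1, 1, 1, 1, 1, 1, 1, 1, 1, 1, 1, 1, 1]),
  (6, [2, 2, 2, 2, 2, 2, 1, 1, 1, 1, 1, 1, 1, 1, 1, 1]),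
  (6, [2, 2, 2, 2, 2, 2, 2, 1, 1, 1, 1, 1, 1, 1]),
  (6, [2, 2, 2, 2, 2, 2, 2, 2, 1, 1, 1, 1]),
  (6, [4, 1, 1, 1, 1, 1, 1, 1, 1, 1, 1, 1, 1, 1, 1, 1, 1, 1, 1]),
  (5, [2, 1, 1, 1, 1, 1, 1, 1, 1, 1, 1, 1, 1, 1, 1, 1, 1, 1, 1]),
  (5, [2, 2, 1, 1, 1, 1, 1, 1, 1, 1, 1, 1, 1, 1, 1, 1, 1]),
  (5, [3, 1, 1, 1, 1, 1, 1, 1, 1, 1, 1, 1, 1, 1, 1, 1]),
  (4, [1, 1, 1, 1, 1, 1, 1, 1, 1, 1, 1, 1, 1, 1, 1]),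
  (4, [2, 1, 1, 1, 1, 1, 1, 1, 1, 1, 1, 1, 1])]

theorem pos_cl : cl.all (fun x => x.2.all fun a => Nat.blt 0 a) = true := by decide +kernel

theorem vd_cl : ∀ x ∈ cl, Vd x :=
  fa_cons ⟨by decide, e0⟩ (
  fa_cons ⟨by decide, e1⟩ (
  fa_cons ⟨by decide, e2⟩ (
  fa_cons ⟨by decide, e3⟩ (
  fa_cons ⟨by decide, e4⟩ (
  fa_cons ⟨by decide, e5⟩ (
  fa_cons ⟨by decide, e6⟩ (
  fa_cons ⟨by decide, e7⟩ (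
  fa_cons ⟨by decide, e8⟩ (
  fa_cons ⟨by decide, e9⟩ (
  fa_cons ⟨by decide, e10⟩ (
  fa_cons ⟨by decide, e11⟩ (
  fa_cons ⟨by decide, e12⟩ (
  fa_cons ⟨by decide, e13⟩ (
  fa_cons ⟨by decide, e14⟩ (
  fa_cons ⟨by decide, e15⟩ (
  fa_cons ⟨by decide, e16⟩ (
  fa_cons ⟨by decide, e17⟩ (
  fa_cons ⟨by decide, e18⟩ (
  fa_cons ⟨by decide, e19⟩ (
  fa_cons ⟨by decide, e20⟩ (
  fa_cons ⟨by decide, e21⟩ (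
  fa_cons ⟨by decide, e22⟩ (
  fa_cons ⟨by decide, e23⟩ (
  fa_cons ⟨by decide, e24⟩ (
  fa_cons ⟨by decide, e25⟩ (
  fa_cons ⟨by decide, e26⟩ (
  fa_cons ⟨by decide, e27⟩ (
  fa_cons ⟨by decide, e28⟩ (
  fa_cons ⟨by decide, e29⟩ (
  fa_cons ⟨by decide, e30⟩ (
  fa_cons ⟨by decide, e31⟩ (
  fa_cons ⟨by decide, e32⟩ (
  fa_cons ⟨by decide, e33⟩ (
  fa_cons ⟨by decide, e34⟩ (
  fa_cons ⟨by decide, e35⟩ (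
  fa_cons ⟨by decide, e36⟩ (
  fa_cons ⟨by decide, e37⟩ (
  fa_cons ⟨by decide, e38⟩ (
  fa_cons ⟨by decide, e39⟩ (
  fa_cons ⟨by decide, e40⟩ (
  fa_cons ⟨by decide, e41⟩ (
  fa_cons ⟨by decide, e42⟩ (
  fa_cons ⟨by decide, e43⟩ (
  fa_cons ⟨by decide, e44⟩ (
  fa_cons ⟨by decide, e45⟩ (
  fa_cons ⟨by decide, e46⟩ (
  fa_cons ⟨by decide, e47⟩ (
  fa_cons ⟨by decide, e48⟩ (
  fa_cons ⟨by decide, e49⟩ (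
  fa_cons ⟨by decide, e50⟩ (
  fa_cons ⟨by decide, e51⟩ (
  fa_cons ⟨by decide, e52⟩ (
  fa_cons ⟨by decide, e53⟩ (
  fa_cons ⟨by decide, e54⟩ (
  fa_cons ⟨by decide, e55⟩ (
  fa_cons ⟨by decide, e56⟩ (
  fa_cons ⟨by decide, e57⟩ (
  fa_cons ⟨by decide, e58⟩ (
  fa_cons ⟨by decide, e59⟩ (
  fa_cons ⟨by decide, e60⟩ (
  fa_cons ⟨by decide, e61⟩ (
  fa_cons ⟨by decide, e62⟩ (
  fa_cons ⟨by decide, e63⟩ (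
  fa_cons ⟨by decide, e64⟩ (
  fa_cons ⟨by decide, e65⟩ (
  fa_cons ⟨by decide, e66⟩ (
  fa_cons ⟨by decide, e67⟩ (
  fa_cons ⟨by decide, e68⟩ (
  fa_cons ⟨by decide, e69⟩ (
  fa_cons ⟨by decide, e70⟩ (
  fa_cons ⟨by decide, e71⟩ (
  fa_cons ⟨by decide, e72⟩ (
  fa_cons ⟨by decide, e73⟩ (
  fa_cons ⟨by decide, e74⟩ (
  fa_cons ⟨by decide, e75⟩ (
  fa_cons ⟨by decide, e76⟩ (
  fa_cons ⟨by decide, e77⟩ (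
  fa_cons ⟨by decide, e78⟩ (
  fa_cons ⟨by decide, e79⟩ (
  fa_cons ⟨by decide, e80⟩ (
  fa_cons ⟨by decide, e81⟩ (
  fa_cons ⟨by decide, e82⟩ (
  fa_cons ⟨by decide, e83⟩ (
  fa_cons ⟨by decide, e84⟩ (
  fa_cons ⟨by decide, e85⟩ (
  fa_cons ⟨by decide, e86⟩ (
  fa_cons ⟨by decide, e87⟩ (
  fa_cons ⟨by decide, e88⟩ (
  fa_cons ⟨by decide, e89⟩ (
  fa_cons ⟨by decide, e90⟩ (
  fa_cons ⟨by decide, e91⟩ (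
  fa_cons ⟨by decide, e92⟩ (
  fa_cons ⟨by decide, e93⟩ (
  fa_cons ⟨by decide, e94⟩ (
  fa_cons ⟨by decide, e95⟩ (
  fa_cons ⟨by decide, e96⟩ (
  fa_cons ⟨by decide, e97⟩ (
  fa_cons ⟨by decide, e98⟩ (
  fa_cons ⟨by decide, e99⟩ (
  fa_cons ⟨by decide, e100⟩ (
  fa_cons ⟨by decide, e101⟩ (
  fa_cons ⟨by decide, e102⟩ (
  fa_cons ⟨by decide, e103⟩ (
  fa_cons ⟨by decide, e104⟩ (
  fa_cons ⟨by decide, e105⟩ (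
  fa_cons ⟨by decide, e106⟩ (
  fa_cons ⟨by decide, e107⟩ (
  fa_cons ⟨by decide, e108⟩ (
  fa_cons ⟨by decide, e109⟩ (
  fa_cons ⟨by decide, e110⟩ (
  fa_cons ⟨by decide, e111⟩ (
  fa_cons ⟨by decide, e112⟩ (
  fa_cons ⟨by decide, e113⟩ (
  fa_cons ⟨by decide, e114⟩ (
  fa_cons ⟨by decide, e115⟩ (
  fa_cons ⟨by decide, e116⟩ (
  fa_cons ⟨by decide, e117⟩ (
  fa_cons ⟨by decide, e118⟩ (
  fa_cons ⟨by decide, e119⟩ (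
  fa_cons ⟨by decide, e120⟩ (
  fa_cons ⟨by decide, e121⟩ (
  fa_cons ⟨by decide, e122⟩ (
  fa_cons ⟨by decide, e123⟩ (
  fa_cons ⟨by decide, e124⟩ (
  fa_cons ⟨by decide, e125⟩ (
  fa_cons ⟨by decide, e126⟩ (
  fa_cons ⟨by decide, e127⟩ (
  fa_cons ⟨by decide, e128⟩ (
  fa_cons ⟨by decide, e129⟩ (
  fa_cons ⟨by decide, e130⟩ (
  fa_cons ⟨by decide, e131⟩ (
  fa_cons ⟨by decide, e132⟩ (
  fa_cons ⟨by decide, e133⟩ (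
  fa_cons ⟨by decide, e134⟩ (
  fa_cons ⟨by decide, e135⟩ (
  fa_cons ⟨by decide, e136⟩ (
  fa_cons ⟨by decide, e137⟩ (
  fa_cons ⟨by decide, e138⟩ (
  fa_cons ⟨by decide, e139⟩ (
  fa_cons ⟨by decide, e140⟩ (
  fa_cons ⟨by decide, e141⟩ (
  fa_cons ⟨by decide, e142⟩ (
  fa_cons ⟨by decide, e143⟩ (
  fa_cons ⟨by decide, e144⟩ (
  fa_cons ⟨by decide, e145⟩ (
  fa_cons ⟨by decide, e146⟩ (
  fa_cons ⟨by decide, e147⟩ (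
  fa_cons ⟨by decide, e148⟩ (
  fa_cons ⟨by decide, e149⟩ (
  fa_cons ⟨by decide, e150⟩ (
  fa_cons ⟨by decide, e151⟩ (
  fa_cons ⟨by decide, e152⟩ (
  fa_cons ⟨by decide, e153⟩ (
  fa_cons ⟨by decide, e154⟩ (
  fa_cons ⟨by decide, e155⟩ (
  fa_cons ⟨by decide, e156⟩ (
  fa_cons ⟨by decide, e157⟩ (
  fa_cons ⟨by decide, e158⟩ (
  fa_cons ⟨by decide, e159⟩ (
  fa_cons ⟨by decide, e160⟩ (
  fa_cons ⟨by decide, e161⟩ (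
  fa_cons ⟨by decide, e162⟩ (
  fa_cons ⟨by decide, e163⟩ (
  fa_cons ⟨by decide, e164⟩ (
  fa_cons ⟨by decide, e165⟩ (
  fa_cons ⟨by decide, e166⟩ (
  fa_cons ⟨by decide, e167⟩ (
  fa_cons ⟨by decide, e168⟩ (
  fa_cons ⟨by decide, e169⟩ (
  fa_cons ⟨by decide, e170⟩ (
  fa_cons ⟨by decide, e171⟩ (
  fa_cons ⟨by decide, e172⟩ (
  fa_cons ⟨by decide, e173⟩ (
  fa_cons ⟨by decide, e174⟩ (
  fa_cons ⟨by decide, e175⟩ (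
  fa_cons ⟨by decide, e176⟩ (
  fa_cons ⟨by decide, e177⟩ (
  fa_cons ⟨by decide, e178⟩ (
  fa_cons ⟨by decide, e179⟩ (
  fa_cons ⟨by decide, e180⟩ (
  fa_cons ⟨by decide, e181⟩ (
  fa_cons ⟨by decide, e182⟩ (
  fa_cons ⟨by decide, e183⟩ (
  fa_cons ⟨by decide, e184⟩ (
  fa_cons ⟨by decide, e185⟩ (
  fa_cons ⟨by decide, e186⟩ (
  fa_cons ⟨by decide, e187⟩ (
  fa_cons ⟨by decide, e188⟩ (
  fa_cons ⟨by decide, e189⟩ (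
  fa_cons ⟨by decide, e190⟩ (
  fa_cons ⟨by decide, e191⟩ (
  fa_cons ⟨by decide, e192⟩ (
  fa_cons ⟨by decide, e193⟩ (
  fa_cons ⟨by decide, e194⟩ (
  fa_cons ⟨by decide, e195⟩ (
  fa_cons ⟨by decide, e196⟩ (
  fa_cons ⟨by decide, e197⟩ (
  fa_cons ⟨by decide, e198⟩ (
  fa_cons ⟨by decide, e199⟩ (
  fa_cons ⟨by decide, e200⟩ (
  fa_cons ⟨by decide, e201⟩ (
  fa_cons ⟨by decide, e202⟩ (
  fa_cons ⟨by decide, e203⟩ (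
  fa_cons ⟨by decide, e204⟩ (
  fa_cons ⟨by decide, e205⟩ (
  fa_cons ⟨by decide, e206⟩ (
  fa_cons ⟨by decide, e207⟩ (
  fa_cons ⟨by decide, e208⟩ (
  fa_cons ⟨by decide, e209⟩ (
  fa_cons ⟨by decide, e210⟩ (
  fa_cons ⟨by decide, e211⟩ (
  fa_cons ⟨by decide, e212⟩ (
  fa_cons ⟨by decide, e213⟩ (
  fa_cons ⟨by decide, e214⟩ (
  fa_cons ⟨by decide, e215⟩ (
  fa_cons ⟨by decide, e216⟩ (
  fa_cons ⟨by decide, e217⟩ (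
  fa_cons ⟨by decide, e218⟩ (
  fa_cons ⟨by decide, e219⟩ (
  fa_cons ⟨by decide, e220⟩ (
  fa_cons ⟨by decide, e221⟩ (
  fa_cons ⟨by decide, e222⟩ (
  fa_cons ⟨by decide, e223⟩ (
  fa_cons ⟨by decide, e224⟩ (
  fa_cons ⟨by decide, e225⟩ (
  fa_cons ⟨by decide, e226⟩ (
  fa_cons ⟨by decide, e227⟩ (
  fa_cons ⟨by decide, e228⟩ (
  fa_cons ⟨by decide, e229⟩ (
  fa_cons ⟨by decide, e230⟩ (
  fa_cons ⟨by decide, e231⟩ (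
  fa_cons ⟨by decide, e232⟩ (
  fa_cons ⟨by decide, e233⟩ (
  fa_cons ⟨by decide, e234⟩ (
  fa_cons ⟨by decide, e235⟩ (
  fa_cons ⟨by decide, e236⟩ (
  fa_cons ⟨by decide, e237⟩ (
  fa_cons ⟨by decide, e238⟩ (
  fa_cons ⟨by decide, e239⟩ (
  fa_cons ⟨by decide, e240⟩ (
  fa_cons ⟨by decide, e241⟩ (
  fa_cons ⟨by decide, e242⟩ (
  fa_nil)))))))))))))))))))))))))))))))))))))))))))))))))))))))))))))))))))))))))))))))))))))))))))))))))))))))))))))))))))))))))))))))))))))))))))))))))))))))))))))))))))))))))))))))))))))))))))))))))))))))))))))))))))))))))))))))))))))))))))))))))))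

theorem emptyLevel_2 : EmptyLevel 2 :=
  emptyLevel_of_list (c := 2) (n := 31) (by norm_num) cl vd_cl (by norm_num) (by decide +kernel)

theorem emptyLevel_3 : EmptyLevel 3 :=
  emptyLevel_of_list (c := 3) (n := 51) (by norm_num) cl vd_cl (by norm_num) (by decide +kernel)

theorem emptyLevel_4 : EmptyLevel 4 :=
  emptyLevel_of_list (c := 4) (n := 74) (by norm_num) cl vd_cl (by norm_num) (by decide +kernel)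

theorem emptyLevel_5 : EmptyLevel 5 :=
  emptyLevel_of_list (c := 5) (n := 100) (by norm_num) cl vd_cl (by norm_num) (by decide +kernel)

end Pool.Agent.N108.SG.L
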