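import Pool.Agent.N108.SG.Rows

set_option autoImplicit false

/-!
# From characteristic seven to general points
-/

namespace Pool.Agent.N108.SG

open MvPolynomial

theorem lift_ker {R k K : Type} [CommRing R] [Field k] [Field K] (ψ : R →+* k)
    (hψ : Function.Surjective ψ) (φ : R →+* K) (hφ : Function.Injective φ) {m n : Type}
    [Fintype m] [Fintype n] [DecidableEq m] [DecidableEq n] (A : Matrix m n R)
    (h : ∀ x, (A.map ψ).mulVec x = 0 → x = 0) : ∀ x, (A.map φ).mulVec x = 0 → x = 0 := by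
  have hker : LinearMap.ker (A.map ψ).mulVecLin = ⊥ := by
    rw [LinearMap.ker_eq_bot']
    exact h
  obtain ⟨g, hg⟩ := LinearMap.exists_leftInverse_of_injective _ hker
  obtain ⟨B, hB⟩ : ∃ B : Matrix n m k, B * (A.map ψ) = 1 := by
    refine ⟨LinearMap.toMatrix' g, ?_⟩
    have h1 : LinearMap.toMatrix' (g ∘ₗ (A.map ψ).mulVecLin) = 1 := by
      rw [hg]
      exact LinearMap.toMatrix'_id
    rw [LinearMap.toMatrix'_comp] at h1
    have h2 : LinearMap.toMatrix' (A.map ψ).mulVecLin = A.map ψ := by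
      rw [← Matrix.toLin'_apply']
      exact LinearMap.toMatrix'_toLin' _
    rw [h2] at h1
    exact h1
  obtain ⟨B', hB'⟩ : ∃ B' : Matrix n m R, B'.map ψ = B := by
    refine ⟨Matrix.of fun i j => Function.surjInv hψ (B i j), ?_⟩
    ext i j
    simp [Function.surjInv_eq]
  have h1 : ψ (B' * A).det = 1 := by
    rw [RingHom.map_det, RingHom.mapMatrix_apply, Matrix.map_mul, hB', hB, Matrix.det_one]
  have h2 : (B' * A).det ≠ 0 := by
    intro h0
    rw [h0, map_zero] at h1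
    exact zero_ne_one h1
  have h3 : ((B'.map φ) * (A.map φ)).det ≠ 0 := by
    rw [← Matrix.map_mul]
    have : φ (B' * A).det = ((B' * A).map φ).det := by
      rw [RingHom.map_det, RingHom.mapMatrix_apply]
    rw [← this]
    intro h0
    exact h2 (hφ (by rw [h0, map_zero]))
  intro x hx
  refine Matrix.eq_zero_of_mulVec_eq_zero h3 ?_
  rw [← Matrix.mulVec_mulVec, hx, Matrix.mulVec_zero]

/-- The exponents of the columns. -/
def Tx (d : ℕ) : Finset (Σ _ : ℕ, ℕ) := (Finset.range (d + 1)).sigma fun a => Finset.range (d + 1 - a)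

/-- The matrix of the conditions over a ring containing the coordinates. -/
def cmx {R : Type} [CommRing R] {s : ℕ} (d : ℕ) (w : Fin s → ℕ) (p q : Fin s → R) :
    Matrix (Σ j : Fin s, Fin (w j) × Fin (w j)) (Tx d) R :=
  Matrix.of fun r t => if (r.2.1 : ℕ) + r.2.2 < w r.1 then
    ((t.1.1.choose r.2.1 : R) * p r.1 ^ (t.1.1 - r.2.1) *
      ((t.1.2.choose r.2.2 : R) * q r.1 ^ (t.1.2 - r.2.2))) else 0

theorem cmx_map {R S : Type} [CommRing R] [CommRing S] (φ : R →+* S) {s : ℕ} (d : ℕ)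
    (w : Fin s → ℕ) (p q : Fin s → R) :
    (cmx d w p q).map φ = cmx d w (fun j => φ (p j)) (fun j => φ (q j)) := by
  ext r t
  unfold cmx
  rw [Matrix.map_apply, Matrix.of_apply, Matrix.of_apply]
  split_ifs
  · simp
  · simp

theorem cmx_ker {R : Type} [CommRing R] {s : ℕ} (d : ℕ) (w : Fin s → ℕ) (p q : Fin s → R)
    (c : ℕ → ℕ → R) :
    (cmx d w p q).mulVec (fun t => c t.1.1 t.1.2) = 0 ↔ ∀ j, Cond d (p j) (q j) (w j) c := by
  have key : ∀ (j : Fin s) (i l : ℕ), (∑ t : Tx d, ((t.1.1.choose i : R) * p j ^ (t.1.1 - i) *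
      ((t.1.2.choose l : R) * q j ^ (t.1.2 - l))) * c t.1.1 t.1.2) =
      ∑ a ∈ Finset.range (d + 1), ∑ b ∈ Finset.range (d + 1 - a),
        c a b * ((a.choose i : R) * p j ^ (a - i) * ((b.choose l : R) * q j ^ (b - l))) := by
    intro j i l
    rw [Finset.sum_coe_sort (Tx d) fun t => ((t.1.choose i : R) * p j ^ (t.1 - i) *
      ((t.2.choose l : R) * q j ^ (t.2 - l))) * c t.1 t.2]
    unfold Tx
    rw [Finset.sum_sigma]
    exact Finset.sum_congr rfl fun a _ => Finset.sum_congr rfl fun b _ => mul_comm _ _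
  constructor
  · intro h j i l hil
    have h1 := congrFun h ⟨j, ⟨i, by omega⟩, ⟨l, by omega⟩⟩
    rw [← key]
    simpa [Matrix.mulVec, dotProduct, cmx, hil] using h1
  · intro h
    funext ⟨j, i, l⟩
    by_cases hil : (i : ℕ) + l < w j
    · have h1 := h j i l hil
      rw [← key] at h1
      simpa [Matrix.mulVec, dotProduct, cmx, hil] using h1
    · simp [Matrix.mulVec, dotProduct, cmx, hil]

theorem mem_Tx {d a b : ℕ} : (⟨a, b⟩ : Σ _ : ℕ, ℕ) ∈ Tx d ↔ a + b ≤ d := by
  simp only [Tx, Finset.mem_sigma, Finset.mem_range]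
  omega

/-- The lift to general points. -/
theorem cond_lift {s d : ℕ} {w : Fin s → ℕ} (x y : Fin s → ℤ)
    (h : ∀ c : ℕ → ℕ → ZMod 7, (∀ j, Cond d (x j : ZMod 7) (y j : ZMod 7) (w j) c) →
      ∀ a b, a + b ≤ d → c a b = 0)
    {K : Type} [Field K] [CharZero K] {P : Fin s → Fin 2 → K}
    (hP : AlgebraicIndependent ℚ (fun ij : Fin s × Fin 2 => P ij.1 ij.2)) {c : ℕ → ℕ → K}
    (hc : ∀ j, Cond d (P j 0) (P j 1) (w j) c) : ∀ a b, a + b ≤ d → c a b = 0 := by
  classical
  have : Fact (Nat.Prime 7) := ⟨by norm_num⟩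
  obtain ⟨ψ, hψ⟩ : ∃ ψ : MvPolynomial (Fin s × Fin 2) ℤ →+* ZMod 7,
      ψ = MvPolynomial.eval₂Hom (Int.castRingHom (ZMod 7))
        (fun ij => if ij.2 = 0 then (x ij.1 : ZMod 7) else (y ij.1 : ZMod 7)) := ⟨_, rfl⟩
  obtain ⟨φ, hφ⟩ : ∃ φ : MvPolynomial (Fin s × Fin 2) ℤ →+* K,
      φ = (MvPolynomial.aeval (R := ℤ) (fun ij : Fin s × Fin 2 => P ij.1 ij.2)).toRingHom :=
    ⟨_, rfl⟩
  have hψs : Function.Surjective ψ := by
    intro z
    obtain ⟨n, hn⟩ := ZMod.intCast_surjective z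
    refine ⟨MvPolynomial.C n, ?_⟩
    rw [hψ]
    simp [hn]
  have hφi : Function.Injective φ := by
    have h1 : AlgebraicIndependent ℤ (fun ij : Fin s × Fin 2 => P ij.1 ij.2) :=
      hP.restrictScalars (R := ℤ) Int.cast_injective
    rw [hφ]
    exact h1
  have hker := lift_ker ψ hψs φ hφi
    (cmx d w (fun j => MvPolynomial.X (j, 0)) (fun j => MvPolynomial.X (j, 1))) (by
      intro v hv
      obtain ⟨c', hc'⟩ : ∃ c' : ℕ → ℕ → ZMod 7, c' = fun a b =>
        if hab : (⟨a, b⟩ : Σ _ : ℕ, ℕ) ∈ Tx d then v ⟨⟨a, b⟩, hab⟩ else 0 := ⟨_, rfl⟩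
      have hv' : v = fun t : Tx d => c' t.1.1 t.1.2 := by
        funext t
        rw [hc']
        simp only
        rw [dif_pos t.2]
      rw [cmx_map, hv', cmx_ker] at hv
      have h2 := h c' (fun j => by
        have := hv j
        rw [hψ] at this
        simpa using this)
      funext t
      rw [hv']
      exact h2 _ _ (mem_Tx.1 t.2))
  have h3 := hker (fun t => c t.1.1 t.1.2) (by
    rw [cmx_map, cmx_ker]
    intro j
    have := hc j
    rw [hφ]
    simpa using this)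
  intro a b hab
  exact congrFun h3 ⟨⟨a, b⟩, mem_Tx.2 hab⟩

end Pool.Agent.N108.SG
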