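import Pool.Agent.R355.CanDeg3
import Pool.Agent.TH167.TT.NonSp
import Pool.Agent.TH167.SH.Conv
import Pool.Agent.H932R3.Finals

set_option autoImplicit false

/-!
# Standard classes of given level: finiteness
-/

namespace Pool.Agent.N108.SG.Lv

open MvPolynomial Pool.Agent.W609 Pool.Agent.W609.CR Pool.Agent.TH167 Pool.Agent.TH167.SH
open Pool.Agent.R355.CanDeg (red_three red_sum exists_top main_ineq all_eq deg_le red_sum' shape_mem)
open Pool.Agent.H932R3 (ExpDim)

/-- Generic complex points (as in the starting library). -/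
theorem exists_indep (ι : Type) [Finite ι] : ∃ f : ι → ℂ, AlgebraicIndependent ℚ f := by
  obtain ⟨s, hs⟩ := exists_isTranscendenceBasis ℚ ℂ
  have h1 := IsAlgClosed.cardinal_eq_cardinal_transcendence_basis_of_aleph0_lt
    (R := ℚ) (K := ℂ) (fun x : s => (x : ℂ)) hs
    (by simp) (by rw [Cardinal.mk_complex]; exact Cardinal.aleph0_lt_continuum)
  have h2 : Infinite s := by
    rw [Cardinal.infinite_iff]
    have : Cardinal.mk s = Cardinal.mk ℂ := by simpa using h1.symm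
    rw [this, Cardinal.mk_complex]; exact Cardinal.aleph0_le_continuum
  obtain ⟨n, ⟨e⟩⟩ := Finite.exists_equiv_fin ι
  have e2 : Fin n ↪ s := (Fin.valEmbedding.trans (Infinite.natEmbedding s))
  exact ⟨fun i => (e2 (e i) : ℂ), hs.1.comp (fun i => e2 (e i)) (e2.injective.comp e.injective)⟩

/-- The three largest values. -/
theorem top_three {n : ℕ} (hn : 3 ≤ n) (y : Fin n → ℝ) : ∃ a b c : Fin n, a ≠ b ∧ a ≠ c ∧ b ≠ c ∧
    (∀ l, y l ≤ y a) ∧ (∀ l, l ≠ a → y l ≤ y b) ∧ ∀ l, l ≠ a → l ≠ b → y l ≤ y c := by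
  classical
  obtain ⟨a, -, ha⟩ := Finset.exists_max_image Finset.univ y
    ⟨⟨0, by omega⟩, Finset.mem_univ _⟩
  have h1 : (Finset.univ.erase a).Nonempty := by
    rw [← Finset.card_pos, Finset.card_erase_of_mem (Finset.mem_univ a), Finset.card_univ,
      Fintype.card_fin]
    omega
  obtain ⟨b, hb0, hb⟩ := Finset.exists_max_image _ y h1
  have hba := Finset.ne_of_mem_erase hb0
  have h2 : ((Finset.univ.erase a).erase b).Nonempty := by
    rw [← Finset.card_pos, Finset.card_erase_of_mem hb0,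
      Finset.card_erase_of_mem (Finset.mem_univ a), Finset.card_univ, Fintype.card_fin]
    omega
  obtain ⟨c, hc0, hc⟩ := Finset.exists_max_image _ y h2
  have hcb := Finset.ne_of_mem_erase hc0
  have hca := Finset.ne_of_mem_erase (Finset.mem_of_mem_erase hc0)
  exact ⟨a, b, c, hba.symm, hca.symm, hcb.symm, fun l => ha l (Finset.mem_univ l),
    fun l hl => hb l (Finset.mem_erase.2 ⟨hl, Finset.mem_univ l⟩),
    fun l hl hl' => hc l (Finset.mem_erase.2 ⟨hl', Finset.mem_erase.2 ⟨hl, Finset.mem_univ l⟩⟩)⟩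

theorem expDim_iff {K : Type} [Field K] {s : ℕ} (P : Fin s → Fin 2 → K) (d : ℕ) (w : Fin s → ℕ) :
    ExpDim K w P d ↔
      (Module.finrank K ↥(VS (fun j => aff (P j)) w d) : ℤ) = max 0 (chi d w) := by
  have h1 : ExpDim K w P d ↔ Module.finrank K ↥(VS (fun j => aff (P j)) w d) =
      Nat.choose (d + 2) 2 - ∑ i, Nat.choose (w i + 1) 2 := by
    rw [← sys_eq]
    exact Iff.rfl
  have h2 : chi d w = ((d + 2).choose 2 : ℤ) - ((∑ i, (w i + 1).choose 2 : ℕ) : ℤ) := by
    unfold chi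
    push_cast
    rfl
  rw [h1, h2]
  omega

/-- From generic points to an open set. -/
theorem to_open {n : ℕ} {d : ℕ} {w : Fin n → ℕ}
    (h : ∀ {K : Type} [Field K] [CharZero K] {P : Fin n → Fin 2 → K},
      AlgebraicIndependent ℚ (fun ij : Fin n × Fin 2 => P ij.1 ij.2) → ExpDim K w P d) :
    ∃ F : MvPolynomial (Fin n × Fin 2) ℚ, F ≠ 0 ∧ ∀ {L : Type} [Field L] [CharZero L]
      (P : Fin n → Fin 2 → L),
      MvPolynomial.aeval (fun ij : Fin n × Fin 2 => P ij.1 ij.2) F ≠ 0 → ExpDim L w P d := by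
  obtain ⟨g, F, hF, hF'⟩ := dim_gen w d
  obtain ⟨K, _, _, P0, hP0⟩ := exists_generic n
  have h1 := h hP0
  rw [expDim_iff, hF' K P0 fun h0 => hF (hP0.eq_zero_of_aeval_eq_zero F h0)] at h1
  refine ⟨F, hF, fun {L} _ _ P hP => ?_⟩
  rw [expDim_iff, hF' L P hP]
  exact h1

theorem numg {a c t m e σ σ2 : ℤ} (ha : a ≤ c - 2) (hc : 1 ≤ c) (ht : 1 ≤ t)
    (hm : 0 ≤ m) (hσ : σ = t + c) (hmain : 2 * m * t ≤ a + σ2) (h1 : σ ≤ σ2) (h2 : σ2 ≤ m * σ)
    (h22 : σ2 ≤ σ ^ 2) (he : e ≤ 3 * (m + t)) :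
    2 ≤ c ∧ σ ≤ 3 * c - 2 ∧ 2 * e ≤ 3 * c ^ 2 + 25 * c := by
  have hm1 : 1 ≤ m := by
    by_contra h
    have hm0 : m = 0 := by omega
    subst hm0
    rw [zero_mul] at h2
    linarith
  have h3 : m * (t - c) ≤ c - 2 := by
    have : m * (2 * t - σ) ≤ a := by linarith
    have e1 : 2 * t - σ = t - c := by linarith
    rw [e1] at this
    linarith
  have hc2 : 2 ≤ c := by
    by_contra h
    have hc1 : c = 1 := by omega
    subst hc1
    have : 0 ≤ m * (t - 1) := mul_nonneg hm (by linarith)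
    linarith
  have h4 : t ≤ 2 * c - 2 := by
    by_contra h
    push Not at h
    have h5 : 1 * (t - c) ≤ m * (t - c) := mul_le_mul_of_nonneg_right hm1 (by linarith)
    linarith
  refine ⟨hc2, by linarith, ?_⟩
  have h6 : 2 * e * t ≤ 3 * (c - 2 + (t + c) ^ 2) + 6 * t ^ 2 := by
    have h7 : 2 * e * t ≤ 6 * (m + t) * t := by nlinarith
    rw [hσ] at h22
    nlinarith
  have h7 : 2 * e * t ≤ (3 * c ^ 2 + 25 * c) * t := by
    have h8 : 0 ≤ 9 * ((t - 1) * (2 * c - 2 - t)) :=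
      mul_nonneg (by norm_num) (mul_nonneg (by linarith) (by linarith))
    have h9 : 0 ≤ (3 * c ^ 2 + c + 9) * (t - 1) := mul_nonneg (by nlinarith) (by linarith)
    nlinarith
  exact le_of_mul_le_mul_right h7 (by linarith)

/-- The classes of level `c`, but the multiples of `-K` with further multiplicities. -/
theorem level_finite {r : ℕ} {e : ℕ} {u : Fin (r + 4) → ℕ} (hred : Reduced e u) {c : ℤ}
    (hc : 1 ≤ c) (hcc : kk e u = -c) (hχ : chi e u ≤ 0) :
    (2 ≤ c ∧ 2 * (e : ℤ) ≤ 3 * c ^ 2 + 25 * c ∧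
      ((Finset.univ.filter fun j => u j ≠ 0).card : ℤ) ≤ 3 * c + 7) ∨
    ∃ (T : Finset (Fin (r + 4))) (m : ℕ), T.card = 9 ∧ e = 3 * m ∧ ∀ i ∈ T, u i = m := by
  classical
  have hs : 9 ≤ r + 4 := by
    by_contra hcon
    have h1 := red_sum' hred 3 Finset.univ (by
      rw [Finset.card_univ, Fintype.card_fin]
      omega)
    have h2 : ∑ j, (u j : ℤ) ≤ 3 * e := by exact_mod_cast h1
    unfold kk at hcc
    linarith
  obtain ⟨T, hT, htop⟩ := exists_top u 9 hs
  have hTne : T.Nonempty := by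
    rw [← Finset.card_pos]
    omega
  obtain ⟨i0, hi0, hmin⟩ := Finset.exists_min_image T u hTne
  have hTs : ∑ i ∈ T, u i ≤ 3 * e := red_sum hred 3 T (by rw [hT])
  have hmain := main_ineq hred hT hi0 hmin hTs
  obtain ⟨t, ht⟩ : ∃ t, ∑ i ∈ T, u i + t = 3 * e := ⟨3 * e - ∑ i ∈ T, u i, by omega⟩
  rcases Nat.eq_zero_or_pos t with ht0 | ht0
  · right
    obtain ⟨m, hm1, hm2⟩ := all_eq hred hT (by omega)
    exact ⟨T, m, hT, hm1, hm2⟩
  left
  have htZ : ∑ i ∈ T, (u i : ℤ) + t = 3 * e := by exact_mod_cast ht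
  obtain ⟨a, ha⟩ : ∃ a, a = ip e u e u := ⟨_, rfl⟩
  have ha2 : a ≤ c - 2 := by
    have := two_chi e u
    omega
  have hsum : ∑ i ∈ T, (u i : ℤ) + ∑ j ∈ Tᶜ, (u j : ℤ) = 3 * e + c := by
    rw [Finset.sum_add_sum_compl]
    unfold kk at hcc
    linarith
  have hsq : ∑ i ∈ T, (u i : ℤ) ^ 2 + ∑ j ∈ Tᶜ, (u j : ℤ) ^ 2 = (e : ℤ) ^ 2 - a := by
    rw [Finset.sum_add_sum_compl]
    unfold ip at ha
    have : ∑ j, (u j : ℤ) ^ 2 = ∑ j, (u j : ℤ) * u j := Finset.sum_congr rfl fun j _ => sq _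
    rw [this, pow_two]
    linarith
  obtain ⟨σ, hσ⟩ : ∃ σ, σ = ∑ j ∈ Tᶜ, (u j : ℤ) := ⟨_, rfl⟩
  obtain ⟨σ2, hσ2⟩ : ∃ σ2, σ2 = ∑ j ∈ Tᶜ, (u j : ℤ) ^ 2 := ⟨_, rfl⟩
  rw [← hσ] at hsum
  rw [← hσ2] at hsq
  have hσt : σ = t + c := by linarith
  have hmain' : 2 * (u i0 : ℤ) * t ≤ a + σ2 := by
    have e1 : (3 * (e : ℤ) - ∑ i ∈ T, (u i : ℤ)) = t := by linarith
    rw [e1] at hmain
    linarith
  have h2 : σ2 ≤ (u i0 : ℤ) * σ := by
    rw [hσ, hσ2, Finset.mul_sum]
    refine Finset.sum_le_sum fun j hj => ?_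
    have h3 : u j ≤ u i0 := htop i0 hi0 j (Finset.mem_compl.1 hj)
    have h4 : (u j : ℤ) ≤ u i0 := by exact_mod_cast h3
    rw [pow_two]
    exact mul_le_mul_of_nonneg_right h4 (Int.natCast_nonneg _)
  have h12 : σ ≤ σ2 := by
    rw [hσ, hσ2]
    refine Finset.sum_le_sum fun j _ => ?_
    rcases Nat.eq_zero_or_pos (u j) with h | h
    · rw [h]
      norm_num
    · have : (1 : ℤ) ≤ u j := by exact_mod_cast h
      nlinarith
  have h22 : σ2 ≤ σ ^ 2 := by
    rw [hσ2, pow_two]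
    nth_rewrite 1 [hσ]
    rw [Finset.sum_mul]
    refine Finset.sum_le_sum fun j hj => ?_
    rw [pow_two]
    refine mul_le_mul_of_nonneg_left ?_ (Int.natCast_nonneg _)
    rw [hσ]
    exact Finset.single_le_sum (f := fun j => (u j : ℤ)) (fun j _ => Int.natCast_nonneg _) hj
  obtain ⟨hdeg, -⟩ := deg_le hred hT hi0 ht
  obtain ⟨k1, k2, k3⟩ := numg (a := a) (c := c) (t := t) (m := u i0) (e := e) (σ := σ) (σ2 := σ2)
    ha2 hc (by exact_mod_cast ht0) (Int.natCast_nonneg _) hσt hmain' h12 h2 h22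
    (by exact_mod_cast hdeg)
  refine ⟨k1, k3, ?_⟩
  have h4 : ((Tᶜ.filter fun j => u j ≠ 0).card : ℤ) ≤ σ := by
    have h5 : ∑ _j ∈ Tᶜ.filter (fun j => u j ≠ 0), (1 : ℤ) ≤ σ := by
      have h6 : ∑ j ∈ Tᶜ.filter (fun j => u j ≠ 0), (u j : ℤ) ≤ σ := by
        rw [hσ]
        exact Finset.sum_le_sum_of_subset_of_nonneg (Finset.filter_subset _ _)
          fun i _ _ => Int.natCast_nonneg _
      refine le_trans (Finset.sum_le_sum fun j hj => ?_) h6
      have := (Finset.mem_filter.1 hj).2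
      have : 1 ≤ u j := by omega
      exact_mod_cast this
    rwa [Finset.sum_const, nsmul_eq_mul, mul_one] at h5
  have h10 : (Finset.univ.filter fun j => u j ≠ 0) ⊆ T ∪ (Tᶜ.filter fun j => u j ≠ 0) := by
    intro j hj
    by_cases hjT : j ∈ T
    · exact Finset.mem_union_left _ hjT
    · exact Finset.mem_union_right _ (Finset.mem_filter.2
        ⟨Finset.mem_compl.2 hjT, (Finset.mem_filter.1 hj).2⟩)
  have h11 := (Finset.card_le_card h10).trans (Finset.card_union_le _ _)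
  rw [hT] at h11
  have h13 : ((Finset.univ.filter fun j => u j ≠ 0).card : ℤ) ≤
      9 + ((Tᶜ.filter fun j => u j ≠ 0).card : ℤ) := by exact_mod_cast h11
  linarith

/-- The multiples of `-K` with further multiplicities are empty. -/
theorem family_empty {r : ℕ} {P : Fin (r + 4) → Fin 2 → ℂ}
    (hP : AlgebraicIndependent ℚ (fun ij : Fin (r + 4) × Fin 2 => P ij.1 ij.2)) {e : ℕ}
    {u : Fin (r + 4) → ℕ} {T : Finset (Fin (r + 4))} {m : ℕ} (hT : T.card = 9) (he : e = 3 * m)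
    (hu : ∀ i ∈ T, u i = m) (hk : kk e u < 0) : SHDefs.sys P e u = ⊥ := by
  classical
  have hsum : ∑ i ∈ T, (u i : ℤ) = 9 * m := by
    rw [Finset.sum_congr rfl fun i hi => by rw [hu i hi], Finset.sum_const, hT]
    norm_num
  obtain ⟨j, hjT, hj⟩ : ∃ j, j ∉ T ∧ 1 ≤ u j := by
    by_contra hcon
    push Not at hcon
    have h1 : ∑ i ∈ Tᶜ, (u i : ℤ) = 0 := Finset.sum_eq_zero fun i hi => by
      have := hcon i (Finset.mem_compl.1 hi)
      have : u i = 0 := by omega
      rw [this, Nat.cast_zero]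
    have h2 := Finset.sum_add_sum_compl T fun i => (u i : ℤ)
    unfold kk at hk
    rw [he] at hk
    push_cast at hk
    linarith
  obtain ⟨w, hw⟩ : ∃ w : Fin (r + 4) → ℕ, w = fun i => if i ∈ T then m else 0 := ⟨_, rfl⟩
  have hwT : ∀ i, i ∈ T → w i = m := fun i hi => by
    rw [hw]
    exact if_pos hi
  have hwn : ∀ i, i ∉ T → w i = 0 := fun i hi => by
    rw [hw]
    exact if_neg hi
  have hle : ∀ i, w i ≤ m := fun i => by
    by_cases hi : i ∈ T
    · rw [hwT i hi]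
    · rw [hwn i hi]
      exact Nat.zero_le _
  have hred : Reduced e w := fun a b c _ _ _ => by
    have h1 := hle a
    have h2 := hle b
    have h3 := hle c
    omega
  have h9 : (Finset.univ.filter fun i => 2 < w i).card ≤ 9 := by
    rw [← hT]
    refine Finset.card_le_card fun i hi => ?_
    by_contra hiT
    have := (Finset.mem_filter.1 hi).2
    rw [hwn i hiT] at this
    omega
  have h1 := TT.nonsp_gen hred h9 hP
  have h2 : ∑ i, (w i + 1).choose 2 = 9 * (m + 1).choose 2 := by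
    have h3 : ∀ i, (w i + 1).choose 2 = if i ∈ T then (m + 1).choose 2 else 0 := fun i => by
      by_cases hi : i ∈ T
      · rw [hwT i hi, if_pos hi]
      · rw [hwn i hi, if_neg hi]
        rfl
    rw [Finset.sum_congr rfl fun i _ => h3 i, Finset.sum_ite_mem, Finset.univ_inter,
      Finset.sum_const, hT]
    rfl
  have h4 : (e + 2).choose 2 = 9 * (m + 1).choose 2 + 1 := by
    have a1 := Nat.choose_two_right (e + 2)
    have a2 := Nat.choose_two_right (m + 1)
    have a3 : 2 * (e + 2).choose 2 = (e + 2) * (e + 1) := by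
      have := H932R7.two_choose e
      linarith
    have a4 : 2 * (m + 1).choose 2 = (m + 1) * m := by
      rw [a2]
      have : 2 ∣ (m + 1) * (m + 1 - 1) := (Nat.even_mul_pred_self (m + 1)).two_dvd
      rw [Nat.mul_div_cancel' this]
      rfl
    rw [he] at a3 ⊢
    nlinarith
  rw [h2, h4] at h1
  have h5 : 9 * (m + 1).choose 2 + 1 - 9 * (m + 1).choose 2 = 1 := by omega
  rw [h5] at h1
  have h6 := TT.simple_drop hP (hwn j hjT) (d := e) (by omega)
  rw [h1] at h6
  have h7 : Module.finrank ℂ ↥(VS (fun i => aff (P i)) (Function.update w j 1) e) = 0 := by omega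
  have hfin := vs_fin (fun i => aff (P i)) (Function.update w j 1) e
  have h8 := Submodule.finrank_eq_zero.1 h7
  rw [sys_eq, eq_bot_iff, ← h8]
  refine vs_mono _ _ fun i => ?_
  by_cases hi : i = j
  · subst hi
    rw [Function.update_self]
    exact hj
  · rw [Function.update_of_ne hi]
    by_cases hiT : i ∈ T
    · rw [hwT i hiT, hu i hiT]
    · rw [hwn i hiT]
      exact Nat.zero_le _

end Pool.Agent.N108.SG.Lv
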