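import Pool.Agent.N108.SG.LTab
import Pool.Agent.TH167.TT.Nine

set_option autoImplicit false

/-!
# All standard classes of level at most five
-/

namespace Pool.Agent.N108.SG

open MvPolynomial Pool.Agent.W609 Pool.Agent.W609.CR Pool.Agent.TH167 Pool.Agent.TH167.SH
open Pool.Agent.N108.SG.Lv

theorem emptyLevel_le_five {c : ℤ} (h1 : 1 ≤ c) (h5 : c ≤ 5) : EmptyLevel c := by
  have : c = 1 ∨ c = 2 ∨ c = 3 ∨ c = 4 ∨ c = 5 := by omega
  rcases this with rfl | rfl | rfl | rfl | rfl
  · exact emptyLevel_one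
  · exact L.emptyLevel_2
  · exact L.emptyLevel_3
  · exact L.emptyLevel_4
  · exact L.emptyLevel_5

/-- Standard classes with `K D ≤ 5` and `p_a (D) ≤ 5` have the expected dimension. -/
theorem low_dim {K : Type} [Field K] [CharZero K] {r : ℕ} {P : Fin (r + 4) → Fin 2 → K}
    (hP : AlgebraicIndependent ℚ (fun ij : Fin (r + 4) × Fin 2 => P ij.1 ij.2)) {d : ℕ}
    {w : Fin (r + 4) → ℕ} (hred : Reduced d w) (h1 : -kk d w ≤ 5)
    (h2 : -kk d w + chi d w ≤ 5) :
    (Module.finrank K ↥(VS (fun j => aff (P j)) w d) : ℤ) = max 0 (chi d w) := by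
  by_cases h3 : ThreePos w
  · obtain ⟨g, F, hF, hg⟩ := dim_gen w d
    obtain ⟨f, hf⟩ := Pool.Agent.N108.SG.Lv.exists_indep (Fin (r + 4) × Fin 2)
    obtain ⟨R, hR⟩ : ∃ R : Fin (r + 4) → Fin 2 → ℂ, R = fun i j => f (i, j) := ⟨_, rfl⟩
    have hRi : AlgebraicIndependent ℚ (fun ij : Fin (r + 4) × Fin 2 => R ij.1 ij.2) := by
      rw [hR]
      exact hf
    have e1 := hg ℂ R fun h0 => hF (hRi.eq_zero_of_aeval_eq_zero F h0)
    have e2 := hg K P fun h0 => hF (hP.eq_zero_of_aeval_eq_zero F h0)
    have hl := level_pos (by omega) hred h3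
    have hl5 : level d w ≤ 5 := by
      unfold level
      rcases le_total 0 (chi d w) with h | h
      · rw [max_eq_right h]
        exact h2
      · rw [max_eq_left h]
        omega
    have h4 := of_emptyLevel (emptyLevel_le_five hl hl5) (by omega) hred h3 rfl hRi
    rw [sys_eq, e1] at h4
    rw [e2]
    exact h4
  · have h9 : (Finset.univ.filter fun j => w j ≠ 0).card ≤ 9 := by
      by_contra hcon
      push Not at hcon
      obtain ⟨a, b, c, ha, hb, hc, hab, hac, hbc⟩ := Finset.two_lt_card_iff.1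
        (show 2 < (Finset.univ.filter fun j => w j ≠ 0).card by omega)
      rw [Finset.mem_filter] at ha hb hc
      exact h3 ⟨a, b, c, hab, hac, hbc, by omega, by omega, by omega⟩
    have h4 := Pool.Agent.TH167.TT.nine hP hred h9
    have h5 : chi d w = (Module.finrank K ↥(VS (fun j => aff (P j)) w d) : ℤ) := by
      unfold chi
      have h6 : ((Module.finrank K ↥(VS (fun j => aff (P j)) w d) : ℤ)) +
          ∑ j, ((w j + 1).choose 2 : ℤ) = ((d + 2).choose 2 : ℤ) := by
        exact_mod_cast h4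
      linarith
    rw [h5]
    simp

end Pool.Agent.N108.SG
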