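import Pool.Agent.N108.SG.Chk

set_option autoImplicit false

/-!
# Soundness of the packed elimination
-/

namespace Pool.Agent.N108.SG

/-- The mask. -/
def mask : ℕ → ℕ
  | 0 => 0
  | n + 1 => 63 + 512 * mask n

theorem mask_eq (N : ℕ) : 63 * ((512 ^ N - 1) / 511) = mask N := by
  have h : ∀ N : ℕ, ∃ q, 512 ^ N = 511 * q + 1 ∧ mask N = 63 * q := by
    intro N
    induction N with
    | zero => exact ⟨0, by norm_num, rfl⟩
    | succ n ih =>
      obtain ⟨q, h1, h2⟩ := ih
      refine ⟨512 * q + 1, ?_, ?_⟩
      · rw [pow_succ, h1]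
        ring
      · rw [mask, h2]
        ring
  obtain ⟨q, h1, h2⟩ := h N
  rw [h1, h2]
  simp

theorem and_split (u v : ℕ) : u &&& v = ((u % 512) &&& (v % 512)) + 512 * ((u / 512) &&& (v / 512)) := by
  have h1 : (u &&& v) % 512 = (u % 512) &&& (v % 512) := by
    have : (512 : ℕ) = 2 ^ 9 := by norm_num
    rw [this]
    exact Nat.and_mod_two_pow
  have h2 : (u &&& v) / 512 = (u / 512) &&& (v / 512) := by
    have : (512 : ℕ) = 2 ^ 9 := by norm_num
    rw [this]
    exact Nat.and_div_two_pow
  have := Nat.mod_add_div (u &&& v) 512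
  rw [h1, h2] at this
  exact this.symm

theorem and_mask : ∀ (L : List ℕ) (N : ℕ), L.length ≤ N → (∀ a ∈ L, a < 512) →
    (pkL L >>> 3) &&& mask N = pkL (L.map (· / 8)) := by
  intro L
  induction L with
  | nil =>
    intro N _ _
    simp [pkL]
  | cons a L ih =>
    intro N hN hL
    obtain ⟨n, rfl⟩ : ∃ n, N = n + 1 := ⟨N - 1, by simp at hN; omega⟩
    have ha : a < 512 := hL a (by simp)
    have h1 := ih n (by simpa using hN) fun b hb => hL b (by simp [hb])
    rw [Nat.shiftRight_eq_div_pow] at h1 ⊢
    rw [pkL, mask, and_split]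
    have e1 : (a + 512 * pkL L) / 2 ^ 3 = a / 8 + 64 * pkL L := by omega
    rw [e1]
    have e2 : (a / 8 + 64 * pkL L) % 512 = a / 8 + 64 * (pkL L % 8) := by omega
    have e3 : (a / 8 + 64 * pkL L) / 512 = pkL L / 2 ^ 3 := by omega
    have e4 : (63 + 512 * mask n) % 512 = 63 := by omega
    have e5 : (63 + 512 * mask n) / 512 = mask n := by omega
    rw [e2, e3, e4, e5, h1]
    have e6 : (a / 8 + 64 * (pkL L % 8)) &&& 63 = a / 8 := by
      have : (63 : ℕ) = 2 ^ 6 - 1 := by norm_num
      rw [this, Nat.and_two_pow_sub_one_eq_mod]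
      omega
    rw [e6]
    rfl

theorem pk_sub (L : List ℕ) : pkL L = 7 * pkL (L.map (· / 8)) +
    pkL (L.map fun a => a - 7 * (a / 8)) := by
  induction L with
  | nil => rfl
  | cons a L ih =>
    simp only [List.map_cons, pkL]
    omega

theorem red_eq {L : List ℕ} {N : ℕ} (hN : L.length ≤ N) (hL : ∀ a ∈ L, a < 512) :
    red (mask N) (pkL L) = pkL (L.map fun a => a - 7 * (a / 8)) := by
  unfold red
  rw [and_mask L N hN hL]
  have := pk_sub L
  omega

/-- The value of a row at a vector. -/
def dot : List ℕ → List (ZMod 7) → ZMod 7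
  | a :: L, x :: X => (a : ZMod 7) * x + dot L X
  | _, _ => 0

/-- The row `r` is an equation satisfied by `X`. -/
def Good (X : List (ZMod 7)) (r : ℕ) : Prop :=
  ∃ L : List ℕ, L.length = X.length ∧ (∀ a ∈ L, a < 64) ∧ r = pkL L ∧ dot L X = 0

/-- Sum of a row and a multiple of another. -/
def ax (c : ℕ) : List ℕ → List ℕ → List ℕ
  | a :: L, b :: M => (a + c * b) :: ax c L M
  | _, _ => []

theorem ax_pk (c : ℕ) : ∀ L M : List ℕ, L.length = M.length →
    pkL (ax c L M) = pkL L + c * pkL M := by
  intro L
  induction L with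
  | nil =>
    intro M h
    have : M = [] := List.length_eq_zero_iff.1 h.symm
    subst this
    simp [ax, pkL]
  | cons a L ih =>
    intro M h
    cases M with
    | nil => simp at h
    | cons b M =>
      have := ih M (by simpa using h)
      simp only [ax, pkL, this]
      ring

theorem ax_len (c : ℕ) : ∀ L M : List ℕ, L.length = M.length → (ax c L M).length = L.length := by
  intro L
  induction L with
  | nil =>
    intro M h
    cases M <;> rfl
  | cons a L ih =>
    intro M h
    cases M with
    | nil => simp at h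
    | cons b M =>
      have := ih M (by simpa using h)
      simp [ax, this]

theorem ax_lt {c : ℕ} (hc : c < 7) : ∀ L M : List ℕ, (∀ a ∈ L, a < 64) → (∀ a ∈ M, a < 64) →
    ∀ a ∈ ax c L M, a < 442 := by
  intro L
  induction L with
  | nil =>
    intro M _ _ a ha
    cases M <;> simp [ax] at ha
  | cons b L ih =>
    intro M h1 h2 a ha
    cases M with
    | nil => simp [ax] at ha
    | cons b' M =>
      simp only [ax, List.mem_cons] at ha
      rcases ha with ha | ha
      · have h3 := h1 b (by simp)
        have h4 := h2 b' (by simp)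
        have h5 : c * b' ≤ 6 * 63 := Nat.mul_le_mul (by omega) (by omega)
        omega
      · exact ih M (fun a ha => h1 a (by simp [ha])) (fun a ha => h2 a (by simp [ha])) a ha

theorem ax_dot (c : ℕ) : ∀ (L M : List ℕ) (X : List (ZMod 7)), L.length = X.length →
    M.length = X.length → dot (ax c L M) X = dot L X + c * dot M X := by
  intro L
  induction L with
  | nil =>
    intro M X h1 h2
    have : X = [] := List.length_eq_zero_iff.1 h1.symm
    subst this
    have : M = [] := List.length_eq_zero_iff.1 h2
    subst this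
    simp [ax, dot]
  | cons a L ih =>
    intro M X h1 h2
    cases X with
    | nil => simp at h1
    | cons x X =>
      cases M with
      | nil => simp at h2
      | cons b M =>
        have := ih M X (by simpa using h1) (by simpa using h2)
        simp only [ax, dot, this]
        push_cast
        ring

theorem cast7 (a : ℕ) : ((a - 7 * (a / 8) : ℕ) : ZMod 7) = a := by
  have h : 7 * (a / 8) ≤ a := by omega
  rw [Nat.cast_sub h]
  push_cast
  have : (7 : ZMod 7) = 0 := by decide
  rw [this]
  ring

theorem dot_red : ∀ (L : List ℕ) (X : List (ZMod 7)),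
    dot (L.map fun a => a - 7 * (a / 8)) X = dot L X := by
  intro L
  induction L with
  | nil => intro X; rfl
  | cons a L ih =>
    intro X
    cases X with
    | nil => rfl
    | cons x X =>
      have := ih X
      simp only [List.map_cons, dot, this, cast7]

theorem upd_good {N : ℕ} {x : ZMod 7} {X : List (ZMod 7)} (hN : X.length + 1 ≤ N) {r p inv : ℕ}
    (hr : Good (x :: X) r) (hp : Good (x :: X) p)
    (h : (r % 512 + (6 * (r % 512) * inv % 7) * (p % 512)) % 7 = 0) :
    Good X (upd (mask N) inv p r) := by
  obtain ⟨L, l1, l2, l3, l4⟩ := hr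
  obtain ⟨M, m1, m2, m3, m4⟩ := hp
  cases L with
  | nil => simp at l1
  | cons a L =>
  cases M with
  | nil => simp at m1
  | cons b M =>
  have ha : a < 64 := l2 a (by simp)
  have hb : b < 64 := m2 b (by simp)
  have hra : r % 512 = a := by
    rw [l3, pkL]
    omega
  have hpb : p % 512 = b := by
    rw [m3, pkL]
    omega
  rw [hra, hpb] at h
  unfold upd
  rw [hra]
  obtain ⟨c, hc⟩ : ∃ c, c = 6 * a * inv % 7 := ⟨_, rfl⟩
  rw [← hc] at h ⊢
  have hc7 : c < 7 := by
    rw [hc]
    exact Nat.mod_lt _ (by norm_num)
  have hlen : (a :: L).length = (b :: M).length := by rw [l1, m1]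
  have e1 : r + c * p = pkL (ax c (a :: L) (b :: M)) := by
    rw [ax_pk c _ _ hlen, l3, m3]
  have hlt := ax_lt hc7 (a :: L) (b :: M) l2 m2
  have hlen2 : (ax c (a :: L) (b :: M)).length = X.length + 1 := by
    rw [ax_len c _ _ hlen, l1]
    rfl
  have hd := ax_dot c (a :: L) (b :: M) (x :: X) l1 m1
  rw [l4, m4, mul_zero, add_zero] at hd
  rw [e1, red_eq (by rw [hlen2]; exact hN) (fun a ha => lt_trans (hlt a ha) (by norm_num))]
  rw [ax] at hlt hlen2 hd ⊢
  rw [List.map_cons, pkL]
  refine ⟨(ax c L M).map fun a => a - 7 * (a / 8), ?_, ?_, ?_, ?_⟩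
  · rw [List.length_map]
    simpa using hlen2
  · intro a ha
    obtain ⟨a', ha', rfl⟩ := List.mem_map.1 ha
    have := hlt a' (List.mem_cons_of_mem _ ha')
    omega
  · have h9 := hlt (a + c * b) (by simp)
    rw [Nat.shiftRight_eq_div_pow]
    have : a + c * b - 7 * ((a + c * b) / 8) < 512 := by omega
    omega
  · rw [dot_red]
    rw [dot] at hd
    have h0 : ((a + c * b : ℕ) : ZMod 7) = 0 := (ZMod.natCast_eq_zero_iff _ _).2
      (Nat.dvd_of_mod_eq_zero h)
    rw [h0, zero_mul, zero_add] at hd
    exact hd

theorem good_zero (X : List (ZMod 7)) : Good X 0 := by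
  refine ⟨List.replicate X.length 0, by simp, ?_, ?_, ?_⟩
  · intro a ha
    rw [List.eq_of_mem_replicate ha]
    norm_num
  · induction X with
    | nil => rfl
    | cons x X ih =>
      rw [List.length_cons, List.replicate_succ, pkL, ← ih]
  · induction X with
    | nil => rfl
    | cons x X ih =>
      rw [List.length_cons, List.replicate_succ, dot, ih]
      simp

theorem dot_zero : ∀ (L : List ℕ) (X : List (ZMod 7)), (∀ y ∈ X, y = 0) → dot L X = 0 := by
  intro L
  induction L with
  | nil => intro X _; rfl
  | cons a L ih =>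
    intro X h
    cases X with
    | nil => rfl
    | cons x X =>
      rw [dot, h x (by simp), ih X fun y hy => h y (by simp [hy])]
      simp

theorem piv_sound {N : ℕ} {x : ZMod 7} {X : List (ZMod 7)} (hN : X.length + 1 ≤ N)
    {k : List ℕ → Bool}
    (hk : ∀ rs : List ℕ, (∀ r ∈ rs, Good X r) → k rs = true → ∀ y ∈ X, y = 0) :
    ∀ (rs acc : List ℕ), (∀ r ∈ rs, Good (x :: X) r) →
      (∀ r ∈ acc, Good (x :: X) r ∧ r % 512 % 7 = 0) → piv k (mask N) rs acc = true →
      ∀ y ∈ x :: X, y = 0 := by
  intro rs
  induction rs with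
  | nil =>
    intro acc _ _ h
    simp [piv] at h
  | cons p rs ih =>
    intro acc hrs hacc h
    rw [piv] at h
    by_cases h1 : p % 512 % 7 = 0
    · rw [show Nat.beq (p % 512 % 7) 0 = true by rw [h1]; rfl] at h
      simp only [cond_true] at h
      refine ih (p :: acc) (fun r hr => hrs r (by simp [hr])) ?_ h
      intro r hr
      rcases List.mem_cons.1 hr with rfl | hr
      · exact ⟨hrs _ (by simp), h1⟩
      · exact hacc r hr
    · have h1' : Nat.beq (p % 512 % 7) 0 = false := by
        rw [Bool.eq_false_iff]
        intro h2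
        exact h1 (Nat.eq_of_beq_eq_true h2)
      rw [h1'] at h
      simp only [cond_false] at h
      by_cases h2 : (p % 512) ^ 5 % 7 * (p % 512) % 7 = 1
      · rw [show Nat.beq ((p % 512) ^ 5 % 7 * (p % 512) % 7) 1 = true by rw [h2]; rfl] at h
        simp only [cond_true] at h
        obtain ⟨inv, hinv⟩ : ∃ inv, inv = (p % 512) ^ 5 % 7 := ⟨_, rfl⟩
        rw [← hinv] at h2 h
        have hp := hrs p (by simp)
        have hX := hk _ ?_ h
        · obtain ⟨L, l1, l2, l3, l4⟩ := hp
          cases L with
          | nil => simp at l1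
          | cons a L =>
          have ha : a < 64 := l2 a (by simp)
          have hra : p % 512 = a := by
            rw [l3, pkL]
            omega
          rw [dot, dot_zero L X hX, add_zero] at l4
          have h3 : ((inv * a : ℕ) : ZMod 7) = 1 := by
            rw [hra] at h2
            rw [← ZMod.natCast_mod, h2, Nat.cast_one]
          have hx : x = 0 := by
            calc x = ((inv * a : ℕ) : ZMod 7) * x := by rw [h3, one_mul]
              _ = inv * (a * x) := by push_cast; ring
              _ = 0 := by rw [l4, mul_zero]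
          intro y hy
          rcases List.mem_cons.1 hy with rfl | hy
          · exact hx
          · exact hX y hy
        · intro r hr
          rcases List.mem_append.1 hr with hr | hr
          · obtain ⟨r', hr', rfl⟩ := List.mem_map.1 hr
            refine upd_good hN (hrs r' (by simp [hr'])) hp ?_
            have h4 : (r' % 512 + (6 * (r' % 512) * inv % 7) * (p % 512)) % 7 =
                (r' % 512 + 6 * (r' % 512) * (inv * (p % 512) % 7)) % 7 := by
              rw [Nat.add_mod, Nat.mod_mul_mod, Nat.add_mod (r' % 512) (6 * (r' % 512) * _),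
                Nat.mul_mod_mod, mul_assoc (6 * (r' % 512))]
            rw [h4, h2]
            omega
          · obtain ⟨r', hr', rfl⟩ := List.mem_map.1 hr
            obtain ⟨h5, h6⟩ := hacc r' hr'
            refine upd_good hN h5 (good_zero _) ?_
            simpa using h6
      · have h2' : Nat.beq ((p % 512) ^ 5 % 7 * (p % 512) % 7) 1 = false := by
          rw [Bool.eq_false_iff]
          intro h3
          exact h2 (Nat.eq_of_beq_eq_true h3)
        rw [h2'] at h
        simp at h

theorem run_sound {N : ℕ} : ∀ (X : List (ZMod 7)) (rs : List ℕ), X.length ≤ N →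
    (∀ r ∈ rs, Good X r) → run (mask N) X.length rs = true → ∀ y ∈ X, y = 0 := by
  intro X
  induction X with
  | nil =>
    intro rs _ _ _ y hy
    simp at hy
  | cons x X ih =>
    intro rs hN hrs h
    rw [List.length_cons, run] at h
    exact piv_sound (by simpa using hN) (fun rs' h1 h2 => ih rs' (by simp at hN; omega) h1 h2)
      rs [] hrs (by simp) h

end Pool.Agent.N108.SG
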