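import Pool.Agent.N108.SG.Lift
import Pool.Agent.W609.CR.Stm
import Pool.Agent.W609.CR.Geo

set_option autoImplicit false

/-!
# The conditions of vanishing in coordinates
-/

namespace Pool.Agent.N108.SG

open MvPolynomial Pool.Agent.W609 Pool.Agent.W609.CR

/-- An exponent. -/
noncomputable def e3 (a b c : ℕ) : Fin 3 →₀ ℕ := Finsupp.equivFunOnFinite.symm ![a, b, c]

@[simp] theorem e3_0 (a b c : ℕ) : e3 a b c 0 = a := rfl
@[simp] theorem e3_1 (a b c : ℕ) : e3 a b c 1 = b := rfl
@[simp] theorem e3_2 (a b c : ℕ) : e3 a b c 2 = c := rfl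

theorem e3_eq {a : Fin 3 →₀ ℕ} {i l k : ℕ} : a = e3 i l k ↔ a 0 = i ∧ a 1 = l ∧ a 2 = k := by
  constructor
  · rintro rfl
    simp
  · rintro ⟨h1, h2, h3⟩
    ext j
    fin_cases j
    · exact h1
    · exact h2
    · exact h3

theorem e3_deg (a b c : ℕ) : (e3 a b c).degree = a + b + c := by
  rw [Finsupp.degree_eq_sum, Fin.sum_univ_three]
  simp

/-- Restriction to the first two variables. -/
noncomputable def rho (K : Type) [Field K] : MvPolynomial (Fin 3) K →ₐ[K] Polynomial (Polynomial K) :=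
  aeval ![Polynomial.C Polynomial.X, Polynomial.X, 0]

theorem rho_mono {K : Type} [Field K] (a : Fin 3 →₀ ℕ) (c : K) :
    rho K (monomial a c) = Polynomial.C (Polynomial.C c * Polynomial.X ^ (a 0)) *
      Polynomial.X ^ (a 1) * 0 ^ (a 2) := by
  unfold rho
  rw [aeval_monomial, Finsupp.prod_fintype _ _ (by simp), Fin.prod_univ_three]
  simp [Polynomial.algebraMap_apply]
  ring

theorem rho_coeff {K : Type} [Field K] (g : MvPolynomial (Fin 3) K) (i l : ℕ) :
    ((rho K g).coeff l).coeff i = coeff (e3 i l 0) g := by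
  induction g using MvPolynomial.induction_on' with
  | monomial a c =>
    rw [rho_mono, coeff_monomial]
    by_cases h2 : a 2 = 0
    · rw [h2, pow_zero, mul_one, Polynomial.coeff_C_mul, Polynomial.coeff_X_pow]
      by_cases h1 : l = a 1
      · rw [if_pos h1, mul_one, Polynomial.coeff_C_mul, Polynomial.coeff_X_pow]
        by_cases h0 : i = a 0
        · rw [if_pos h0, mul_one, if_pos (e3_eq.2 ⟨h0.symm, h1.symm, h2⟩)]
        · rw [if_neg h0, mul_zero, if_neg (fun h => h0 (e3_eq.1 h).1.symm)]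
      · rw [if_neg h1, mul_zero, if_neg (fun h => h1 (e3_eq.1 h).2.1.symm)]
        simp
    · rw [zero_pow h2, mul_zero, if_neg (fun h => h2 (e3_eq.1 h).2.2)]
      simp
  | add p q hp hq =>
    rw [map_add, Polynomial.coeff_add, Polynomial.coeff_add, hp, hq, coeff_add]

theorem rho_shift_mono {K : Type} [Field K] (p : Fin 2 → K) (a : Fin 3 →₀ ℕ) (c : K) :
    rho K (shift (n := 2) (aff p) (monomial a c)) =
      Polynomial.C (Polynomial.C c * (Polynomial.X + Polynomial.C (p 0)) ^ (a 0)) *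
        (Polynomial.X + Polynomial.C (Polynomial.C (p 1))) ^ (a 1) := by
  unfold rho shift
  rw [aeval_monomial, Finsupp.prod_fintype _ _ (by simp), Fin.prod_univ_three]
  simp [aff, Polynomial.algebraMap_apply]
  ring

theorem coeff_shift_mono {K : Type} [Field K] (p : Fin 2 → K) (a : Fin 3 →₀ ℕ) (c : K) (i l : ℕ) :
    coeff (e3 i l 0) (shift (n := 2) (aff p) (monomial a c)) =
      c * (((a 0).choose i : K) * p 0 ^ (a 0 - i) * (((a 1).choose l : K) * p 1 ^ (a 1 - l))) := by
  rw [← rho_coeff, rho_shift_mono, Polynomial.coeff_C_mul, Polynomial.coeff_X_add_C_pow,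
    mul_comm (Polynomial.C (p 1) ^ _), ← Polynomial.C_pow, ← Polynomial.C_eq_natCast,
    ← mul_assoc, mul_comm _ (Polynomial.C ((p 1) ^ _)), Polynomial.coeff_C_mul]
  rw [mul_comm _ (Polynomial.C (((a 1).choose l : ℕ) : K)), Polynomial.coeff_C_mul,
    Polynomial.coeff_C_mul, Polynomial.coeff_X_add_C_pow]
  ring

theorem eq_sum {K : Type} [Field K] {d : ℕ} {f : MvPolynomial (Fin 3) K} (hf : f.IsHomogeneous d) :
    f = ∑ t ∈ Tx d, monomial (e3 t.1 t.2 (d - t.1 - t.2)) (coeff (e3 t.1 t.2 (d - t.1 - t.2)) f) := by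
  ext a
  rw [coeff_sum]
  by_cases h : coeff a f = 0
  · rw [h, Finset.sum_eq_zero]
    intro t _
    rw [coeff_monomial]
    split_ifs with h1
    · rw [h1, h]
    · rfl
  · have hd : a.degree = d := homog_degree (n := 2) hf (mem_support_iff.2 h)
    rw [Finsupp.degree_eq_sum, Fin.sum_univ_three] at hd
    have ha : a = e3 (a 0) (a 1) (d - a 0 - a 1) := e3_eq.2 ⟨rfl, rfl, by omega⟩
    rw [Finset.sum_eq_single_of_mem (⟨a 0, a 1⟩ : Σ _ : ℕ, ℕ) (mem_Tx.2 (by omega))]
    · rw [coeff_monomial, if_pos ha.symm, ← ha]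
    · rintro ⟨x, y⟩ _ hne
      rw [coeff_monomial, if_neg]
      intro h1
      obtain ⟨h2, h3, _⟩ := e3_eq.1 h1.symm
      simp only at h2 h3
      exact hne (by rw [h2, h3])

theorem van_cond {K : Type} [Field K] {d m : ℕ} {p : Fin 2 → K} {f : MvPolynomial (Fin 3) K}
    (hf : f.IsHomogeneous d) (h : Van (aff p) m f) :
    Cond d (p 0) (p 1) m (fun a b => coeff (e3 a b (d - a - b)) f) := by
  intro i l hil
  unfold Van at h
  rw [mem_ker_pow_iff (n := 2)] at h
  have h1 := h (e3 i l 0) (by rw [e3_deg]; omega)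
  rw [eq_sum hf, map_sum, coeff_sum] at h1
  rw [← h1]
  unfold Tx
  rw [Finset.sum_sigma]
  refine Finset.sum_congr rfl fun a _ => Finset.sum_congr rfl fun b _ => ?_
  rw [coeff_shift_mono]
  simp

theorem van_zero_of {K : Type} [Field K] {d : ℕ} {f : MvPolynomial (Fin 3) K}
    (hf : f.IsHomogeneous d) (h : ∀ a b, a + b ≤ d → coeff (e3 a b (d - a - b)) f = 0) : f = 0 := by
  rw [eq_sum hf]
  refine Finset.sum_eq_zero fun t ht => ?_
  rw [h t.1 t.2 (mem_Tx.1 ht), map_zero]

end Pool.Agent.N108.SG
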